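import Pool.Agent.Y424.LK.Base
import Pool.Agent.TH458.VC.Low
import Pool.Agent.TH458.VC.Asy

/-!
# Four colours, every uniformity: towers of full height with small VC-dimension
-/

set_option autoImplicit false

namespace Pool.Agent.Y424.LK

open Finset Pool.Agent.TH138.NF

/-- No homogeneous sets after the first step. -/
theorem base_hom (χ : ℕ → ℕ → Bool) (j M k : ℕ) (hM : M ≤ 2 ^ j) (hk : 2 ≤ k)
    (hχ : ∀ E : Finset ℕ, E.card = k → (∀ a ∈ E, a < M) → ∀ u : Bool,
      ¬ ∀ a ∈ E, ∀ b ∈ E, a < b → χ a b = u) :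
    ∀ S ⊆ range (2 ^ M), S.card = k + 1 → ¬ Hom (base χ j) S := by
  classical
  intro S hS hc hhom
  obtain ⟨x, hxS, hxm⟩ := enum S
  rw [hc] at hxS hxm
  have hpow : 2 ^ M ≤ 2 ^ 2 ^ j := Nat.pow_le_pow_right (by norm_num) hM
  have hxr : ∀ i, i < k + 1 → x i < 2 ^ M := fun i hi => mem_range.1 (hS (hxS i hi))
  set e : ℕ → ℕ := fun i => hd (x i) (x (i + 1)) with he
  -- triples
  have htri : ∀ a b c, a < b → b < c → c ≤ k → (base χ j).run ![x a, x b, x c] =
      (χ (min (hd (x a) (x b)) (hd (x b) (x c))) (max (hd (x a) (x b)) (hd (x b) (x c))),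
        decide (hd (x a) (x b) < hd (x b) (x c))) ∧
      ∀ a' b' c', a' < b' → b' < c' → c' ≤ k →
        (base χ j).run ![x a, x b, x c] = (base χ j).run ![x a', x b', x c'] := by
    intro a b c hab hbc hcK
    have hsm : ∀ a b c, a < b → b < c → c ≤ k → StrictMono ![x a, x b, x c] := by
      intro a b c hab hbc hcK
      rw [Fin.strictMono_iff_lt_succ]
      intro l
      fin_cases l
      · exact hxm a b hab (by omega)
      · exact hxm b c hbc (by omega)
    have hmem : ∀ a b c, a < b → b < c → c ≤ k → ∀ l, ![x a, x b, x c] l ∈ S := by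
      intro a b c hab hbc hcK l
      fin_cases l
      · exact hxS a (by omega)
      · exact hxS b (by omega)
      · exact hxS c (by omega)
    constructor
    · rw [run_base χ j _ (hsm a b c hab hbc hcK)
        (fun l => (mem_range.1 (hS (hmem a b c hab hbc hcK l))).trans_le hpow)]
      rfl
    · intro a' b' c' h1 h2 h3
      exact hhom _ _ (hsm a b c hab hbc hcK) (hsm a' b' c' h1 h2 h3) (hmem a b c hab hbc hcK)
        (hmem a' b' c' h1 h2 h3)
  have h012 := htri 0 1 2 (by omega) (by omega) (by omega)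
  set u := (base χ j).run ![x 0, x 1, x 2] with hu
  have hall : ∀ a b c, a < b → b < c → c ≤ k →
      χ (min (hd (x a) (x b)) (hd (x b) (x c))) (max (hd (x a) (x b)) (hd (x b) (x c))) = u.1 ∧
      decide (hd (x a) (x b) < hd (x b) (x c)) = u.2 := by
    intro a b c h1 h2 h3
    have e1 := (htri a b c h1 h2 h3).1
    have e2 := h012.2 a b c h1 h2 h3
    rw [e1] at e2
    rw [e2]
    exact ⟨rfl, rfl⟩
  have hy : ∀ i, i < k → x i < x (i + 1) := fun i hi => hxm i (i + 1) (by omega) (by omega)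
  have hElt : ∀ a ∈ (range k).image e, a < M := by
    intro a ha
    obtain ⟨i, hi, rfl⟩ := mem_image.1 ha
    rw [mem_range] at hi
    exact hd_lt (hy i hi) (hxr _ (by omega))
  rcases hv : u.2 with _ | _
  · -- decreasing
    have hdec : ∀ i, i + 1 < k → hd (x (i + 1)) (x (i + 2)) < hd (x i) (x (i + 1)) := by
      intro i hi
      have h1 := (hall i (i + 1) (i + 2) (by omega) (by omega) (by omega)).2
      rw [hv, decide_eq_false_iff_not, not_lt] at h1
      have h2 := hd_ne (hy i (by omega)) (hy (i + 1) hi)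
      exact lt_of_le_of_ne h1 h2.symm
    have hm : ∀ i l, i < l → l < k → e l < e i := e_anti e k hdec
    refine hχ ((range k).image e) ?_ hElt u.1 ?_
    · rw [card_image_of_injOn, card_range]
      intro i hi l hl hil
      rw [coe_range, Set.mem_Iio] at hi hl
      rcases lt_trichotomy i l with h | h | h
      · exact absurd hil (hm i l h hl).ne'
      · exact h
      · exact absurd hil (hm l i h hi).ne
    · intro a ha b hb hab
      obtain ⟨i, hi, rfl⟩ := mem_image.1 ha
      obtain ⟨l, hl, rfl⟩ := mem_image.1 hb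
      rw [mem_range] at hi hl
      have hki : l < i := by
        rcases lt_trichotomy i l with h | h | h
        · exact absurd (hm i l h hl) (not_lt.2 hab.le)
        · rw [h] at hab; exact absurd hab (lt_irrefl _)
        · exact h
      have h1 := (hall l i (i + 1) hki (by omega) (by omega)).1
      have h2 := (hd_dec x k hy hdec l i hki (by omega)).2.1
      rw [h2] at h1
      rw [min_eq_right hab.le, max_eq_left hab.le] at h1
      exact h1
  · -- increasing
    have hinc : ∀ i, i + 1 < k → hd (x i) (x (i + 1)) < hd (x (i + 1)) (x (i + 2)) := by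
      intro i hi
      have h1 := (hall i (i + 1) (i + 2) (by omega) (by omega) (by omega)).2
      rw [hv, decide_eq_true_eq] at h1
      exact h1
    have hm : ∀ i l, i < l → l < k → e i < e l := e_mono e k hinc
    refine hχ ((range k).image e) ?_ hElt u.1 ?_
    · rw [card_image_of_injOn, card_range]
      intro i hi l hl hil
      rw [coe_range, Set.mem_Iio] at hi hl
      rcases lt_trichotomy i l with h | h | h
      · exact absurd hil (hm i l h hl).ne
      · exact h
      · exact absurd hil (hm l i h hi).ne'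
    · intro a ha b hb hab
      obtain ⟨i, hi, rfl⟩ := mem_image.1 ha
      obtain ⟨l, hl, rfl⟩ := mem_image.1 hb
      rw [mem_range] at hi hl
      have hil : i < l := by
        rcases lt_trichotomy i l with h | h | h
        · exact h
        · rw [h] at hab; exact absurd hab (lt_irrefl _)
        · exact absurd (hm l i h hi) (not_lt.2 hab.le)
      have h1 := (hall i (i + 1) (l + 1) (by omega) (by omega) (by omega)).1
      have h2 := (hd_inc x k hy hinc (i + 1) (l + 1) (by omega) (by omega)).2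
      rw [h2, show l + 1 - 1 = l by omega] at h1
      rw [min_eq_left hab.le, max_eq_right hab.le] at h1
      exact h1

/-- graphs without homogeneous sets -/
theorem graph_hom {M k : ℕ} (G : SimpleGraph (Fin M)) (h1 : G.CliqueFree k)
    (h2 : Gᶜ.CliqueFree k) : ∀ E : Finset ℕ, E.card = k → (∀ a ∈ E, a < M) → ∀ u : Bool,
      ¬ ∀ a ∈ E, ∀ b ∈ E, a < b → adjN G a b = u := by
  classical
  intro E hE hEM u hc
  set Q : Finset (Fin M) := univ.filter (fun v => (v : ℕ) ∈ E) with hQ
  have hEQ : E = Q.image Fin.val := by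
    ext x
    simp only [hQ, mem_image, mem_filter, mem_univ, true_and]
    constructor
    · intro hx
      exact ⟨⟨x, hEM x hx⟩, hx, rfl⟩
    · rintro ⟨v, hv, rfl⟩
      exact hv
  have hQc : Q.card = k := by
    rw [← hE, hEQ, card_image_of_injective _ Fin.val_injective]
  have hpair : ∀ x ∈ Q, ∀ y ∈ Q, x ≠ y → adjN G x y = u := by
    intro x hx y hy hxy
    simp only [hQ, mem_filter, mem_univ, true_and] at hx hy
    rcases lt_or_gt_of_ne (fun h => hxy (Fin.ext h) : (x : ℕ) ≠ y) with h | h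
    · exact hc x hx y hy h
    · rw [adjN_comm]
      exact hc y hy x hx h
  have hadj : ∀ x y : Fin M, adjN G x y = true ↔ G.Adj x y := by
    intro x y
    unfold adjN
    rw [decide_eq_true_eq]
    exact ⟨fun ⟨_, _, h⟩ => h, fun h => ⟨x.2, y.2, h⟩⟩
  cases u with
  | true =>
    refine h1 Q ⟨?_, hQc⟩
    intro x hx y hy hxy
    exact (hadj x y).1 (hpair x hx y hy hxy)
  | false =>
    refine h2 Q ⟨?_, hQc⟩
    intro x hx y hy hxy
    rw [SimpleGraph.compl_adj]
    refine ⟨hxy, fun h => ?_⟩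
    have h3 := hpair x hx y hy hxy
    rw [(hadj x y).2 h] at h3
    exact absurd h3 (by simp)

/-- numbers of vertices -/
def NN (M : ℕ) : ℕ → ℕ
  | 0 => 2 ^ M
  | s + 1 => 2 ^ NN M s

theorem NN_pos (M s : ℕ) : 1 ≤ NN M s := by
  cases s with
  | zero => exact Nat.one_le_two_pow
  | succ s => exact Nat.one_le_two_pow

theorem TB.mono {κ : Type} {c : Finset ℕ → κ} {R N : ℕ} {B B' : ℕ → ℕ} (h : TB c R N B)
    (hB : ∀ m, B m ≤ B' m) : TB c R N B' := by
  intro W hW
  obtain ⟨α, hα, code, h1, h2⟩ := h W hW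
  exact ⟨α, hα, code, h1.trans (hB _), h2⟩

open Pool.Agent.TH458.VC in
/-- The protocols. -/
theorem tower (s : ℕ) : ∃ K e : ℕ, 1 ≤ K ∧ ∀ (M k d : ℕ) (G : SimpleGraph (Fin M)), 1 ≤ M →
    2 ≤ k → VCle G d → G.CliqueFree k → Gᶜ.CliqueFree k →
    ∃ P : Protocol (Bool × Bool) (s + 2),
      (∃ n, 2 ≤ n ∧ n ≤ 2 ^ s * (k + 1 + s) ∧ ∀ S ⊆ range (NN M s), S.card = n → ¬ Hom P S) ∧
      TB (colour P (false, false)) (s + 2) (NN M s) (fun m => K * (m + 1) ^ e * Phi m d) := by
  induction s with
  | zero =>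
    refine ⟨((2 ^ nI 1) ^ nI 1 * Fintype.card Bool ^ (1 + 1)) * 2, 3 * (1 + 1) + 2 * nI 1 + 1, ?_, ?_⟩
    · have : 1 ≤ (2 ^ nI 1) ^ nI 1 * Fintype.card Bool ^ (1 + 1) :=
        Nat.mul_pos (by positivity) (by rw [Fintype.card_bool]; positivity)
      omega
    · intro M k d G hM hk hd h1 h2
      refine ⟨base (adjN G) M, ⟨k + 1, by omega, by omega, ?_⟩, ?_⟩
      · exact base_hom (adjN G) M M k Nat.lt_two_pow_self.le hk (graph_hom G h1 h2)
      · have h3 := trace_step (steps_base G (j := M) Nat.lt_two_pow_self.le) hM (B := fun m =>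
          (m + 1) * (Phi m d + 1)) (by
            intro m m' hmm
            have := Phi_mono hmm d
            simp only
            gcongr) (fun m => Nat.mul_pos (Nat.succ_pos _) (Nat.succ_pos _)) (tb_graph G hd)
        refine TB.mono h3 ?_
        intro m
        have h4 : Phi m d + 1 ≤ 2 * Phi m d := by
          have := Phi_pos m d
          omega
        calc (2 ^ nI 1) ^ nI 1 * Fintype.card Bool ^ (1 + 1) * (m + 1) ^ (3 * (1 + 1) + 2 * nI 1) *
              ((m + 1) * (Phi m d + 1))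
            ≤ (2 ^ nI 1) ^ nI 1 * Fintype.card Bool ^ (1 + 1) * (m + 1) ^ (3 * (1 + 1) + 2 * nI 1) *
              ((m + 1) * (2 * Phi m d)) := by gcongr
          _ = _ := by
            rw [pow_succ (m + 1)]
            generalize m + 1 = u
            ring
  | succ s ih =>
    obtain ⟨K, e, hK, ih⟩ := ih
    refine ⟨((2 ^ nI (s + 2)) ^ nI (s + 2) * Fintype.card (Bool × Bool) ^ (s + 2 + 1)) * K,
      3 * (s + 2 + 1) + 2 * nI (s + 2) + e, ?_, ?_⟩
    · refine Nat.mul_pos (Nat.mul_pos (by positivity) (pow_pos Fintype.card_pos _)) hK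
    · intro M k d G hM hk hd h1 h2
      obtain ⟨P, ⟨n, hn2, hn, hP⟩, hT⟩ := ih M k d G hM hk hd h1 h2
      refine ⟨P.step, ⟨2 * n + s, by omega, ?_, step_lower P (NN M s) n hn2 hP⟩, ?_⟩
      · have h1 : s ≤ 2 ^ s := Nat.lt_two_pow_self.le
        calc 2 * n + s ≤ 2 * (2 ^ s * (k + 1 + s)) + 2 ^ s := by omega
          _ ≤ 2 ^ (s + 1) * (k + 1 + (s + 1)) := by
            rw [pow_succ]
            nlinarith
      · have h3 := trace_step (steps_step P (NN M s)) (NN_pos M s) (B := fun m =>
          K * (m + 1) ^ e * Phi m d) (by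
            intro m m' hmm
            have := Phi_mono hmm d
            simp only
            gcongr) (fun m => Nat.mul_pos (Nat.mul_pos hK (by positivity)) (Phi_pos m d)) hT
        refine TB.mono h3 ?_
        intro m
        rw [pow_add (m + 1) (3 * (s + 2 + 1) + 2 * nI (s + 2)) e]
        apply le_of_eq
        ring

open Pool.Agent.TH458.VC in
theorem numeric_phi (K e : ℕ) (hK : 1 ≤ K) : ∃ C : ℕ, 1 ≤ C ∧ ∀ d m : ℕ, 1 ≤ d →
    2 ^ m ≤ K * (m + 1) ^ e * Phi m d → m ≤ C * d := by
  set A : ℝ := Real.log K + e * (Real.log 2 + 1) + 1 + (e + 1) * Real.log (4 * (e + 1)) with hA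
  obtain ⟨C, hC⟩ := exists_nat_gt (3 * A)
  refine ⟨C + 1, by omega, ?_⟩
  intro d m hd h
  by_contra hcon
  push Not at hcon
  have hdm : d ≤ m := by nlinarith
  have hd0 : (0 : ℝ) < d := by exact_mod_cast hd
  have hm0 : (0 : ℝ) < m := lt_of_lt_of_le hd0 (by exact_mod_cast hdm)
  have hm1 : (1 : ℝ) ≤ m := by
    have : 1 ≤ m := hd.trans hdm
    exact_mod_cast this
  have hK0 : (1 : ℝ) ≤ K := by exact_mod_cast hK
  have hP0 : (0 : ℝ) < Phi m d := by exact_mod_cast Phi_pos m d
  have h1 : ((2 : ℝ)) ^ m ≤ K * ((m : ℝ) + 1) ^ e * Phi m d := by exact_mod_cast h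
  have h2 := Real.log_le_log (by positivity) h1
  rw [Real.log_pow, Real.log_mul (by positivity) hP0.ne', Real.log_mul (by positivity) (by positivity),
    Real.log_pow] at h2
  have h3 := Pool.Agent.TH458.VCA2.logPhi m d hd hdm
  set l : ℝ := (m : ℝ) / d with hl
  have hl1 : 1 ≤ l := by
    rw [hl, le_div_iff₀ hd0, one_mul]
    exact_mod_cast hdm
  have hml : (m : ℝ) = l * d := by rw [hl]; field_simp
  have hlogd : Real.log d ≤ d := (Real.log_le_sub_one_of_pos hd0).trans (by linarith)
  have h4 : Real.log ((m : ℝ) + 1) ≤ Real.log 2 + Real.log l + d := by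
    calc Real.log ((m : ℝ) + 1) ≤ Real.log (2 * (l * d)) := by
          apply Real.log_le_log (by positivity)
          rw [← hml]
          linarith
      _ = Real.log 2 + (Real.log l + Real.log d) := by
          rw [Real.log_mul (by norm_num) (by positivity), Real.log_mul (by positivity) hd0.ne']
      _ ≤ _ := by linarith
  have hlogl : 0 ≤ Real.log l := Real.log_nonneg hl1
  have hlog2 : 0 < Real.log 2 := Real.log_pos (by norm_num)
  have hlog2' : (0.69 : ℝ) < Real.log 2 := by
    have := Real.log_two_gt_d9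
    linarith
  have hlogK : 0 ≤ Real.log K := Real.log_nonneg hK0
  have hd1 : (1 : ℝ) ≤ d := by exact_mod_cast hd
  have he0 : (0 : ℝ) ≤ e := Nat.cast_nonneg e
  -- divide by d
  have h5 : l * Real.log 2 ≤ (Real.log K + e * (Real.log 2 + 1) + 1) + (e + 1) * Real.log l := by
    have h6 : (l * d) * Real.log 2 ≤
        ((Real.log K + e * (Real.log 2 + 1) + 1) + (e + 1) * Real.log l) * d := by
      have h7 : (e : ℝ) * Real.log ((m : ℝ) + 1) ≤ e * (Real.log 2 + Real.log l + d) :=
        mul_le_mul_of_nonneg_left h4 he0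
      have h8 : Real.log K ≤ Real.log K * d := le_mul_of_one_le_right hlogK hd1
      have h9 : (e : ℝ) * (Real.log 2 + Real.log l) ≤ e * (Real.log 2 + Real.log l) * d :=
        le_mul_of_one_le_right (by positivity) hd1
      rw [← hml]
      nlinarith
    have h7 : (l * Real.log 2) * d ≤
        ((Real.log K + e * (Real.log 2 + 1) + 1) + (e + 1) * Real.log l) * d := by linarith
    exact le_of_mul_le_mul_right h7 hd0
  have h6 : (e + 1) * Real.log l ≤ l / 4 + (e + 1) * Real.log (4 * (e + 1)) := by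
    have h7 : Real.log (l / (4 * (e + 1))) ≤ l / (4 * (e + 1)) :=
      (Real.log_le_sub_one_of_pos (by positivity)).trans (by linarith)
    rw [Real.log_div (by positivity) (by positivity)] at h7
    have h8 : ((e : ℝ) + 1) * (l / (4 * (e + 1))) = l / 4 := by field_simp
    have h9 : ((e : ℝ) + 1) * (Real.log l - Real.log (4 * (e + 1))) ≤
        (e + 1) * (l / (4 * (e + 1))) := mul_le_mul_of_nonneg_left h7 (by positivity)
    rw [h8] at h9
    linarith
  have h7 : l * (0.44 : ℝ) ≤ A := by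
    rw [hA]
    nlinarith
  have h8 : l < C := by linarith
  have h9 : (m : ℝ) < C * d := by
    rw [hml]
    exact mul_lt_mul_of_pos_right h8 hd0
  have h10 : m < C * d := by exact_mod_cast h9
  nlinarith

theorem tow_two (k : ℕ) (x : ℝ) : tow (k + 1) x = tow k (2 ^ x) := by
  induction k with
  | zero => rfl
  | succ k ih =>
    show (2 : ℝ) ^ tow (k + 1) x = 2 ^ tow k (2 ^ x)
    rw [ih]

theorem NN_tow (M s : ℕ) : (NN M s : ℝ) = tow (s + 1) M := by
  induction s with
  | zero =>
    simp only [NN, tow]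
    push_cast
    rw [Real.rpow_natCast]
  | succ s ih =>
    change ((2 ^ NN M s : ℕ) : ℝ) = 2 ^ tow (s + 1) M
    rw [← ih]
    push_cast
    rw [Real.rpow_natCast]

open Pool.Agent.TH458.VC in
/-- **Four colours.** -/
theorem four (s : ℕ) : ∃ C : ℕ, 1 ≤ C ∧ ∀ d n : ℕ, C ≤ d → C * d ≤ n →
    ∃ (N : ℕ) (c : Finset ℕ → Bool × Bool),
      tow (s + 2) (1 / C * (d * Real.logb 2 ((n : ℝ) / d))) ≤ N ∧
      (∀ H ⊆ range N, H.card = n → ¬ Homogeneous (s + 3) c H) ∧
      ∀ (a : Bool × Bool) (Z : Finset ℕ), Z ⊆ range N →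
        Shattered (fun A => decide (c A = a)) {A | A ⊆ range N ∧ A.card = s + 2} Z →
          Z.card ≤ d := by
  classical
  obtain ⟨K, e, hK, htower⟩ := tower s
  obtain ⟨C1, hC1, hnum⟩ := numeric_phi K e hK
  refine ⟨131072 * 4 ^ (s + 1) * C1, Nat.mul_pos (by positivity) hC1, ?_⟩
  intro d n hd hn
  set q := 4 ^ (s + 1) with hq
  have hq1 : 1 ≤ q := Nat.one_le_pow _ _ (by norm_num)
  have hqC : 1 ≤ q * C1 := Nat.mul_pos hq1 hC1
  set d0 := d / C1 with hd0
  have hd0C : d0 * C1 ≤ d := Nat.div_mul_le_self d C1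
  have hd0C' : d < (d0 + 1) * C1 := by
    rw [hd0, add_mul, one_mul]
    exact Nat.lt_div_mul_add hC1
  have hCd : 131072 * (q * C1) ≤ d := by
    calc 131072 * (q * C1) = 131072 * q * C1 := by ring
      _ ≤ d := hd
  have hd010 : 10 ≤ d0 := by
    rw [hd0, Nat.le_div_iff_mul_le hC1]
    nlinarith
  have hd0d : d0 ≤ d := Nat.div_le_self _ _
  set k := n / 2 ^ s - (s + 1) with hk
  have hp : 0 < 2 ^ s := by positivity
  have h2s : (2 ^ (s + 1)) * (2 ^ (s + 1)) = q := by
    rw [hq, ← mul_pow]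
    norm_num
  have hs2 : s + 2 ≤ 2 ^ (s + 1) := Nat.lt_two_pow_self
  have hnd : 131072 * (q * C1) * d ≤ n := by
    calc 131072 * (q * C1) * d = 131072 * q * C1 * d := by ring
      _ ≤ n := hn
  have hdq : q ≤ d := by nlinarith
  have hnq : 65536 * (2 ^ (s + 1) * d) * 2 ^ (s + 1) ≤ n := by
    calc 65536 * (2 ^ (s + 1) * d) * 2 ^ (s + 1) = 65536 * (2 ^ (s + 1) * 2 ^ (s + 1)) * d := by ring
      _ = 65536 * q * d := by rw [h2s]
      _ ≤ 131072 * (q * C1) * d := by
          apply Nat.mul_le_mul_right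
          nlinarith
      _ ≤ n := hnd
  have hdiv : 2 * (65536 * (2 ^ (s + 1) * d)) ≤ n / 2 ^ s := by
    rw [Nat.le_div_iff_mul_le hp]
    calc 2 * (65536 * (2 ^ (s + 1) * d)) * 2 ^ s = 65536 * (2 ^ (s + 1) * d) * 2 ^ (s + 1) := by
          rw [pow_succ]; ring
      _ ≤ n := hnq
  have hkn : 2 ^ s * (k + 1 + s) ≤ n := by
    have h1 : k + 1 + s ≤ n / 2 ^ s := by
      have h2 : s + 2 ≤ 2 ^ (s + 1) * d := by nlinarith
      omega
    calc 2 ^ s * (k + 1 + s) ≤ 2 ^ s * (n / 2 ^ s) := Nat.mul_le_mul_left _ h1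
      _ ≤ n := Nat.mul_div_le n (2 ^ s)
  have hk1 : 65536 * (2 ^ (s + 1) * d) ≤ k := by
    have h2 : s + 2 ≤ 2 ^ (s + 1) * d := by nlinarith
    omega
  have hkd : 65536 * d0 ≤ k := by
    have h2 : 1 ≤ 2 ^ (s + 1) := Nat.one_le_two_pow
    have h3 : d0 ≤ 2 ^ (s + 1) * d := by nlinarith
    omega
  have hk2 : n ≤ 2 ^ (s + 1) * k := by
    have h3 : n < 2 ^ s * (n / 2 ^ s) + 2 ^ s := Nat.lt_mul_div_succ n hp |>.trans_le (by
      rw [Nat.mul_add, mul_one])
    have h4 : n / 2 ^ s ≤ k + (s + 1) := by omega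
    have h5 : s + 2 ≤ k := by
      have h2 : s + 2 ≤ 2 ^ (s + 1) * d := by nlinarith
      omega
    calc n ≤ 2 ^ s * (n / 2 ^ s) + 2 ^ s := h3.le
      _ ≤ 2 ^ s * (k + (s + 1)) + 2 ^ s := by
          apply Nat.add_le_add_right
          exact Nat.mul_le_mul_left _ h4
      _ = 2 ^ s * (k + (s + 2)) := by ring
      _ ≤ 2 ^ s * (k + k) := Nat.mul_le_mul_left _ (by omega)
      _ = 2 ^ (s + 1) * k := by rw [pow_succ]; ring
  obtain ⟨M, G, g1, g2, g3, g4⟩ := lower d0 k hd010 hkd
  have hd0r : (0 : ℝ) < d0 := by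
    have : 0 < d0 := by omega
    exact_mod_cast this
  have hdr : (0 : ℝ) < d := by
    have : 0 < d := by omega
    exact_mod_cast this
  have hkr : (0 : ℝ) < k := by
    have : 0 < k := by omega
    exact_mod_cast this
  have hnr : (0 : ℝ) < n := by
    have : 0 < n := by nlinarith
    exact_mod_cast this
  have hC1r : (1 : ℝ) ≤ C1 := by exact_mod_cast hC1
  have hqr : (1 : ℝ) ≤ q := by exact_mod_cast hq1
  have hlogpos : 0 < Real.log ((k : ℝ) / d0) := by
    apply Real.log_pos
    rw [lt_div_iff₀ hd0r]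
    have : (65536 : ℝ) * d0 ≤ k := by exact_mod_cast hkd
    linarith
  have hlogM : 0 < Real.log M := lt_of_lt_of_le (by positivity) g4
  have hM : 1 ≤ M := by
    rcases Nat.eq_zero_or_pos M with h | h
    · rw [h] at hlogM
      simp at hlogM
    · exact h
  have hMr : (0 : ℝ) < M := by exact_mod_cast hM
  obtain ⟨P, ⟨n', hn2, hn', hP⟩, hT⟩ := htower M k d0 G hM (by omega) g3 g1 g2
  refine ⟨NN M s, colour P (false, false), ?_, ?_, ?_⟩
  · rw [NN_tow, tow_two]
    apply tow_mono
    rw [← Real.le_logb_iff_rpow_le (by norm_num) hMr, Real.logb, Real.logb]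
    have hlog2 : 0 < Real.log 2 := Real.log_pos (by norm_num)
    rw [show 1 / ((131072 * q * C1 : ℕ) : ℝ) * (d * (Real.log ((n : ℝ) / d) / Real.log 2)) =
      (1 / ((131072 * q * C1 : ℕ) : ℝ) * (d * Real.log ((n : ℝ) / d))) / Real.log 2 by ring]
    apply div_le_div_of_nonneg_right _ hlog2.le
    refine le_trans ?_ g4
    -- logarithms
    have h1 : Real.log ((n : ℝ) / d) ≤ 2 * Real.log ((k : ℝ) / d0) := by
      have h2 : (n : ℝ) / d ≤ ((k : ℝ) / d0) ^ 2 := by
        have h3 : (n : ℝ) ≤ 2 ^ (s + 1) * k := by exact_mod_cast hk2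
        have h4 : ((2 : ℝ) ^ (s + 1)) * d ≤ k := by
          have : (2 ^ (s + 1)) * d ≤ k := by omega
          exact_mod_cast this
        have h5 : (d0 : ℝ) ≤ d := by exact_mod_cast hd0d
        rw [div_le_iff₀ hdr, div_pow, div_mul_eq_mul_div, le_div_iff₀ (by positivity)]
        calc (n : ℝ) * (d0 : ℝ) ^ 2 ≤ (2 ^ (s + 1) * k) * (d * d) := by
              apply mul_le_mul h3 _ (by positivity) (by positivity)
              rw [sq]
              exact mul_le_mul h5 h5 hd0r.le hdr.le
          _ = (2 ^ (s + 1) * d) * (k * d) := by ring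
          _ ≤ k * (k * d) := mul_le_mul_of_nonneg_right h4 (by positivity)
          _ = (k : ℝ) ^ 2 * d := by ring
      calc Real.log ((n : ℝ) / d) ≤ Real.log (((k : ℝ) / d0) ^ 2) :=
            Real.log_le_log (by positivity) h2
        _ = 2 * Real.log ((k : ℝ) / d0) := by rw [Real.log_pow]; norm_num
    have h2 : (d : ℝ) ≤ 2 * C1 * d0 := by
      have h3 : (d : ℝ) < (d0 + 1) * C1 := by exact_mod_cast hd0C'
      have h4 : (1 : ℝ) ≤ d0 := by
        have : 1 ≤ d0 := by omega
        exact_mod_cast this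
      nlinarith
    have h3 : 1 / ((131072 * q * C1 : ℕ) : ℝ) ≤ 1 / (128 * C1) := by
      apply one_div_le_one_div_of_le (by positivity)
      push_cast
      nlinarith
    calc 1 / ((131072 * q * C1 : ℕ) : ℝ) * (d * Real.log ((n : ℝ) / d))
        ≤ 1 / (128 * C1) * ((2 * C1 * d0) * (2 * Real.log ((k : ℝ) / d0))) := by
          apply mul_le_mul h3 _ _ (by positivity)
          · calc (d : ℝ) * Real.log ((n : ℝ) / d) ≤ d * (2 * Real.log ((k : ℝ) / d0)) :=
                  mul_le_mul_of_nonneg_left h1 hdr.le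
              _ ≤ _ := mul_le_mul_of_nonneg_right h2 (by positivity)
          · apply mul_nonneg hdr.le
            apply Real.log_nonneg
            rw [le_div_iff₀ hdr, one_mul]
            have : d ≤ n := by nlinarith
            exact_mod_cast this
      _ = (d0 : ℝ) / 32 * Real.log ((k : ℝ) / d0) := by
          field_simp
          ring
  · intro H hH hc hh
    obtain ⟨T, hTH, hTc⟩ := exists_subset_card_eq (s := H) (n := n') (by omega)
    refine hP T (hTH.trans hH) hTc (hom_of_homogeneous (computes_colour P (false, false) (NN M s))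
      (hTH.trans hH) ?_)
    intro A hA B hB
    exact hh A (hA.trans hTH) B (hB.trans hTH)
  · intro a Z hZ hsh
    have h1 := shattered_card hT a hZ hsh
    have h2 := hnum d0 Z.card (by omega) h1
    calc Z.card ≤ C1 * d0 := h2
      _ = d0 * C1 := mul_comm _ _
      _ ≤ d := hd0C

end Pool.Agent.Y424.LK
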