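import Pool.Agent.Y424.LK.Code
import Pool.Agent.TH458.VC.Pick

/-!
# Stepping up: the steps of the library, and the first step
-/

set_option autoImplicit false

namespace Pool.Agent.Y424.LK

open Finset Pool.Agent.TH138.NF

theorem mono_of_parts {t : ℕ} {X : Fin (t + 4) → ℕ}
    (h1 : StrictMono (D ((Fin.last (t + 3)).removeNth X)))
    (h2 : StrictMono (D ((0 : Fin (t + 4)).removeNth X))) : StrictMono (D X) := by
  rw [Fin.strictMono_iff_lt_succ]
  intro i
  rcases Fin.eq_zero_or_eq_succ i with rfl | ⟨j, rfl⟩
  · have h := h1 (a := 0) (b := 1) (by rw [Fin.lt_def]; simp)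
    rw [D_init, D_init] at h
    exact h
  · have h := h2 (a := j.castSucc) (b := j.succ) (Fin.castSucc_lt_succ)
    rw [D_tail, D_tail] at h
    rw [← Fin.succ_castSucc] 
    exact h

theorem anti_of_parts {t : ℕ} {X : Fin (t + 4) → ℕ}
    (h1 : StrictAnti (D ((Fin.last (t + 3)).removeNth X)))
    (h2 : StrictAnti (D ((0 : Fin (t + 4)).removeNth X))) : StrictAnti (D X) := by
  rw [Fin.strictAnti_iff_succ_lt]
  intro i
  rcases Fin.eq_zero_or_eq_succ i with rfl | ⟨j, rfl⟩
  · have h := h1 (a := 0) (b := 1) (by rw [Fin.lt_def]; simp)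
    rw [D_init, D_init] at h
    exact h
  · have h := h2 (a := j.castSucc) (b := j.succ) (Fin.castSucc_lt_succ)
    rw [D_tail, D_tail] at h
    rw [← Fin.succ_castSucc]
    exact h

theorem image_rev {n : ℕ} (d : Fin n → ℕ) : univ.image (fun i : Fin n => d i.rev) = univ.image d := by
  ext y
  simp only [mem_image, mem_univ, true_and]
  constructor
  · rintro ⟨i, rfl⟩
    exact ⟨i.rev, rfl⟩
  · rintro ⟨i, rfl⟩
    exact ⟨i.rev, by rw [Fin.rev_rev]⟩

/-- The steps of the library. -/
theorem steps_step {t : ℕ} (P : Protocol (Bool × Bool) (t + 2)) (N : ℕ) :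
    Steps (colour P (false, false)) (colour P.step (false, false)) (t + 2) N := by
  intro X X' hX hX' hb hb' hpat hmon
  rw [← computes_colour P.step (false, false) (2 ^ N) X hX hb,
    ← computes_colour P.step (false, false) (2 ^ N) X' hX' hb']
  have hDb : ∀ Y : Fin (t + 4) → ℕ, StrictMono Y → (∀ i, Y i < 2 ^ N) → ∀ i, D Y i < N :=
    fun Y hY hYb i => hd_lt (hY (Fin.castSucc_lt_succ)) (hYb _)
  by_cases h1 : StrictMono (D X)
  · have h1' := hpat.mono h1
    rw [run_inc P X hX h1, run_inc P X' hX' h1',
      computes_colour P (false, false) N (D X) h1 (hDb X hX hb),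
      computes_colour P (false, false) N (D X') h1' (hDb X' hX' hb')]
    exact hmon (Or.inl h1)
  · by_cases h2 : StrictAnti (D X)
    · have h2' := hpat.anti h2
      rw [run_dec P X hX h2, run_dec P X' hX' h2',
        computes_colour P (false, false) N _ (fun i j hij => h2 (Fin.rev_lt_rev.2 hij))
          (fun i => hDb X hX hb _),
        computes_colour P (false, false) N _ (fun i j hij => h2' (Fin.rev_lt_rev.2 hij))
          (fun i => hDb X' hX' hb' _), image_rev, image_rev]
      exact hmon (Or.inr h2)
    · have h1' : ¬ StrictMono (D X') := fun h => h1 (hpat.symm.mono h)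
      have h2' : ¬ StrictAnti (D X') := fun h => h2 (hpat.symm.anti h)
      rw [run_loc P X (fun h => h1 (mono_of_parts h.1 h.2)) (fun h => h2 (anti_of_parts h.1 h.2)),
        run_loc P X' (fun h => h1' (mono_of_parts h.1 h.2))
          (fun h => h2' (anti_of_parts h.1 h.2))]
      simp only [loc, Protocol.run, D_init, D_tail]
      simp only [hpat _ _]

/-! ### graphs -/

/-- the graph as a function on pairs of numbers -/
noncomputable def adjN {M : ℕ} (G : SimpleGraph (Fin M)) (a b : ℕ) : Bool :=
  open Classical in decide (∃ (ha : a < M) (hb : b < M), G.Adj ⟨a, ha⟩ ⟨b, hb⟩)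

/-- the graph as a colouring of pairs -/
noncomputable def colG {M : ℕ} (G : SimpleGraph (Fin M)) (S : Finset ℕ) : Bool :=
  open Classical in decide (∃ a ∈ S, ∃ b ∈ S, adjN G a b = true)

theorem adjN_comm {M : ℕ} (G : SimpleGraph (Fin M)) (a b : ℕ) : adjN G a b = adjN G b a := by
  classical
  unfold adjN
  congr 1
  apply propext
  constructor
  · rintro ⟨h1, h2, h3⟩
    exact ⟨h2, h1, h3.symm⟩
  · rintro ⟨h1, h2, h3⟩
    exact ⟨h2, h1, h3.symm⟩

theorem adjN_self {M : ℕ} (G : SimpleGraph (Fin M)) (a : ℕ) : adjN G a a = false := by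
  classical
  unfold adjN
  rw [decide_eq_false_iff_not]
  rintro ⟨h1, h2, h3⟩
  exact h3.ne rfl

theorem colG_pair {M : ℕ} (G : SimpleGraph (Fin M)) (a b : ℕ) : colG G {a, b} = adjN G a b := by
  classical
  unfold colG
  rw [Bool.eq_iff_iff, decide_eq_true_eq]
  constructor
  · rintro ⟨x, hx, y, hy, h⟩
    simp only [mem_insert, mem_singleton] at hx hy
    rcases hx with rfl | rfl <;> rcases hy with rfl | rfl
    · rw [adjN_self] at h
      exact absurd h (by simp)
    · exact h
    · rw [adjN_comm]
      exact h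
    · rw [adjN_self] at h
      exact absurd h (by simp)
  · intro h
    exact ⟨a, by simp, b, by simp, h⟩

theorem Phi_ge_one (m d : ℕ) : 1 ≤ Pool.Agent.TH458.VC.Phi m d :=
  Pool.Agent.TH458.VC.Phi_pos m d

theorem tb_graph {M d : ℕ} (G : SimpleGraph (Fin M)) (hd : Pool.Agent.TH458.VC.VCle G d) :
    TB (colG G) 1 M (fun m => (m + 1) * (Pool.Agent.TH458.VC.Phi m d + 1)) := by
  classical
  intro W hW
  set S1 : Finset (Finset ℕ) := insert ∅ (W.image (fun x => {x})) with hS1
  set S2 : Finset (Finset ℕ) := insert ∅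
    ((univ : Finset (Fin M)).image (fun v : Fin M => W.filter (fun x => adjN G x (v : ℕ) = true)))
    with hS2
  set tr : Finset ℕ → Finset ℕ := fun A => W.filter (fun x => colG G (insert x A) = true ∧ x ∉ A)
    with htr
  set c1 : Finset ℕ → {S // S ∈ S1} := fun A => if h : W ∩ A ∈ S1 then ⟨W ∩ A, h⟩ else
    ⟨∅, mem_insert_self _ _⟩ with hc1
  set c2 : Finset ℕ → {S // S ∈ S2} := fun A => if h : tr A ∈ S2 then ⟨tr A, h⟩ else
    ⟨∅, mem_insert_self _ _⟩ with hc2
  refine ⟨{S // S ∈ S1} × {S // S ∈ S2}, inferInstance, fun A => (c1 A, c2 A), ?_, ?_⟩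
  · rw [Fintype.card_prod, Fintype.card_coe, Fintype.card_coe]
    apply Nat.mul_le_mul
    · exact (card_insert_le _ _).trans (Nat.succ_le_succ card_image_le)
    · refine (card_insert_le _ _).trans (Nat.succ_le_succ ?_)
      -- transfer to subsets of `Fin M`
      set Y : Finset (Fin M) := univ.filter (fun v => (v : ℕ) ∈ W) with hY
      have hYc : Y.card = W.card := by
        have : W = Y.image Fin.val := by
          ext x
          simp only [hY, mem_image, mem_filter, mem_univ, true_and]
          constructor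
          · intro hx
            exact ⟨⟨x, mem_range.1 (hW hx)⟩, hx, rfl⟩
          · rintro ⟨v, hv, rfl⟩
            exact hv
        rw [this, card_image_of_injective _ Fin.val_injective]
      have h1 := Pool.Agent.TH458.VC.trace_adj G hd Y (univ : Finset (Fin M))
      rw [hYc] at h1
      refine le_trans ?_ h1
      have h2 : (univ : Finset (Fin M)).image
          (fun v : Fin M => W.filter (fun x => adjN G x (v : ℕ) = true)) ⊆
          ((univ : Finset (Fin M)).image (fun y => Y.filter (fun z => G.Adj z y))).image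
            (fun T => T.image Fin.val) := by
        intro T hT
        obtain ⟨v, -, rfl⟩ := mem_image.1 hT
        rw [mem_image]
        refine ⟨Y.filter (fun z => G.Adj z v), mem_image_of_mem _ (mem_univ _), ?_⟩
        ext x
        simp only [mem_image, mem_filter, hY, mem_univ, true_and]
        constructor
        · rintro ⟨z, ⟨hz1, hz2⟩, rfl⟩
          refine ⟨hz1, ?_⟩
          unfold adjN
          rw [decide_eq_true_eq]
          exact ⟨z.2, v.2, hz2⟩
        · rintro ⟨hx1, hx2⟩
          unfold adjN at hx2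
          rw [decide_eq_true_eq] at hx2
          obtain ⟨ha, hb, h3⟩ := hx2
          exact ⟨⟨x, ha⟩, ⟨hx1, h3⟩, rfl⟩
      refine ((card_le_card h2).trans card_image_le).trans (le_of_eq ?_)
      have key : ∀ (i1 i2 : DecidableEq (Finset (Fin M))) (f : Fin M → Finset (Fin M)),
          (@Finset.image _ _ i1 f univ).card = (@Finset.image _ _ i2 f univ).card := by
        intro i1 i2 f
        rw [Subsingleton.elim i1 i2]
      exact key _ _ _
  · intro A A' hA hA' hAc hAc' heq x hx
    obtain ⟨v, rfl⟩ := card_eq_one.1 hAc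
    obtain ⟨v', rfl⟩ := card_eq_one.1 hAc'
    have hv : v < M := mem_range.1 (hA (mem_singleton_self v))
    have hv' : v' < M := mem_range.1 (hA' (mem_singleton_self v'))
    simp only [Prod.mk.injEq] at heq
    obtain ⟨q1, q2⟩ := heq
    have m1 : ∀ u : ℕ, W ∩ {u} ∈ S1 := by
      intro u
      by_cases hu : u ∈ W
      · rw [inter_singleton_of_mem hu]
        exact mem_insert_of_mem (mem_image_of_mem (fun x => ({x} : Finset ℕ)) hu)
      · rw [inter_singleton_of_notMem hu]
        exact mem_insert_self _ _
    have trEq : ∀ u : ℕ, tr {u} = W.filter (fun x => adjN G x u = true) := by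
      intro u
      simp only [htr]
      apply filter_congr
      intro y _
      rw [colG_pair, mem_singleton]
      constructor
      · exact fun h => h.1
      · intro h
        refine ⟨h, fun e => ?_⟩
        rw [e, adjN_self] at h
        exact absurd h (by simp)
    have m2 : ∀ u : ℕ, u < M → tr {u} ∈ S2 := by
      intro u hu
      rw [trEq]
      apply mem_insert_of_mem
      rw [mem_image]
      exact ⟨⟨u, hu⟩, mem_univ _, rfl⟩
    have q1' : W ∩ {v} = W ∩ {v'} := by
      simp only [hc1] at q1
      rw [dif_pos (m1 v), dif_pos (m1 v')] at q1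
      exact congrArg Subtype.val q1
    have q2' : tr {v} = tr {v'} := by
      simp only [hc2] at q2
      rw [dif_pos (m2 v hv), dif_pos (m2 v' hv')] at q2
      exact congrArg Subtype.val q2
    have hiff : x ∈ ({v} : Finset ℕ) ↔ x ∈ ({v'} : Finset ℕ) := by
      have h1 : x ∈ W ∩ {v} ↔ x ∈ W ∩ {v'} := by rw [q1']
      rw [mem_inter, mem_inter] at h1
      simpa [hx] using h1
    refine ⟨hiff, fun hxv => ?_⟩
    have hxv' : x ∉ ({v'} : Finset ℕ) := fun h => hxv (hiff.2 h)
    have h1 : x ∈ tr {v} ↔ x ∈ tr {v'} := by rw [q2']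
    simp only [htr, mem_filter] at h1
    rw [Bool.eq_iff_iff]
    constructor
    · intro h
      exact (h1.1 ⟨hx, h, hxv⟩).2.1
    · intro h
      exact (h1.2 ⟨hx, h, hxv'⟩).2.1

/-- The first step, from pairs to triples. -/
theorem steps_base {M j : ℕ} (G : SimpleGraph (Fin M)) (hM : M ≤ 2 ^ j) :
    Steps (colG G) (colour (base (adjN G) j) (false, false)) 1 M := by
  intro X X' hX hX' hb hb' hpat hmon
  have hpow : 2 ^ M ≤ 2 ^ 2 ^ j := Nat.pow_le_pow_right (by norm_num) hM
  have hb1 : ∀ i, X i < 2 ^ 2 ^ j := fun i => (hb i).trans_le hpow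
  have hb2 : ∀ i, X' i < 2 ^ 2 ^ j := fun i => (hb' i).trans_le hpow
  rw [← computes_colour (base (adjN G) j) (false, false) (2 ^ 2 ^ j) X hX hb1,
    ← computes_colour (base (adjN G) j) (false, false) (2 ^ 2 ^ j) X' hX' hb2,
    run_base (adjN G) j X hX hb1, run_base (adjN G) j X' hX' hb2]
  have him : ∀ d : Fin 2 → ℕ, univ.image d = {d 0, d 1} := by
    intro d
    ext y
    simp only [mem_image, mem_univ, true_and, mem_insert, mem_singleton]
    constructor
    · rintro ⟨i, rfl⟩
      fin_cases i <;> simp
    · rintro (rfl | rfl)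
      · exact ⟨0, rfl⟩
      · exact ⟨1, rfl⟩
  have hmm : ∀ a b : ℕ, adjN G (min a b) (max a b) = adjN G a b := by
    intro a b
    rcases le_total a b with h | h
    · rw [min_eq_left h, max_eq_right h]
    · rw [min_eq_right h, max_eq_left h, adjN_comm]
  have hne : D X 0 ≠ D X 1 := by
    have := hd_ne (hX (show (0 : Fin 3) < 1 by simp)) (hX (show (1 : Fin 3) < 2 by
      simp))
    exact this
  have hcases : StrictMono (D X) ∨ StrictAnti (D X) := by
    rcases lt_or_gt_of_ne hne with h | h
    · left
      rw [Fin.strictMono_iff_lt_succ]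
      intro i
      fin_cases i
      exact h
    · right
      rw [Fin.strictAnti_iff_succ_lt]
      intro i
      fin_cases i
      exact h
  have h1 := hmon hcases
  rw [him, him, colG_pair, colG_pair] at h1
  rw [hmm, hmm, h1]
  congr 1
  simp only [decide_eq_decide]
  exact hpat 0 1

end Pool.Agent.Y424.LK
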