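import Pool.Agent.Y424.LK.Step

/-!
# Stepping up and traces of neighbourhoods: counting
-/

set_option autoImplicit false

namespace Pool.Agent.Y424.LK

open Finset Pool.Agent.TH138.NF

/-- the number of values attached to a tuple -/
def nI (R : ℕ) : ℕ := (R + 1) * (R + 1) + (R + 1)

theorem trace_step {κ κ' : Type} [Fintype κ] {c : Finset ℕ → κ} {c' : Finset ℕ → κ'} {R N : ℕ}
    (hS : Steps c c' R N) (hN : 1 ≤ N) {B : ℕ → ℕ} (hB : Monotone B) (hB1 : ∀ m, 1 ≤ B m)
    (hT : TB c R N B) :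
    TB c' (R + 1) (2 ^ N) (fun m => ((2 ^ nI R) ^ nI R * Fintype.card κ ^ (R + 1)) *
      (m + 1) ^ (3 * (R + 1) + 2 * nI R) * B m) := by
  classical
  intro Z hZ
  have hκ : 1 ≤ Fintype.card κ := Fintype.card_pos_iff.2 ⟨c ∅⟩
  rcases Z.eq_empty_or_nonempty with hne | hne
  · refine ⟨Unit, inferInstance, fun _ => (), ?_, ?_⟩
    · rw [Fintype.card_unit]
      have h1 : 1 ≤ (2 ^ nI R) ^ nI R * Fintype.card κ ^ (R + 1) :=
        Nat.mul_pos (by positivity) (pow_pos (by omega) _)
      have h2 : 1 ≤ (Z.card + 1) ^ (3 * (R + 1) + 2 * nI R) := Nat.one_le_pow _ _ (by omega)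
      exact Nat.mul_pos (Nat.mul_pos h1 h2) (hB1 _)
    · intro A A' _ _ _ _ _ x hx
      rw [hne] at hx
      exact absurd hx (notMem_empty x)
  · choose g hg hgm using exists_near hne
    obtain ⟨α, hα, code, hcard, hcode⟩ := hT (HZ Z) (HZ_sub hN hZ)
    have hm1 : ∀ v : ℕ, (Z.filter (fun y => y < v)).card < Z.card + 1 := fun v =>
      Nat.lt_succ_of_le (card_le_card (filter_subset _ _))
    have hm2 : ∀ v : ℕ, (Z.filter (fun y => y ≤ v)).card < Z.card + 1 := fun v =>
      Nat.lt_succ_of_le (card_le_card (filter_subset _ _))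
    have hm3 : ∀ v : ℕ, ((HZ Z).filter (fun y => y < v)).card < Z.card + 1 := fun v =>
      Nat.lt_succ_of_le ((card_le_card (filter_subset _ _)).trans (HZ_card Z))
    have hm4 : ∀ v : ℕ, ((HZ Z).filter (fun y => y ≤ v)).card < Z.card + 1 := fun v =>
      Nat.lt_succ_of_le ((card_le_card (filter_subset _ _)).trans (HZ_card Z))
    refine ⟨(Fin (R + 1) → {z // z ∈ Z}) × (Fin (R + 1) → Fin (Z.card + 1) × Fin (Z.card + 1)) ×
      (Idx R → Fin (Z.card + 1) × Fin (Z.card + 1)) × (Idx R → Idx R → Bool) ×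
      (Fin (R + 1) → κ) × α, inferInstance,
      fun A => (fun i => ⟨g (srt (R + 1) A i), hg _⟩,
        fun i => (⟨_, hm1 (srt (R + 1) A i)⟩, ⟨_, hm2 (srt (R + 1) A i)⟩),
        fun w => (⟨_, hm3 (vals g (srt (R + 1) A) w)⟩, ⟨_, hm4 (vals g (srt (R + 1) A) w)⟩),
        fun w w' => decide (vals g (srt (R + 1) A) w < vals g (srt (R + 1) A) w'),
        fun i => c (insert (vals g (srt (R + 1) A) (Sum.inr i)) (univ.image (D (srt (R + 1) A)))),
        code (univ.image (D (srt (R + 1) A)))), ?_, ?_⟩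
    · simp only [Fintype.card_prod, Fintype.card_fun, Fintype.card_fin, Fintype.card_sum,
        Fintype.card_bool, Fintype.card_coe]
      set m := Z.card with hm
      have hI : (R + 1) * (R + 1) + (R + 1) = nI R := rfl
      rw [hI]
      have h1 : m ^ (R + 1) ≤ (m + 1) ^ (R + 1) := Nat.pow_le_pow_left (Nat.le_succ m) _
      have h2 : Fintype.card α ≤ B m := hcard.trans (hB (HZ_card Z))
      calc m ^ (R + 1) * (((m + 1) * (m + 1)) ^ (R + 1) * (((m + 1) * (m + 1)) ^ nI R *
            ((2 ^ nI R) ^ nI R * (Fintype.card κ ^ (R + 1) * Fintype.card α))))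
          ≤ (m + 1) ^ (R + 1) * (((m + 1) * (m + 1)) ^ (R + 1) * (((m + 1) * (m + 1)) ^ nI R *
            ((2 ^ nI R) ^ nI R * (Fintype.card κ ^ (R + 1) * B m)))) := by gcongr
        _ = ((2 ^ nI R) ^ nI R * Fintype.card κ ^ (R + 1)) *
            (m + 1) ^ (3 * (R + 1) + 2 * nI R) * B m := by
          generalize m + 1 = u
          ring
    · intro A A' hA hA' hc hc' heq x hx
      simp only [Prod.mk.injEq] at heq
      obtain ⟨q1, q2, q3, q4, q5, q6⟩ := heq
      refine same_trace hS hZ hg hgm hA hA' hc hc' rfl rfl ?_ ?_ ?_ ?_ ?_ ?_ ?_ ?_ hx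
      · intro i
        have := congrFun q1 i
        simpa using this
      · intro i
        have := congrFun q2 i
        simp only [Prod.mk.injEq, Fin.mk.injEq] at this
        exact this.1
      · intro i
        have := congrFun q2 i
        simp only [Prod.mk.injEq, Fin.mk.injEq] at this
        exact this.2
      · intro w
        have := congrFun q3 w
        simp only [Prod.mk.injEq, Fin.mk.injEq] at this
        exact this.1
      · intro w
        have := congrFun q3 w
        simp only [Prod.mk.injEq, Fin.mk.injEq] at this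
        exact this.2
      · intro w w'
        have := congrFun (congrFun q4 w) w'
        simpa using this
      · intro i
        exact congrFun q5 i
      · intro h hh h1 h2 h3 h4 h5
        exact (hcode _ _ h1 h2 h3 h4 q6 h hh).2 h5

/-! ### Shattered sets -/

theorem shattered_card {κ : Type} [DecidableEq κ] {c : Finset ℕ → κ} {R N : ℕ} {B : ℕ → ℕ}
    (hT : TB c R N B) (a : κ) {Z : Finset ℕ} (hZ : Z ⊆ range N)
    (h : Shattered (fun A => decide (c A = a)) {A | A ⊆ range N ∧ A.card = R} Z) :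
    2 ^ Z.card ≤ B Z.card := by
  classical
  obtain ⟨α, hα, code, hcard, hcode⟩ := hT Z hZ
  refine le_trans ?_ hcard
  have h' : ∀ T : Finset ℕ, ∃ A : Finset ℕ, T ⊆ Z → A ⊆ range N ∧ A.card = R ∧
      ∀ x ∈ Z, ((x ∉ A ∧ c (insert x A) = a) ↔ x ∈ T) := by
    intro T
    by_cases hT : T ⊆ Z
    · obtain ⟨A, hA, hA2⟩ := h T hT
      refine ⟨A, fun _ => ⟨hA.1, hA.2, fun x hx => ?_⟩⟩
      rw [← hA2 x hx, decide_eq_true_eq]
    · exact ⟨∅, fun hc => absurd hc hT⟩
  choose A hA using h'
  rw [← card_powerset, ← card_univ (α := α)]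
  apply card_le_card_of_injOn (fun T => code (A T))
  · intro T _
    exact mem_coe.2 (mem_univ _)
  · intro T hT T' hT' heq
    have hT1 : T ⊆ Z := by simpa using hT
    have hT1' : T' ⊆ Z := by simpa using hT'
    obtain ⟨h1, h2, h3⟩ := hA T hT1
    obtain ⟨k1, k2, k3⟩ := hA T' hT1'
    ext x
    by_cases hx : x ∈ Z
    · rw [← h3 x hx, ← k3 x hx]
      obtain ⟨m1, m2⟩ := hcode _ _ h1 k1 h2 k2 heq x hx
      constructor
      · rintro ⟨n1, n2⟩
        exact ⟨fun hc => n1 (m1.2 hc), by rw [← m2 n1]; exact n2⟩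
      · rintro ⟨n1, n2⟩
        have n3 : x ∉ A T := fun hc => n1 (m1.1 hc)
        exact ⟨n3, by rw [m2 n3]; exact n2⟩
    · exact ⟨fun hc => absurd (hT1 hc) hx, fun hc => absurd (hT1' hc) hx⟩

end Pool.Agent.Y424.LK
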