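import Pool.Agent.TH138.NF.Main
import Pool.Agent.Y424.LK.Link

/-!
# Four colours: triples, towers of full height, VC-dimension linear in `n`
-/

set_option autoImplicit false

namespace Pool.Agent.Y424.LK

open Finset Pool.Agent.TH138.NF

/-- symmetric version of `hd` -/
def hh (x y : ℕ) : ℕ := if x < y then hd x y else hd y x

theorem hh_comm (x y : ℕ) : hh x y = hh y x := by
  unfold hh
  rcases lt_trichotomy x y with h | h | h
  · rw [if_pos h, if_neg h.not_gt]
  · rw [h]
  · rw [if_neg h.not_gt, if_pos h]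

theorem hd_self (x : ℕ) : hd x x = 0 := by
  unfold hd
  apply Nat.findGreatest_eq_zero_iff.2
  intro n _ _
  simp

theorem hh_lt {x y : ℕ} (h : x < y) : hh x y = hd x y := if_pos h

theorem hh_gt {x y : ℕ} (h : y < x) : hh x y = hd y x := if_neg h.not_gt

theorem hh_self (x : ℕ) : hh x x = 0 := by
  unfold hh
  rw [if_neg (lt_irrefl x), hd_self]

theorem ultra (x y z : ℕ) : hh x z ≤ max (hh x y) (hh y z) := by
  rcases lt_trichotomy x y with h | rfl | h
  · rcases lt_trichotomy y z with h' | rfl | h'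
    · rw [hh_lt h, hh_lt h', hh_lt (h.trans h'), hd_max h h']
    · exact le_max_left _ _
    · rcases lt_trichotomy x z with h2 | rfl | h2
      · rw [hh_lt h2, hh_lt h, hd_max h2 h']
        exact (le_max_left _ _).trans (le_max_left _ _)
      · rw [hh_self]
        exact Nat.zero_le _
      · rw [hh_gt h2, hh_gt h', hd_max h2 h]
        exact (le_max_left _ _).trans (le_max_right _ _)
  · exact le_max_right _ _
  · rcases lt_trichotomy y z with h' | rfl | h'
    · rcases lt_trichotomy x z with h2 | rfl | h2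
      · rw [hh_lt h2, hh_lt h', hd_max h h2]
        exact (le_max_right _ _).trans (le_max_right _ _)
      · rw [hh_self]
        exact Nat.zero_le _
      · rw [hh_gt h2, hh_gt h, hd_max h' h2]
        exact (le_max_right _ _).trans (le_max_left _ _)
    · exact le_max_left _ _
    · rw [hh_gt h, hh_gt h', hh_gt (h'.trans h), hd_max h' h]
      exact (max_comm _ _).le

theorem hh_bound {x y M : ℕ} (hM : 1 ≤ M) (hx : x < 2 ^ M) (hy : y < 2 ^ M) : hh x y < M := by
  rcases lt_trichotomy x y with h | rfl | h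
  · rw [hh_lt h]
    exact hd_lt h hy
  · rw [hh_self]
    omega
  · rw [hh_gt h]
    exact hd_lt h hx

/-- the nearest point of `Z` -/
theorem exists_near {Z : Finset ℕ} (hZ : Z.Nonempty) (p : ℕ) : ∃ g ∈ Z, ∀ x ∈ Z,
    hh x p = max (hh g p) (hh x g) := by
  obtain ⟨g, hg, hmin⟩ := exists_min_image Z (fun x => hh x p) hZ
  refine ⟨g, hg, fun x hx => ?_⟩
  apply le_antisymm
  · rw [max_comm]
    exact ultra x g p
  · apply max_le (hmin x hx)
    refine (ultra x p g).trans (max_le le_rfl ?_)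
    rw [hh_comm p g]
    exact hmin x hx

/-- colours of triples -/
def f3 (χ : ℕ → ℕ → Bool) (a b : ℕ) : Bool × Bool := (χ (min a b) (max a b), decide (a < b))

theorem colour3 (χ : ℕ → ℕ → Bool) (j : ℕ) {x y z : ℕ} (hxy : x < y) (hyz : y < z)
    (hz : z < 2 ^ 2 ^ j) : colour (base χ j) (false, false) {x, y, z} =
      f3 χ (hh x y) (hh y z) := by
  have hm : StrictMono ![x, y, z] := by
    rw [Fin.strictMono_iff_lt_succ]
    intro i
    fin_cases i
    · simpa using hxy
    · simpa using hyz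
  have hb : ∀ i, (![x, y, z] : Fin 3 → ℕ) i < 2 ^ 2 ^ j := by
    intro i
    fin_cases i
    · simpa using (hxy.trans hyz).trans hz
    · simpa using hyz.trans hz
    · simpa using hz
  have h1 := computes_colour (base χ j) (false, false) (2 ^ 2 ^ j) ![x, y, z] hm hb
  have h2 : univ.image ![x, y, z] = {x, y, z} := by
    ext w
    simp only [mem_image, mem_univ, true_and, mem_insert, mem_singleton]
    constructor
    · rintro ⟨i, rfl⟩
      fin_cases i <;> simp
    · rintro (rfl | rfl | rfl)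
      · exact ⟨0, rfl⟩
      · exact ⟨1, rfl⟩
      · exact ⟨2, rfl⟩
  rw [h2] at h1
  rw [← h1, run_base χ j _ hm hb, hh_lt hxy, hh_lt hyz]
  rfl

theorem filter_lt_iff {Z : Finset ℕ} {p p' : ℕ}
    (h : (Z.filter (fun y => y < p)).card = (Z.filter (fun y => y < p')).card) {x : ℕ}
    (hx : x ∈ Z) : x < p ↔ x < p' := by
  have key : ∀ p p' : ℕ, p ≤ p' →
      (Z.filter (fun y => y < p)).card = (Z.filter (fun y => y < p')).card →
      (x < p ↔ x < p') := by
    intro p p' hpp h
    have h1 : Z.filter (fun y => y < p) ⊆ Z.filter (fun y => y < p') := by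
      intro y hy
      rw [mem_filter] at hy ⊢
      exact ⟨hy.1, hy.2.trans_le hpp⟩
    have h2 := eq_of_subset_of_card_le h1 h.ge
    have h3 : x ∈ Z.filter (fun y => y < p) ↔ x ∈ Z.filter (fun y => y < p') := by rw [h2]
    simpa [mem_filter, hx] using h3
  rcases le_total p p' with h' | h'
  · exact key p p' h' h
  · exact (key p' p h' h.symm).symm

theorem filter_le_iff {Z : Finset ℕ} {p p' : ℕ}
    (h : (Z.filter (fun y => y ≤ p)).card = (Z.filter (fun y => y ≤ p')).card) {x : ℕ}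
    (hx : x ∈ Z) : x ≤ p ↔ x ≤ p' := by
  have h1 : ∀ p, Z.filter (fun y => y ≤ p) = Z.filter (fun y => y < p + 1) := by
    intro p
    apply filter_congr
    intro y _
    omega
  rw [h1, h1] at h
  have := filter_lt_iff h hx
  omega

theorem numeric (m j : ℕ)
    (h : 2 ^ m ≤ m * (2 ^ j * ((m + 1) * (m + 1))) * (m * (2 ^ j * ((m + 1) * (m + 1))) * 2 ^ j)) :
    m ≤ 6 * j + 44 := by
  have h1 : 2 ^ m ≤ (2 ^ j) ^ 3 * (m + 1) ^ 6 := by
    refine h.trans ?_
    calc m * (2 ^ j * ((m + 1) * (m + 1))) * (m * (2 ^ j * ((m + 1) * (m + 1))) * 2 ^ j)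
        ≤ (m + 1) * (2 ^ j * ((m + 1) * (m + 1))) *
          ((m + 1) * (2 ^ j * ((m + 1) * (m + 1))) * 2 ^ j) := by
          apply Nat.mul_le_mul
          · exact Nat.mul_le_mul_right _ (Nat.le_succ m)
          · exact Nat.mul_le_mul_right _ (Nat.mul_le_mul_right _ (Nat.le_succ m))
      _ = _ := by ring
  have h2 : m + 1 ≤ 12 * 2 ^ (m / 12) := by
    have h3 : m / 12 + 1 ≤ 2 ^ (m / 12) := Nat.lt_two_pow_self
    omega
  have h3 : (m + 1) ^ 12 ≤ 2 ^ (m + 44) := by
    calc (m + 1) ^ 12 ≤ (12 * 2 ^ (m / 12)) ^ 12 := Nat.pow_le_pow_left h2 _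
      _ = 12 ^ 12 * 2 ^ (m / 12 * 12) := by rw [mul_pow, ← pow_mul]
      _ ≤ 2 ^ 44 * 2 ^ m := by
          have h6 : m / 12 * 12 ≤ m := Nat.div_mul_le_self m 12
          exact Nat.mul_le_mul (by norm_num) (Nat.pow_le_pow_right (by norm_num) h6)
      _ = 2 ^ (m + 44) := by rw [← pow_add, add_comm]
  have h4 : 2 ^ (m * 2) ≤ 2 ^ (6 * j + (m + 44)) := by
    calc 2 ^ (m * 2) = (2 ^ m) ^ 2 := by rw [pow_mul]
      _ ≤ ((2 ^ j) ^ 3 * (m + 1) ^ 6) ^ 2 := Nat.pow_le_pow_left h1 _
      _ = 2 ^ (6 * j) * (m + 1) ^ 12 := by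
          rw [mul_pow, ← pow_mul, ← pow_mul, ← pow_mul, show j * (3 * 2) = 6 * j by ring]
      _ ≤ 2 ^ (6 * j) * 2 ^ (m + 44) := Nat.mul_le_mul_left _ h3
      _ = _ := by rw [← pow_add]
  have h5 := (Nat.pow_le_pow_iff_right (by norm_num)).1 h4
  omega

theorem ins3 (x p q : ℕ) : (insert x {p, q} : Finset ℕ) = {p, q, x} := by
  ext y
  simp only [mem_insert, mem_singleton]
  tauto

theorem trace_eq (χ : ℕ → ℕ → Bool) (j : ℕ) (a : Bool × Bool) {p q p' q' x : ℕ}
    (hpq : p < q) (hq : q < 2 ^ 2 ^ j) (hpq' : p' < q') (hq' : q' < 2 ^ 2 ^ j)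
    (hx : x < 2 ^ 2 ^ j) (h1 : x < p ↔ x < p') (h2 : x ≤ p ↔ x ≤ p') (h3 : x < q ↔ x < q')
    (h4 : x ≤ q ↔ x ≤ q') (h5 : hh x p = hh x p') (h6 : hh x q = hh x q')
    (h7 : hh p q = hh p' q') :
    (x ∉ ({p, q} : Finset ℕ) ∧ colour (base χ j) (false, false) (insert x {p, q}) = a) ↔
    (x ∉ ({p', q'} : Finset ℕ) ∧ colour (base χ j) (false, false) (insert x {p', q'}) = a) := by
  rcases lt_trichotomy x p with h | h | h
  · have h' := h1.1 h
    have e1 : x ∉ ({p, q} : Finset ℕ) := by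
      simp only [mem_insert, mem_singleton]
      omega
    have e2 : x ∉ ({p', q'} : Finset ℕ) := by
      simp only [mem_insert, mem_singleton]
      omega
    have e3 := colour3 χ j h hpq hq
    have e4 := colour3 χ j h' hpq' hq'
    rw [e3, e4, h5, h7]
    simp only [e1, e2]
  · have h' : x = p' := by omega
    have e1 : ¬ (x ∉ ({p, q} : Finset ℕ)) := by simp [h]
    have e2 : ¬ (x ∉ ({p', q'} : Finset ℕ)) := by simp [h']
    exact ⟨fun hc => absurd hc.1 e1, fun hc => absurd hc.1 e2⟩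
  · have h' : p' < x := by omega
    rcases lt_trichotomy x q with g | g | g
    · have g' := h3.1 g
      have e1 : x ∉ ({p, q} : Finset ℕ) := by
        simp only [mem_insert, mem_singleton]
        omega
      have e2 : x ∉ ({p', q'} : Finset ℕ) := by
        simp only [mem_insert, mem_singleton]
        omega
      have e3 := colour3 χ j h g hq
      have e4 := colour3 χ j h' g' hq'
      rw [insert_comm x p, insert_comm x p', e3, e4, hh_comm p x, hh_comm p' x, h5, h6]
      simp only [e1, e2]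
    · have g' : x = q' := by omega
      have e1 : ¬ (x ∉ ({p, q} : Finset ℕ)) := by simp [g]
      have e2 : ¬ (x ∉ ({p', q'} : Finset ℕ)) := by simp [g']
      exact ⟨fun hc => absurd hc.1 e1, fun hc => absurd hc.1 e2⟩
    · have g' : q' < x := by omega
      have e1 : x ∉ ({p, q} : Finset ℕ) := by
        simp only [mem_insert, mem_singleton]
        omega
      have e2 : x ∉ ({p', q'} : Finset ℕ) := by
        simp only [mem_insert, mem_singleton]
        omega
      have e3 := colour3 χ j hpq g hx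
      have e4 := colour3 χ j hpq' g' hx
      have e5 := ins3 x p q
      have e6 := ins3 x p' q'
      rw [e5, e6, e3, e4, hh_comm q x, hh_comm q' x, h6, h7]
      simp only [e1, e2]

theorem vc_four (χ : ℕ → ℕ → Bool) (j : ℕ) (a : Bool × Bool) (Z : Finset ℕ)
    (hZ : Z ⊆ range (2 ^ 2 ^ j))
    (h : ∀ T ⊆ Z, ∃ p q, p < q ∧ q < 2 ^ 2 ^ j ∧ ∀ x ∈ Z, ((x ∉ ({p, q} : Finset ℕ) ∧
      colour (base χ j) (false, false) (insert x {p, q}) = a) ↔ x ∈ T)) :
    Z.card ≤ 6 * j + 44 := by
  classical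
  rcases Z.eq_empty_or_nonempty with hne | hne
  · rw [hne]
    simp
  have h' : ∀ T : Finset ℕ, ∃ p q, T ⊆ Z → p < q ∧ q < 2 ^ 2 ^ j ∧
      ∀ x ∈ Z, ((x ∉ ({p, q} : Finset ℕ) ∧
        colour (base χ j) (false, false) (insert x {p, q}) = a) ↔ x ∈ T) := by
    intro T
    by_cases hT : T ⊆ Z
    · obtain ⟨p, q, hpq⟩ := h T hT
      exact ⟨p, q, fun _ => hpq⟩
    · exact ⟨0, 0, fun hc => absurd hc hT⟩
  choose p q hpq using h'
  choose g hg hgm using exists_near hne
  have hM : 1 ≤ 2 ^ j := Nat.one_le_two_pow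
  set e : ℕ → ℕ × ℕ × ℕ × ℕ := fun p => (g p, hh (g p) p, (Z.filter (fun y => y < p)).card,
    (Z.filter (fun y => y ≤ p)).card) with he
  set E := Z ×ˢ range (2 ^ j) ×ˢ range (Z.card + 1) ×ˢ range (Z.card + 1) with hE
  have heE : ∀ p < 2 ^ 2 ^ j, e p ∈ E := by
    intro p hp
    simp only [he, hE, mem_product, mem_range]
    exact ⟨hg p, hh_bound hM (mem_range.1 (hZ (hg p))) hp,
      Nat.lt_succ_of_le (card_le_card (filter_subset _ _)),
      Nat.lt_succ_of_le (card_le_card (filter_subset _ _))⟩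
  have hinj : ∀ p p', e p = e p' → ∀ x ∈ Z, (x < p ↔ x < p') ∧ (x ≤ p ↔ x ≤ p') ∧
      hh x p = hh x p' := by
    intro p p' hpp x hx
    simp only [he, Prod.mk.injEq] at hpp
    obtain ⟨e1, e2, e3, e4⟩ := hpp
    refine ⟨filter_lt_iff e3 hx, filter_le_iff e4 hx, ?_⟩
    rw [hgm p x hx, hgm p' x hx, e2, e1]
  have hcard : Z.powerset.card ≤ (E ×ˢ E ×ˢ range (2 ^ j)).card := by
    apply card_le_card_of_injOn (fun T => (e (p T), e (q T), hh (p T) (q T)))
    · intro T hT
      have hT' : T ⊆ Z := by simpa using hT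
      obtain ⟨h1, h2, -⟩ := hpq T hT'
      simp only [coe_product, Set.mem_prod, mem_coe]
      refine ⟨heE _ (h1.trans h2), heE _ h2, ?_⟩
      rw [mem_range]
      exact hh_bound hM (h1.trans h2) h2
    · intro T hT T' hT' heq
      have hT1 : T ⊆ Z := by simpa using hT
      have hT1' : T' ⊆ Z := by simpa using hT'
      simp only [Prod.mk.injEq] at heq
      obtain ⟨e1, e2, e3⟩ := heq
      obtain ⟨h1, h2, h3⟩ := hpq T hT1
      obtain ⟨k1, k2, k3⟩ := hpq T' hT1'
      ext x
      by_cases hx : x ∈ Z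
      · rw [← h3 x hx, ← k3 x hx]
        obtain ⟨a1, a2, a3⟩ := hinj _ _ e1 x hx
        obtain ⟨b1, b2, b3⟩ := hinj _ _ e2 x hx
        exact trace_eq χ j a h1 h2 k1 k2 (mem_range.1 (hZ hx)) a1 a2 b1 b2 a3 b3 e3
      · exact ⟨fun hc => absurd (hT1 hc) hx, fun hc => absurd (hT1' hc) hx⟩
  simp only [card_powerset, card_product, card_range, hE] at hcard
  exact numeric Z.card j hcard

end Pool.Agent.Y424.LK
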