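import Pool.Agent.Y424.LK.Link
import Pool.Agent.TH458.VC.Up
import Pool.Agent.TH458.VC.Asy
import Pool.Agent.Y422.TW.Final

/-!
# VC-dimension and links of colourings without homogeneous sets
-/

set_option autoImplicit false

namespace Pool.Agent.Y424.LK

open Finset Pool.Agent.TH138.NF

theorem shattered_of_shat {c : Finset ℕ → Bool} {U S : Finset ℕ} (hUS : ∀ u ∈ U, ∀ w ∈ S, u < w)
    {Z : Finset {x // x ∈ U}} (hZ : Pool.Agent.TH458.VC.Shat (linkGraph c U S) Z) :
    Shattered c {A | ∃ v ∈ U, A = insert v S} (Z.image Subtype.val) := by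
  classical
  intro T hT
  obtain ⟨T', hT', rfl⟩ := subset_image_iff.1 hT
  obtain ⟨v, hv⟩ := hZ T' (by exact_mod_cast hT')
  refine ⟨insert v.1 S, ⟨v.1, v.2, rfl⟩, ?_⟩
  intro x hx
  obtain ⟨x', hx', rfl⟩ := mem_image.1 hx
  have h1 := hv x' hx'
  have h2 : x'.1 ∈ T'.image Subtype.val ↔ x' ∈ T' := by
    rw [mem_image]
    constructor
    · rintro ⟨a, ha, e⟩
      rwa [Subtype.ext e] at ha
    · intro h
      exact ⟨x', h, rfl⟩
  rw [h2, ← h1]
  show _ ↔ v ≠ x' ∧ c (insert v.1 (insert x'.1 S)) = true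
  have h3 : x'.1 ∉ insert v.1 S ↔ v ≠ x' := by
    rw [mem_insert, not_or]
    constructor
    · rintro ⟨h, -⟩ e
      exact h (by rw [e])
    · intro h
      refine ⟨fun e => h (Subtype.ext e.symm), fun hs => ?_⟩
      exact lt_irrefl _ (hUS x'.1 x'.2 x'.1 hs)
  rw [h3, Finset.insert_comm]

/-- Links without large homogeneous sets. -/
theorem exists_link (s Y n N : ℕ) (hN : tw (s + 1) (2 * Y + (s + 2) ^ 2) ≤ N)
    (c : Finset ℕ → Bool) (hc : ∀ H ⊆ range N, H.card = n → ¬ Homogeneous (s + 2) c H) :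
    ∃ U S : Finset ℕ, U ⊆ range N ∧ S ⊆ range N ∧ U.card = 2 ^ Y ∧ S.card = s ∧
      (∀ u ∈ U, ∀ w ∈ S, u < w) ∧ Links s c U S ∧
      (linkGraph c U S).CliqueFree n ∧ (linkGraph c U S)ᶜ.CliqueFree n := by
  classical
  obtain ⟨U, hU, S, hS, hUc, hSc, hlt, hL⟩ := link (2 ^ Y) s (range N)
    (by rw [card_range]; exact (NB_le Y s).trans hN) c
  refine ⟨U, S, hU, hS, hUc, hSc, hlt, hL, ?_, ?_⟩
  · intro Q hQ
    have hH : Q.image Subtype.val ⊆ U := by
      intro x hx
      obtain ⟨x', -, rfl⟩ := mem_image.1 hx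
      exact x'.2
    refine hc (Q.image Subtype.val) (hH.trans hU) ?_ ?_
    · rw [card_image_of_injective _ Subtype.val_injective, hQ.card_eq]
    · have h1 := hom hL hH true ?_
      · intro A hA B hB hAc hBc
        rw [h1 A hA hAc, h1 B hB hBc]
      · intro x hx y hy hxy
        obtain ⟨x', hx', rfl⟩ := mem_image.1 hx
        obtain ⟨y', hy', rfl⟩ := mem_image.1 hy
        have h2 := hQ.isClique (by exact_mod_cast hx') (by exact_mod_cast hy')
          (fun e => hxy.ne (by rw [e]))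
        exact h2.2
  · intro Q hQ
    have hH : Q.image Subtype.val ⊆ U := by
      intro x hx
      obtain ⟨x', -, rfl⟩ := mem_image.1 hx
      exact x'.2
    refine hc (Q.image Subtype.val) (hH.trans hU) ?_ ?_
    · rw [card_image_of_injective _ Subtype.val_injective, hQ.card_eq]
    · have h1 := hom hL hH false ?_
      · intro A hA B hB hAc hBc
        rw [h1 A hA hAc, h1 B hB hBc]
      · intro x hx y hy hxy
        obtain ⟨x', hx', rfl⟩ := mem_image.1 hx
        obtain ⟨y', hy', rfl⟩ := mem_image.1 hy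
        have hne : x' ≠ y' := fun e => hxy.ne (by rw [e])
        have h2 := hQ.isClique (by exact_mod_cast hx') (by exact_mod_cast hy') hne
        rw [SimpleGraph.compl_adj] at h2
        by_contra h3
        exact h2.2 ⟨hne, by simpa using h3⟩

/-- Transfer to graphs on `Fin n`. -/
theorem to_fin {U : Finset ℕ} (G : SimpleGraph {x // x ∈ U}) {M : ℕ} (hM : U.card = M) :
    ∃ G' : SimpleGraph (Fin M), (∀ k, G.CliqueFree k → G'.CliqueFree k) ∧
      (∀ k, Gᶜ.CliqueFree k → G'ᶜ.CliqueFree k) ∧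
      ∀ Z : Finset (Fin M), Pool.Agent.TH458.VC.Shat G' Z →
        ∃ Z' : Finset {x // x ∈ U}, Pool.Agent.TH458.VC.Shat G Z' ∧ Z'.card = Z.card := by
  classical
  let e : Fin M ≃ {x // x ∈ U} := (U.equivFinOfCardEq hM).symm
  refine ⟨G.comap e, ?_, ?_, ?_⟩
  · intro k hk
    exact SimpleGraph.CliqueFree.comap (SimpleGraph.Iso.comap e G).toEmbedding.isContained hk
  · intro k hk
    have e2 : (G.comap e)ᶜ = Gᶜ.comap e := by
      ext x y
      simp [SimpleGraph.compl_adj, SimpleGraph.comap_adj]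
    rw [e2]
    exact SimpleGraph.CliqueFree.comap (SimpleGraph.Iso.comap e Gᶜ).toEmbedding.isContained hk
  · intro Z hZ
    refine ⟨Z.image e, ?_, card_image_of_injective _ e.injective⟩
    intro T hT
    obtain ⟨T', hT', rfl⟩ := subset_image_iff.1 hT
    obtain ⟨v, hv⟩ := hZ T' (by exact_mod_cast hT')
    refine ⟨e v, ?_⟩
    intro x hx
    obtain ⟨x', hx', rfl⟩ := mem_image.1 hx
    have h1 := hv x' hx'
    rw [SimpleGraph.comap_adj] at h1
    rw [h1, mem_image]
    constructor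
    · intro h
      exact ⟨x', h, rfl⟩
    · rintro ⟨a, ha, h⟩
      rwa [e.injective h] at ha

open Pool.Agent.TH458.VC in
theorem upper : ∃ C : ℝ, 0 < C ∧ ∀ s N n d : ℕ, 2 ≤ n → 1 ≤ d →
    tow (s + 1) (C * (d * Real.log (2 + (n : ℝ) / d) + Real.sqrt (n * Real.log n)) +
      ((s : ℝ) + 3) ^ 2) ≤ N →
    ∀ c : Finset ℕ → Bool,
      (∀ Z ⊆ range N, Shattered c {A | A ⊆ range N ∧ A.card = s + 1} Z → Z.card ≤ d) →
      ∃ H ⊆ range N, H.card = n ∧ Homogeneous (s + 2) c H := by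
  classical
  obtain ⟨C, hC, hUP⟩ := t_UP Pool.Agent.TH458.VCA2.t_ASY
  refine ⟨4 * C, by positivity, ?_⟩
  intro s N n d hn hd hN c hvc
  by_contra hcon
  push Not at hcon
  have hlog2 : (1 : ℝ) / 2 < Real.log 2 := by
    have := Real.log_two_gt_d9
    linarith
  set B := (d : ℝ) * Real.log (2 + (n : ℝ) / d) + Real.sqrt (n * Real.log n) with hB
  have hB0 : 0 ≤ B := by
    have h1 : 0 ≤ Real.log (2 + (n : ℝ) / d) := Real.log_nonneg (by
      have : 0 ≤ (n : ℝ) / d := by positivity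
      linarith)
    positivity
  set Y := ⌊2 * (C * B)⌋₊ + 1 with hY
  have hY1 : 2 * (C * B) < Y := by
    rw [hY]
    push_cast
    exact Nat.lt_floor_add_one _
  have hY2 : (Y : ℝ) ≤ 2 * (C * B) + 1 := by
    rw [hY]
    push_cast
    have := Nat.floor_le (a := 2 * (C * B)) (by positivity)
    linarith
  have hN' : tw (s + 1) (2 * Y + (s + 2) ^ 2) ≤ N := by
    have h1 : ((tw (s + 1) (2 * Y + (s + 2) ^ 2) : ℕ) : ℝ) ≤ N := by
      rw [tw_cast]
      refine le_trans (tow_mono (s + 1) ?_) hN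
      push_cast
      have : (0 : ℝ) ≤ s := Nat.cast_nonneg s
      nlinarith
    exact_mod_cast h1
  obtain ⟨U, S, hU, hS, hUc, hSc, hlt, hL, g1, g2⟩ := exists_link s Y n N hN' c hcon
  obtain ⟨G', k1, k2, k3⟩ := to_fin (linkGraph c U S) hUc
  have h1 := hUP (2 ^ Y) n d G' Nat.one_le_two_pow hn hd (k1 n g1) (k2 n g2) (by
    intro Z hZ
    obtain ⟨Z', h3, h4⟩ := k3 Z hZ
    have h5 := shattered_of_shat hlt h3
    rw [← h4, ← card_image_of_injective Z' Subtype.val_injective]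
    apply hvc
    · intro x hx
      obtain ⟨x', -, rfl⟩ := mem_image.1 hx
      exact hU x'.2
    · intro T hT
      obtain ⟨A, ⟨v, hv, rfl⟩, h6⟩ := h5 T hT
      refine ⟨insert v S, ⟨?_, ?_⟩, h6⟩
      · exact insert_subset (hU hv) hS
      · rw [card_insert_of_notMem, hSc]
        intro h
        exact lt_irrefl _ (hlt v hv v h))
  rw [← hB] at h1
  push_cast at h1
  rw [Real.log_pow] at h1
  have h2 : (Y : ℝ) * (1 / 2) ≤ Y * Real.log 2 :=
    mul_le_mul_of_nonneg_left hlog2.le (Nat.cast_nonneg _)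
  linarith

open Pool.Agent.TH458.VC in
/-- The structure of colourings without homogeneous sets on towers of full height. -/
theorem struct : ∃ c₀ C : ℝ, 0 < c₀ ∧ 0 < C ∧ ∀ (s : ℕ) (ε : ℝ), 0 < ε → ε ≤ 1 → ∃ n₀ : ℕ,
    ∀ n N : ℕ, n₀ ≤ n → tow (s + 1) (ε * n) ≤ N → ∀ c : Finset ℕ → Bool,
      (∀ H ⊆ range N, H.card = n → ¬ Homogeneous (s + 2) c H) →
      ∃ U S : Finset ℕ, U ⊆ range N ∧ S ⊆ range N ∧ U.card = 2 ^ ⌊ε / 3 * n⌋₊ ∧ S.card = s ∧
        (∀ u ∈ U, ∀ w ∈ S, u < w) ∧ Links s c U S ∧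
        (linkGraph c U S).CliqueFree n ∧ (linkGraph c U S)ᶜ.CliqueFree n ∧
        (∃ Z ⊆ U, Shattered c {A | ∃ v ∈ U, A = insert v S} Z ∧
          c₀ * ε / Real.log (2 / ε) * n ≤ Z.card) ∧
        (∀ t : ℕ, Pool.Agent.Y422.TW.TwinWidthLE (linkGraph c U S) t →
          (2 : ℝ) ^ (ε / 3 * n) * Real.exp (-(C * Real.sqrt n)) ≤ t) := by
  classical
  obtain ⟨c₁, hc₁, hvc⟩ := large_vc (t_UP Pool.Agent.TH458.VCA2.t_ASY)
  obtain ⟨_, C₁, -, hC₁, htw⟩ := Pool.Agent.Y422.TW.main (1 / 2) (by norm_num)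
  have hceil : ⌈(1 : ℝ) / (1 / 2)⌉₊ = 2 := by
    rw [show (1 : ℝ) / (1 / 2) = ((2 : ℕ) : ℝ) by norm_num, Nat.ceil_natCast]
  rw [hceil] at htw
  have hl1 : (0.69 : ℝ) < Real.log 2 := by
    have := Real.log_two_gt_d9
    linarith
  have hl2 : Real.log 2 < 0.7 := by
    have := Real.log_two_lt_d9
    linarith
  refine ⟨c₁ / 24, C₁ + 3, by positivity, by positivity, ?_⟩
  intro s ε hε hε1
  obtain ⟨K, hK⟩ := hvc (ε / 6) (by positivity) (by linarith)
  obtain ⟨n₁, hn₁⟩ := exists_nat_gt (11 / ε)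
  obtain ⟨n₂, hn₂⟩ := exists_nat_gt (3 * ((s : ℝ) + 2) ^ 2 / ε)
  obtain ⟨n₃, hn₃⟩ := exists_nat_gt (((C₁ + 3) * 6 / ε) ^ 2)
  refine ⟨max (max K n₁) (max (max n₂ n₃) 3), ?_⟩
  intro n N hn hN c hc
  have hnK : K ≤ n := (le_max_left _ _).trans ((le_max_left _ _).trans hn)
  have hn1 : n₁ ≤ n := (le_max_right _ _).trans ((le_max_left _ _).trans hn)
  have hn2 : n₂ ≤ n := (le_max_left _ _).trans
    ((le_max_left _ _).trans ((le_max_right _ _).trans hn))
  have hn3 : n₃ ≤ n := (le_max_right _ _).trans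
    ((le_max_left _ _).trans ((le_max_right _ _).trans hn))
  have hn4 : 3 ≤ n := (le_max_right _ _).trans ((le_max_right _ _).trans hn)
  have hn1' : (n₁ : ℝ) ≤ n := by exact_mod_cast hn1
  have hn2' : (n₂ : ℝ) ≤ n := by exact_mod_cast hn2
  have hn3' : (n₃ : ℝ) ≤ n := by exact_mod_cast hn3
  have hnpos : (0 : ℝ) < n := by
    have : 0 < n := by omega
    exact_mod_cast this
  have hε11 : 11 < ε * n := by
    have := hn₁.trans_le hn1'
    rw [div_lt_iff₀ hε] at this
    linarith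
  set Y := ⌊ε / 3 * n⌋₊ with hY
  have hY1 : ε / 3 * n < Y + 1 := Nat.lt_floor_add_one _
  have hY2 : (Y : ℝ) ≤ ε / 3 * n := Nat.floor_le (by positivity)
  have hN' : tw (s + 1) (2 * Y + (s + 2) ^ 2) ≤ N := by
    have h1 : ((tw (s + 1) (2 * Y + (s + 2) ^ 2) : ℕ) : ℝ) ≤ N := by
      rw [tw_cast]
      refine le_trans (tow_mono (s + 1) ?_) hN
      push_cast
      have h2 := hn₂.trans_le hn2'
      rw [div_lt_iff₀ hε] at h2
      linarith
    exact_mod_cast h1
  obtain ⟨U, S, hU, hS, hUc, hSc, hlt, hL, g1, g2⟩ := exists_link s Y n N hN' c hc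
  refine ⟨U, S, hU, hS, hUc, hSc, hlt, hL, g1, g2, ?_, ?_⟩
  · obtain ⟨G', k1, k2, k3⟩ := to_fin (linkGraph c U S) hUc
    have hexp : Real.exp (ε / 6 * n) ≤ ((2 ^ Y : ℕ) : ℝ) := by
      push_cast
      rw [← Real.rpow_natCast, Real.rpow_def_of_pos (by norm_num)]
      apply Real.exp_le_exp.2
      nlinarith
    obtain ⟨Z, hZ, hZc⟩ := hK n hnK (2 ^ Y) G' (k1 n g1) (k2 n g2) hexp
    obtain ⟨Z', h3, h4⟩ := k3 Z hZ
    refine ⟨Z'.image Subtype.val, ?_, shattered_of_shat hlt h3, ?_⟩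
    · intro x hx
      obtain ⟨x', -, rfl⟩ := mem_image.1 hx
      exact x'.2
    · rw [card_image_of_injective _ Subtype.val_injective, h4]
      refine le_trans ?_ hZc
      apply mul_le_mul_of_nonneg_right _ hnpos.le
      have hL2 : Real.log 2 ≤ Real.log (2 / ε) := by
        apply Real.log_le_log (by norm_num)
        rw [le_div_iff₀ hε]
        linarith
      have hL12 : Real.log (2 / (ε / 6)) ≤ 4 * Real.log (2 / ε) := by
        have e : 2 / (ε / 6) = (2 / ε) * 6 := by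
          field_simp
        rw [e, Real.log_mul (by positivity) (by norm_num)]
        have h6 : Real.log 6 ≤ 3 * Real.log 2 := by
          rw [show (3 : ℝ) * Real.log 2 = Real.log (2 ^ 3) by rw [Real.log_pow]; norm_num]
          exact Real.log_le_log (by norm_num) (by norm_num)
        linarith
      have hLpos : 0 < Real.log (2 / (ε / 6)) := by
        apply Real.log_pos
        rw [lt_div_iff₀ (by positivity)]
        linarith
      have hLpos' : 0 < Real.log (2 / ε) := by linarith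
      rw [div_le_div_iff₀ hLpos' hLpos]
      calc c₁ / 24 * ε * Real.log (2 / (ε / 6)) ≤ c₁ / 24 * ε * (4 * Real.log (2 / ε)) :=
            mul_le_mul_of_nonneg_left hL12 (by positivity)
        _ = c₁ * (ε / 6) * Real.log (2 / ε) := by ring
  · intro t ht
    have h1 := (htw n hn4).1 {x // x ∈ U} (linkGraph c U S) t ht g1 g2
    rw [Fintype.card_coe, hUc] at h1
    have e1 : (2 * ((t : ℝ) + 1)) ^ (2 - 1) = 2 * ((t : ℝ) + 1) := by norm_num
    have e2 : (n : ℝ) ^ ((1 : ℝ) / ((2 : ℕ) : ℝ)) = Real.sqrt n := by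
      rw [Real.sqrt_eq_rpow]
      norm_num
    rw [e1, e2] at h1
    push_cast at h1
    have h2 : (2 : ℝ) ^ (ε / 3 * n) ≤ 2 * 2 ^ Y := by
      calc (2 : ℝ) ^ (ε / 3 * n) ≤ 2 ^ ((Y : ℝ) + 1) :=
            Real.rpow_le_rpow_of_exponent_le (by norm_num) hY1.le
        _ = 2 * 2 ^ Y := by
            rw [Real.rpow_add (by norm_num), Real.rpow_natCast, Real.rpow_one]
            ring
    set x := Real.sqrt n with hx
    have hx1 : (C₁ + 3) * 6 / ε < x := by
      rw [hx]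
      apply Real.lt_sqrt_of_sq_lt
      exact hn₃.trans_le hn3'
    have hx2 : x * x = n := Real.mul_self_sqrt hnpos.le
    have hx3 : 1 ≤ x := by
      rw [hx, Real.one_le_sqrt]
      have : (3 : ℝ) ≤ n := by exact_mod_cast hn4
      linarith
    have h3 : 8 ≤ (2 : ℝ) ^ (ε / 3 * n) * Real.exp (-(C₁ * x)) := by
      rw [Real.rpow_def_of_pos (by norm_num), ← Real.exp_add]
      have h4 : (3 : ℝ) ≤ Real.log 2 * (ε / 3 * n) + -(C₁ * x) := by
        rw [div_lt_iff₀ hε] at hx1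
        have h5 : (C₁ + 3) * 6 * x ≤ x * ε * x := mul_le_mul_of_nonneg_right hx1.le (by linarith)
        have h6 : x * ε * x = ε * n := by rw [← hx2]; ring
        have h7 : 0.69 * (ε / 3 * n) ≤ Real.log 2 * (ε / 3 * n) :=
          mul_le_mul_of_nonneg_right hl1.le (by positivity)
        nlinarith
      have h8 : (8 : ℝ) ≤ Real.exp 3 := by
        have h9 := Real.exp_one_gt_d9
        have h10 : Real.exp 3 = Real.exp 1 ^ 3 := by
          rw [← Real.exp_nat_mul]
          norm_num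
        rw [h10]
        have h11 : (2.7 : ℝ) ^ 3 ≤ Real.exp 1 ^ 3 :=
          pow_le_pow_left₀ (by norm_num) (by linarith) 3
        linarith [h11, show (8 : ℝ) ≤ 2.7 ^ 3 by norm_num]
      exact h8.trans (Real.exp_le_exp.2 h4)
    have h4 : (2 : ℝ) ^ (ε / 3 * n) * Real.exp (-(C₁ * x)) ≤ 4 * ((t : ℝ) + 1) := by
      have h5 : (2 : ℝ) ^ (ε / 3 * n) ≤ 4 * ((t : ℝ) + 1) * Real.exp (C₁ * x) := by
        calc (2 : ℝ) ^ (ε / 3 * n) ≤ 2 * 2 ^ Y := h2
          _ ≤ 2 * (2 * ((t : ℝ) + 1) * Real.exp (C₁ * x)) :=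
              mul_le_mul_of_nonneg_left h1 (by norm_num)
          _ = _ := by ring
      calc (2 : ℝ) ^ (ε / 3 * n) * Real.exp (-(C₁ * x)) ≤
          4 * ((t : ℝ) + 1) * Real.exp (C₁ * x) * Real.exp (-(C₁ * x)) :=
            mul_le_mul_of_nonneg_right h5 (Real.exp_pos _).le
        _ = 4 * ((t : ℝ) + 1) := by
            rw [mul_assoc, ← Real.exp_add, add_neg_cancel, Real.exp_zero, mul_one]
    have e3 : Real.exp (-((C₁ + 3) * x)) = Real.exp (-(C₁ * x)) * Real.exp (-(3 * x)) := by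
      rw [← Real.exp_add]
      ring_nf
    rw [e3, ← mul_assoc]
    set W := (2 : ℝ) ^ (ε / 3 * n) * Real.exp (-(C₁ * x)) with hW
    have h5 : Real.exp (-(3 * x)) ≤ 1 / 8 := by
      have h6 : Real.exp (-(3 * x)) ≤ Real.exp (-3) := Real.exp_le_exp.2 (by linarith)
      have h8 : (8 : ℝ) ≤ Real.exp 3 := by
        have h9 := Real.exp_one_gt_d9
        have h10 : Real.exp 3 = Real.exp 1 ^ 3 := by
          rw [← Real.exp_nat_mul]
          norm_num
        rw [h10]
        have h11 : (2.7 : ℝ) ^ 3 ≤ Real.exp 1 ^ 3 :=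
          pow_le_pow_left₀ (by norm_num) (by linarith) 3
        linarith [h11, show (8 : ℝ) ≤ 2.7 ^ 3 by norm_num]
      have h7 : Real.exp (-3) ≤ 1 / 8 := by
        rw [Real.exp_neg, inv_eq_one_div]
        exact one_div_le_one_div_of_le (by norm_num) h8
      exact h6.trans h7
    have h6 : W * Real.exp (-(3 * x)) ≤ W * (1 / 8) :=
      mul_le_mul_of_nonneg_left h5 (by linarith)
    linarith

end Pool.Agent.Y424.LK
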