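import Pool.Agent.Y424.LK.QFin
import Pool.Agent.TH458.VC.Asy

/-!
# Many colours: the asymptotic bound
-/

set_option autoImplicit false

namespace Pool.Agent.Y424.LK

open Finset
open Pool.Agent.TH458.VC (VCle Phi Phi_pos)

theorem Bd_eq (Q d a T : ℕ) : ∀ m, Bd Q d a T m =
    (2 * Q) ^ (Q * a) * ((8 * Q) ^ (Q * (a + T)) * (KQ Q d T * (2 * Phi (T * a) d))) ^ m
  | 0 => by simp [Bd]
  | m + 1 => by
    rw [Bd, Bd_eq Q d a T m]
    ring

theorem two_pow_le_choose (a : ℕ) : ∀ b, b ≤ a → 2 ^ b ≤ (a + b).choose b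
  | 0, _ => by simp
  | b + 1, hb => by
    have ih := two_pow_le_choose a b (by omega)
    have h1 : (a + b + 1).choose (b + 1) * (b + 1) = (a + b + 1) * (a + b).choose b := by
      have := Nat.add_one_mul_choose_eq (a + b) b
      rw [← this]
    have h2 : 2 ^ (b + 1) * (b + 1) ≤ (a + (b + 1)).choose (b + 1) * (b + 1) := by
      rw [← add_assoc, h1]
      calc 2 ^ (b + 1) * (b + 1) = (2 * (b + 1)) * 2 ^ b := by ring
        _ ≤ (a + b + 1) * (a + b).choose b := Nat.mul_le_mul (by omega) ih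
    exact Nat.le_of_mul_le_mul_right h2 (Nat.succ_pos b)

theorem two_mul_le_two_pow (Q : ℕ) (hQ : 1 ≤ Q) : 2 * Q ≤ 2 ^ Q := by
  obtain ⟨q, rfl⟩ : ∃ q, Q = q + 1 := ⟨Q - 1, by omega⟩
  have : q < 2 ^ q := Nat.lt_two_pow_self
  rw [pow_succ]
  omega

theorem eight_mul_le (Q : ℕ) (hQ : 1 ≤ Q) : 8 * Q ≤ 2 ^ (3 * Q) := by
  have h1 := two_mul_le_two_pow Q hQ
  have h2 : 2 ^ 2 ≤ 2 ^ (2 * Q) := Nat.pow_le_pow_right (by norm_num) (by omega)
  calc 8 * Q = 2 ^ 2 * (2 * Q) := by ring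
    _ ≤ 2 ^ (2 * Q) * 2 ^ Q := Nat.mul_le_mul h2 h1
    _ = 2 ^ (3 * Q) := by rw [← pow_add]; congr 1; omega

/-- Comparison with the bound for two colours. -/
theorem Bd_le (Q d a k T : ℕ) (hQ : 1 ≤ Q) (hT : 1 ≤ T) (hak : a ≤ k) :
    Bd Q d a T Q ≤ (4 ^ (2 * T) * (2 * (11264 * T ^ 2) ^ d * Phi (T * a) d *
      (a + k).choose a)) ^ (4 * Q ^ 3) := by
  have hT2 : 1 ≤ T ^ 2 := Nat.one_le_pow _ _ hT
  have hP := Phi_pos (T * a) d
  set P := Phi (T * a) d with hPdef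
  set D := (11264 * T ^ 2) ^ d with hD
  have hD1 : 1 ≤ D := Nat.one_le_pow _ _ (by omega)
  have hX : 2 ^ a ≤ (a + k).choose a := by
    have h := two_pow_le_choose k a hak
    rw [add_comm a k]
    exact h
  have hX1 : 1 ≤ 2 ^ a := Nat.one_le_two_pow
  have hY1 : 1 ≤ 2 ^ T := Nat.one_le_two_pow
  have hY : 2 ^ T ≤ 4 ^ (2 * T) := by
    calc 2 ^ T ≤ 4 ^ T := Nat.pow_le_pow_left (by norm_num) _
      _ ≤ 4 ^ (2 * T) := Nat.pow_le_pow_right (by norm_num) (by omega)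
  have hQ3 : Q ^ 2 ≤ Q ^ 3 := Nat.pow_le_pow_right hQ (by norm_num)
  have hQ31 : Q ≤ Q ^ 3 := Nat.le_self_pow (by norm_num) _
  have hK : KQ Q d T ≤ D ^ (2 * Q ^ 2) := by
    have h1 : 704 * (Q * (32 * T ^ 2)) ≤ (11264 * T ^ 2) ^ (2 * Q) := by
      calc 704 * (Q * (32 * T ^ 2)) = (2 * Q) * (11264 * T ^ 2) := by ring
        _ ≤ 2 ^ Q * (11264 * T ^ 2) := Nat.mul_le_mul_right _ (two_mul_le_two_pow Q hQ)
        _ ≤ (11264 * T ^ 2) ^ Q * (11264 * T ^ 2) ^ Q :=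
            Nat.mul_le_mul (Nat.pow_le_pow_left (by omega) _) (Nat.le_self_pow (by omega) _)
        _ = (11264 * T ^ 2) ^ (2 * Q) := by rw [← pow_add, two_mul]
    unfold KQ
    calc ((704 * (Q * (32 * T ^ 2))) ^ d) ^ Q ≤ (((11264 * T ^ 2) ^ (2 * Q)) ^ d) ^ Q :=
          Nat.pow_le_pow_left (Nat.pow_le_pow_left h1 _) _
      _ = D ^ (2 * Q ^ 2) := by
          rw [hD, ← pow_mul, ← pow_mul, ← pow_mul]
          congr 1
          ring
  rw [Bd_eq]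
  have hB1 : (2 * Q) ^ (Q * a) ≤ (2 ^ a) ^ (Q ^ 2) := by
    calc (2 * Q) ^ (Q * a) ≤ (2 ^ Q) ^ (Q * a) :=
          Nat.pow_le_pow_left (two_mul_le_two_pow Q hQ) _
      _ = (2 ^ a) ^ (Q ^ 2) := by
          rw [← pow_mul, ← pow_mul]
          congr 1
          ring
  have hB2 : (8 * Q) ^ (Q * (a + T)) ≤ (2 ^ a) ^ (3 * Q ^ 2) * (2 ^ T) ^ (3 * Q ^ 2) := by
    calc (8 * Q) ^ (Q * (a + T)) ≤ (2 ^ (3 * Q)) ^ (Q * (a + T)) :=
          Nat.pow_le_pow_left (eight_mul_le Q hQ) _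
      _ = (2 ^ a) ^ (3 * Q ^ 2) * (2 ^ T) ^ (3 * Q ^ 2) := by
          rw [← pow_mul, ← pow_mul, ← pow_mul, ← pow_add]
          congr 1
          ring
  calc (2 * Q) ^ (Q * a) * ((8 * Q) ^ (Q * (a + T)) * (KQ Q d T * (2 * P))) ^ Q
      ≤ (2 ^ a) ^ (Q ^ 2) * ((2 ^ a) ^ (3 * Q ^ 2) * (2 ^ T) ^ (3 * Q ^ 2) *
          (D ^ (2 * Q ^ 2) * (2 * P))) ^ Q := by
        apply Nat.mul_le_mul hB1
        apply Nat.pow_le_pow_left
        exact Nat.mul_le_mul hB2 (Nat.mul_le_mul_right _ hK)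
    _ = (2 ^ a) ^ (Q ^ 2 + 3 * Q ^ 3) * (2 ^ T) ^ (3 * Q ^ 3) * D ^ (2 * Q ^ 3) * (2 * P) ^ Q := by
        rw [mul_pow, mul_pow, mul_pow, ← pow_mul, ← pow_mul, ← pow_mul]
        ring
    _ ≤ (2 ^ a) ^ (4 * Q ^ 3) * (2 ^ T) ^ (4 * Q ^ 3) * D ^ (4 * Q ^ 3) *
          (2 * P) ^ (4 * Q ^ 3) := by
        apply Nat.mul_le_mul _ (Nat.pow_le_pow_right (by omega) (by omega))
        apply Nat.mul_le_mul _ (Nat.pow_le_pow_right hD1 (by omega))
        apply Nat.mul_le_mul (Nat.pow_le_pow_right hX1 (by omega))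
          (Nat.pow_le_pow_right hY1 (by omega))
    _ = (2 ^ a * 2 ^ T * D * (2 * P)) ^ (4 * Q ^ 3) := by
        rw [mul_pow (2 ^ a * 2 ^ T * D) (2 * P), mul_pow (2 ^ a * 2 ^ T) D,
          mul_pow (2 ^ a) (2 ^ T)]
    _ ≤ _ := by
        apply Nat.pow_le_pow_left
        calc 2 ^ a * 2 ^ T * D * (2 * P) ≤ (a + k).choose a * 4 ^ (2 * T) * D * (2 * P) := by
              apply Nat.mul_le_mul_right
              apply Nat.mul_le_mul_right
              exact Nat.mul_le_mul hX hY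
          _ = _ := by ring

/-- Colourings of pairs with `Q` colours, the colour classes having VC-dimension at most `d`. -/
theorem asy_q : ∃ C : ℝ, 0 < C ∧ ∀ (κ : Type) [Fintype κ] (Q : ℕ), Fintype.card κ = Q → 1 ≤ Q →
    ∀ (V : Type) [Fintype V] (χ : V → V → κ) (hs : ∀ x y, χ x y = χ y x) (k d : ℕ),
      2 ≤ k → 1 ≤ d → 1 ≤ Fintype.card V → (∀ b, VCle (gr χ hs b) d) →
      (∀ b, (gr χ hs b).CliqueFree k) →
      Real.log (Fintype.card V) ≤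
        C * (Q : ℝ) ^ 3 * (d * Real.log (2 + (k : ℝ) / d) + Real.sqrt (k * Real.log k)) := by
  obtain ⟨C, hC, hasy⟩ := Pool.Agent.TH458.VCA2.t_ASY
  refine ⟨4 * (C + 1), by positivity, ?_⟩
  intro κ _ Q hQ hQ1 V _ χ hs k d hk hd hV hvc hcl
  set N := Fintype.card V with hN
  set C0 := 4 * Q ^ 3 with hC0
  have hQ3 : 1 ≤ Q ^ 3 := Nat.one_le_pow _ _ hQ1
  have hC01 : 1 ≤ C0 := by omega
  set n := Nat.findGreatest (fun x => x ^ C0 ≤ N) N with hn
  have hn1 : 1 ≤ n := Nat.le_findGreatest hV (by rw [one_pow]; exact hV)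
  have hnN : n ^ C0 ≤ N :=
    Nat.findGreatest_spec (P := fun x => x ^ C0 ≤ N) hV (by rw [one_pow]; exact hV)
  have hnN2 : N < (n + 1) ^ C0 := by
    by_contra hcon
    push Not at hcon
    have h1 : n + 1 ≤ N := (Nat.le_self_pow (by omega) _).trans hcon
    have h2 := Nat.le_findGreatest (P := fun x => x ^ C0 ≤ N) h1 hcon
    omega
  have hQ23 : Q ^ 2 ≤ C0 := by
    have : Q ^ 2 ≤ Q ^ 3 := Nat.pow_le_pow_right hQ1 (by norm_num)
    omega
  have hn2k : n < 2 ^ k := by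
    have h1 := triv_q Q hQ hQ1 k V χ hs hcl
    have h2 : (2 * Q) ^ (Q * k) ≤ (2 ^ k) ^ C0 := by
      calc (2 * Q) ^ (Q * k) ≤ (2 ^ Q) ^ (Q * k) :=
            Nat.pow_le_pow_left (two_mul_le_two_pow Q hQ1) _
        _ = (2 ^ k) ^ (Q ^ 2) := by
            rw [← pow_mul, ← pow_mul]
            congr 1
            ring
        _ ≤ (2 ^ k) ^ C0 := Nat.pow_le_pow_right Nat.one_le_two_pow hQ23
    exact lt_of_pow_lt_pow_left₀ C0 (Nat.zero_le _) (hnN.trans_lt (h1.trans_le h2))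
  have hn4k : n < 4 ^ k := hn2k.trans_le (Nat.pow_le_pow_left (by norm_num) _)
  have hE : ∀ a T : ℕ, 1 ≤ a → 1 ≤ T → 2 * k ≤ T * a →
      n < 4 ^ (2 * T) * (2 * (11264 * T ^ 2) ^ d * Phi (T * a) d * (a + k).choose a) := by
    intro a T ha hT hkT
    rcases Nat.lt_or_ge k a with hka | hka
    · refine hn2k.trans_le ?_
      have h1 := two_pow_le_choose a k hka.le
      rw [Nat.choose_symm_add.symm] at h1
      have h2 := Phi_pos (T * a) d
      have h3 : 1 ≤ (11264 * T ^ 2) ^ d := Nat.one_le_pow _ _ (by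
        have : 1 ≤ T ^ 2 := Nat.one_le_pow _ _ hT
        omega)
      have h4 : 1 ≤ 4 ^ (2 * T) := Nat.one_le_pow _ _ (by norm_num)
      have h5 : 1 ≤ 4 ^ (2 * T) * (2 * (11264 * T ^ 2) ^ d * Phi (T * a) d) :=
        Nat.mul_pos h4 (Nat.mul_pos (by omega) h2)
      calc 2 ^ k ≤ (a + k).choose a := h1
        _ ≤ (4 ^ (2 * T) * (2 * (11264 * T ^ 2) ^ d * Phi (T * a) d)) * (a + k).choose a :=
            Nat.le_mul_of_pos_left _ h5
        _ = _ := by ring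
    · have h1 := fin_q' Q hQ hQ1 d k a T hd ha hT hkT V χ hs hvc hcl
      have h2 := Bd_le Q d a k T hQ1 hT hka
      exact lt_of_pow_lt_pow_left₀ C0 (Nat.zero_le _) (hnN.trans_lt (h1.trans_le h2))
  have h1 := hasy n k d hn1 hk hd hn4k hE
  set X := d * Real.log (2 + (k : ℝ) / d) + Real.sqrt (k * Real.log k) with hX
  have hd0 : (1 : ℝ) ≤ d := by exact_mod_cast hd
  have hl2 : Real.log 2 ≤ X := by
    have h2 : Real.log 2 ≤ Real.log (2 + (k : ℝ) / d) :=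
      Real.log_le_log (by norm_num) (by linarith [show (0 : ℝ) ≤ (k : ℝ) / d by positivity])
    have h3 : 0 ≤ Real.sqrt (k * Real.log k) := Real.sqrt_nonneg _
    have h4 : 0 < Real.log 2 := Real.log_pos (by norm_num)
    nlinarith
  have hN0 : (0 : ℝ) < N := by exact_mod_cast hV
  have hn0 : (1 : ℝ) ≤ n := by exact_mod_cast hn1
  have h2 : Real.log N ≤ C0 * (Real.log n + Real.log 2) := by
    rw [← Real.log_mul (by positivity) (by norm_num), ← Real.log_pow]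
    apply Real.log_le_log hN0
    have h3 : (N : ℝ) ≤ ((n : ℝ) + 1) ^ C0 := by exact_mod_cast hnN2.le
    exact h3.trans (pow_le_pow_left₀ (by positivity) (by linarith) _)
  have h3 : (C0 : ℝ) = 4 * (Q : ℝ) ^ 3 := by rw [hC0]; push_cast; ring
  rw [h3] at h2
  have h4 : (0 : ℝ) ≤ 4 * (Q : ℝ) ^ 3 := by positivity
  calc Real.log N ≤ 4 * (Q : ℝ) ^ 3 * (Real.log n + Real.log 2) := h2
    _ ≤ 4 * (Q : ℝ) ^ 3 * (C * X + X) := mul_le_mul_of_nonneg_left (by linarith) h4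
    _ = 4 * (C + 1) * (Q : ℝ) ^ 3 * X := by ring

end Pool.Agent.Y424.LK
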