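import Pool.Agent.TH458.VC.Pick

/-!
# Many colours: clusters
-/

set_option autoImplicit false

namespace Pool.Agent.Y424.LK

open Finset Pool.Agent.W842.BV
open Pool.Agent.TH458.VC (VCle Shat Phi diffOn haus Wr wr sum_wr markov Phi_mono Phi_pos)

/-- The colour classes of a colouring of pairs. -/
def gr {V κ : Type} (χ : V → V → κ) (hs : ∀ x y, χ x y = χ y x) (a : κ) : SimpleGraph V where
  Adj x y := x ≠ y ∧ χ x y = a
  symm := ⟨fun x y h => ⟨h.1.symm, by rw [hs]; exact h.2⟩⟩
  loopless := ⟨fun _ h => h.1 rfl⟩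

open scoped Classical in
theorem diffOn_comm {V : Type} (G : SimpleGraph V) (A : Finset V) (f g : V) :
    (diffOn G A f g).card = (diffOn G A g f).card := by
  congr 1
  unfold diffOn
  apply Finset.filter_congr
  intro x _
  exact not_congr Iff.comm

open scoped Classical in
theorem diffOn_tri {V : Type} (G : SimpleGraph V) (A : Finset V) (f g h : V) :
    (diffOn G A g h).card ≤ (diffOn G A f g).card + (diffOn G A f h).card := by
  refine le_trans (card_le_card ?_) (card_union_le _ _)
  intro x hx
  unfold diffOn at hx ⊢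
  rw [mem_filter] at hx
  rw [mem_union, mem_filter, mem_filter]
  by_cases h1 : (G.Adj f x ↔ G.Adj g x)
  · right
    refine ⟨hx.1, fun h2 => hx.2 ?_⟩
    rw [← h1, h2]
  · left
    exact ⟨hx.1, h1⟩

open scoped Classical in
/-- The separated sets are small. -/
theorem sep_card {V : Type} (G : SimpleGraph V) {d : ℕ} (hd : VCle G d)
    (A : Finset V) (r : ℕ) (hr : 1 ≤ r) (hrA : r ≤ A.card) (F : Finset V)
    (hFP : ∀ f ∈ F, ∀ g ∈ F, f ≠ g → r ≤ (diffOn G A f g).card) :
    (F.card : ℝ) ≤ (22 * A.card / r) ^ d := by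
  let tr : V → Finset {x // x ∈ A} := fun f => univ.filter (fun x => G.Adj f x)
  have hsd : ∀ f g, (symmDiff (tr f) (tr g)).card = (diffOn G A f g).card := by
    intro f g
    have h1 : ((symmDiff (tr f) (tr g)).map (Function.Embedding.subtype (· ∈ A))) =
        diffOn G A f g := by
      ext x
      simp only [mem_map, mem_symmDiff, tr, mem_filter, mem_univ, true_and, diffOn,
        Function.Embedding.coe_subtype, Subtype.exists, exists_and_right, exists_eq_right]
      constructor
      · rintro ⟨hx, h⟩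
        exact ⟨hx, by tauto⟩
      · rintro ⟨hx, h⟩
        exact ⟨hx, by tauto⟩
    rw [← h1, card_map]
  have hinj : Set.InjOn tr F := by
    intro f hf g hg hfg
    by_contra hne
    have h1 := hFP f hf g hg hne
    rw [← hsd, hfg, symmDiff_self] at h1
    simp at h1
    omega
  have h2 := haus {x // x ∈ A} (F.image tr) r hr (by
    intro a ha b hb hab
    rw [mem_image] at ha hb
    obtain ⟨f, hf, rfl⟩ := ha
    obtain ⟨g, hg, rfl⟩ := hb
    rw [hsd]
    exact hFP f hf g hg (fun h => hab (by rw [h]))) (by simpa using hrA)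
  rw [card_image_of_injOn hinj] at h2
  have hvc : (F.image tr).vcDim ≤ d := by
    unfold Finset.vcDim
    apply Finset.sup_le
    intro s hs
    rw [mem_shatterer] at hs
    have h3 := hd (s.map (Function.Embedding.subtype (· ∈ A))) (by
      intro T hT
      have h4 : (s.filter (fun x : {x // x ∈ A} => x.1 ∈ T)) ⊆ s := filter_subset _ _
      obtain ⟨u, hu, hsu⟩ := hs h4
      rw [mem_image] at hu
      obtain ⟨f, hf, rfl⟩ := hu
      refine ⟨f, ?_⟩
      intro x hx
      rw [mem_map] at hx
      obtain ⟨y, hy, rfl⟩ := hx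
      have h5 : y ∈ s ∩ tr f ↔ y ∈ s.filter (fun x : {x // x ∈ A} => x.1 ∈ T) := by rw [hsu]
      simp only [mem_inter, hy, true_and, tr, mem_filter, mem_univ] at h5
      exact h5)
    rwa [card_map] at h3
  have hr0 : (0 : ℝ) < r := by exact_mod_cast hr
  have hbase : (1 : ℝ) ≤ 22 * A.card / r := by
    rw [le_div_iff₀ hr0]
    have : (r : ℝ) ≤ A.card := by exact_mod_cast hrA
    linarith
  refine h2.trans ?_
  rw [Fintype.card_coe]
  exact pow_le_pow_right₀ hbase hvc

open scoped Classical in
/-- Clusters inside a set `P` of points, with respect to the neighbourhoods on `A`. -/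
theorem cluster' {V : Type} (G : SimpleGraph V) {d : ℕ} (hd : VCle G d)
    (A P : Finset V) (r : ℕ) (hr : 1 ≤ r) (hrA : r ≤ A.card) :
    ∃ W ⊆ P, (P.card : ℝ) ≤ (22 * A.card / r) ^ d * W.card ∧
      ∀ w ∈ W, ∀ w' ∈ W, (diffOn G A w w').card < 2 * r := by
  rcases P.eq_empty_or_nonempty with hP | hP
  · refine ⟨∅, empty_subset _, by rw [hP]; simp, by simp⟩
  let Q : Finset V → Prop := fun F => ∀ f ∈ F, ∀ g ∈ F, f ≠ g → r ≤ (diffOn G A f g).card
  obtain ⟨F, hF, hmax⟩ := Finset.exists_max_image (P.powerset.filter Q) Finset.card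
    ⟨∅, by simp [Q]⟩
  rw [mem_filter, mem_powerset] at hF
  obtain ⟨hFA, hFP⟩ := hF
  have hcov : ∀ a ∈ P, ∃ f ∈ F, (diffOn G A f a).card < r := by
    intro a ha
    by_cases haF : a ∈ F
    · refine ⟨a, haF, ?_⟩
      have : diffOn G A a a = ∅ := by
        unfold diffOn
        rw [Finset.filter_eq_empty_iff]
        intro x _
        simp
      rw [this, card_empty]
      omega
    · by_contra hcon
      push Not at hcon
      have hins : insert a F ∈ P.powerset.filter Q := by
        rw [mem_filter, mem_powerset]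
        refine ⟨insert_subset ha hFA, ?_⟩
        intro f hf g hg hfg
        rw [mem_insert] at hf hg
        rcases hf with rfl | hf <;> rcases hg with rfl | hg
        · exact absurd rfl hfg
        · rw [diffOn_comm]; exact hcon g hg
        · exact hcon f hf
        · exact hFP f hf g hg hfg
      have := hmax _ hins
      rw [card_insert_of_notMem haF] at this
      omega
  have hFcard := sep_card G hd A r hr hrA F hFP
  have hFne : F.Nonempty := by
    obtain ⟨a, ha⟩ := hP
    obtain ⟨f, hf, -⟩ := hcov a ha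
    exact ⟨f, hf⟩
  have hsum : P.card ≤ ∑ f ∈ F, (P.filter (fun a => (diffOn G A f a).card < r)).card := by
    refine le_trans (card_le_card ?_) card_biUnion_le
    intro a ha
    rw [mem_biUnion]
    obtain ⟨f, hf, h⟩ := hcov a ha
    exact ⟨f, hf, by rw [mem_filter]; exact ⟨ha, h⟩⟩
  obtain ⟨f, hf, hfmax⟩ := Finset.exists_max_image F
    (fun f => (P.filter (fun a => (diffOn G A f a).card < r)).card) hFne
  refine ⟨P.filter (fun a => (diffOn G A f a).card < r), filter_subset _ _, ?_, ?_⟩
  · have h1 : P.card ≤ F.card * (P.filter (fun a => (diffOn G A f a).card < r)).card := by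
      refine hsum.trans ?_
      rw [← smul_eq_mul]
      exact Finset.sum_le_card_nsmul _ _ _ (fun g hg => hfmax g hg)
    have h2 : (P.card : ℝ) ≤
        F.card * ((P.filter (fun a => (diffOn G A f a).card < r)).card : ℝ) := by
      exact_mod_cast h1
    refine h2.trans ?_
    exact mul_le_mul_of_nonneg_right hFcard (Nat.cast_nonneg _)
  · intro w hw w' hw'
    rw [mem_filter] at hw hw'
    have := diffOn_tri G A f w w'
    omega

/-- Clusters for several graphs at the same time. -/
theorem cluster_many {V κ : Type} (G : κ → SimpleGraph V) {d : ℕ} (hd : ∀ a, VCle (G a) d)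
    (A : Finset V) (r : ℕ) (hr : 1 ≤ r) (hrA : r ≤ A.card) (s : Finset κ) :
    ∀ P : Finset V, ∃ W ⊆ P, (P.card : ℝ) ≤ ((22 * A.card / r) ^ d) ^ s.card * W.card ∧
      ∀ a ∈ s, ∀ w ∈ W, ∀ w' ∈ W, (diffOn (G a) A w w').card < 2 * r := by
  classical
  induction s using Finset.induction_on with
  | empty =>
    intro P
    exact ⟨P, Subset.rfl, by simp, by simp⟩
  | insert a s ha ih =>
    intro P
    obtain ⟨W1, h1, h2, h3⟩ := ih P
    obtain ⟨W2, k1, k2, k3⟩ := cluster' (G a) (hd a) A W1 r hr hrA
    refine ⟨W2, k1.trans h1, ?_, ?_⟩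
    · rw [card_insert_of_notMem ha, pow_succ, mul_assoc]
      refine h2.trans ?_
      exact mul_le_mul_of_nonneg_left k2 (by positivity)
    · intro b hb w hw w' hw'
      rcases mem_insert.1 hb with rfl | hb
      · exact k3 w hw w' hw'
      · exact h3 b hb w (k1 hw) w' (k1 hw')

end Pool.Agent.Y424.LK
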