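import Pool.Agent.TH138.NF.Defs

/-!
# Links and VC-dimension of colourings with any number of colours: definitions
-/

set_option autoImplicit false

namespace Pool.Agent.Y424.LK

open Finset

/-- On the subsets of `U` with `s + 2` elements the colouring only depends on the two smallest
elements, in the way of the link of `S`. -/
def LinkOn (s : ℕ) {κ : Type} (c : Finset ℕ → κ) (U S : Finset ℕ) : Prop :=
  ∀ A ⊆ U, A.card = s + 2 → ∀ x ∈ A, ∀ y ∈ A, x < y → (∀ z ∈ A, z = x ∨ y ≤ z) →
    c A = c (insert x (insert y S))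

/-- The vertices `x ∉ A` for which `A ∪ {x}` has the colour `a` form the neighbourhood of `A` in the
colour `a`. `Z` is shattered by these neighbourhoods of the sets of the family `F`. -/
def ShatteredBy {κ : Type} (c : Finset ℕ → κ) (a : κ) (F : Set (Finset ℕ)) (Z : Finset ℕ) : Prop :=
  ∀ T ⊆ Z, ∃ A ∈ F, ∀ x ∈ Z, ((x ∉ A ∧ c (insert x A) = a) ↔ x ∈ T)

/-- The graph of the colour `a` in the link of `S`, with vertex set `U`. -/
def colourLink {κ : Type} (c : Finset ℕ → κ) (a : κ) (U S : Finset ℕ) :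
    SimpleGraph {x // x ∈ U} where
  Adj x y := x ≠ y ∧ c (insert x.1 (insert y.1 S)) = a
  symm := ⟨fun x y h => ⟨h.1.symm, by rw [Finset.insert_comm]; exact h.2⟩⟩
  loopless := ⟨fun x h => h.1 rfl⟩

/-- towers of twos -/
def twr : ℕ → ℕ → ℕ
  | 0, x => x
  | k + 1, x => 2 ^ twr k x

end Pool.Agent.Y424.LK
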