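import Pool.Agent.Y424.LK.QStep

/-!
# Many colours: the finite bound
-/

set_option autoImplicit false

namespace Pool.Agent.Y424.LK

open Finset
open Pool.Agent.TH458.VC (VCle Shat Phi diffOn Wr wr sum_wr markov Phi_mono Phi_pos)

open scoped Classical in
/-- Ramsey's theorem for several colours. -/
theorem ram {V κ : Type} [Fintype κ] (χ : V → V → κ) (hs : ∀ x y, χ x y = χ y x) (Q : ℕ)
    (hQ : Fintype.card κ = Q) (hQ1 : 1 ≤ Q) :
    ∀ (n : ℕ) (t : κ → ℕ), ∑ a, t a = n → ∀ A : Finset V, (2 * Q) ^ n ≤ A.card →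
      ∃ c, ∃ S ⊆ A, S.card = t c ∧ (gr χ hs c).IsClique (S : Set V) := by
  have hκ : Nonempty κ := Fintype.card_pos_iff.1 (by omega)
  intro n
  induction n with
  | zero =>
    intro t ht A _
    obtain ⟨c⟩ := hκ
    have h0 : t c = 0 := by
      have h1 : t c ≤ ∑ a, t a := Finset.single_le_sum (fun _ _ => Nat.zero_le _) (mem_univ c)
      omega
    exact ⟨c, ∅, empty_subset _, by rw [h0]; rfl, by simp⟩
  | succ n ih =>
    intro t ht A hA
    by_cases hall : ∃ c, t c = 0
    · obtain ⟨c, hc⟩ := hall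
      exact ⟨c, ∅, empty_subset _, by rw [hc]; rfl, by simp⟩
    push Not at hall
    have h8 : 1 ≤ (2 * Q) ^ n := Nat.one_le_pow _ _ (by omega)
    have hA2 : (2 * Q) ^ (n + 1) = Q * (2 * Q) ^ n + Q * (2 * Q) ^ n := by ring
    have hQn : 1 ≤ Q * (2 * Q) ^ n := Nat.mul_pos hQ1 h8
    obtain ⟨v, hv⟩ : A.Nonempty := by rw [← card_pos]; omega
    obtain ⟨c, -, hc⟩ := exists_le_card_fiber_of_mul_le_card_of_maps_to (s := A.erase v)
      (t := (univ : Finset κ)) (f := fun x => χ v x) (n := (2 * Q) ^ n) (fun _ _ => mem_univ _)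
      univ_nonempty (by
        rw [card_univ, hQ, card_erase_of_mem hv]
        omega)
    have htc : 1 ≤ t c := Nat.one_le_iff_ne_zero.2 (hall c)
    set t' := Function.update t c (t c - 1) with ht'
    have htsum : ∑ a, t' a = n := by
      have e1 : ∑ a, t a = t c + ∑ a ∈ univ.erase c, t a := (add_sum_erase _ _ (mem_univ c)).symm
      have e2 : ∑ a, t' a = t' c + ∑ a ∈ univ.erase c, t' a :=
        (add_sum_erase _ _ (mem_univ c)).symm
      have e3 : ∑ a ∈ univ.erase c, t' a = ∑ a ∈ univ.erase c, t a := by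
        apply sum_congr rfl
        intro a ha
        rw [ht', Function.update_of_ne (ne_of_mem_erase ha)]
      have e4 : t' c = t c - 1 := by rw [ht', Function.update_self]
      omega
    obtain ⟨c1, S, hS, hSc, hScl⟩ := ih t' htsum _ hc
    have hSv : ∀ x ∈ S, x ∈ A ∧ x ≠ v ∧ χ v x = c := by
      intro x hx
      have := hS hx
      rw [mem_filter, mem_erase] at this
      exact ⟨this.1.2, this.1.1, this.2⟩
    by_cases hcc : c1 = c
    · subst hcc
      have hvS : v ∉ S := fun h => (hSv v h).2.1 rfl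
      refine ⟨c1, insert v S, ?_, ?_, ?_⟩
      · exact insert_subset hv (fun x hx => (hSv x hx).1)
      · rw [card_insert_of_notMem hvS, hSc, ht', Function.update_self]
        omega
      · rw [coe_insert, SimpleGraph.isClique_insert]
        refine ⟨hScl, fun y hy _ => ?_⟩
        exact ⟨fun e => (hSv y hy).2.1 e.symm, (hSv y hy).2.2⟩
    · refine ⟨c1, S, fun x hx => (hSv x hx).1, ?_, hScl⟩
      rw [hSc, ht', Function.update_of_ne hcc]

/-- the size of a cluster -/
def KQ (Q d T : ℕ) : ℕ := ((704 * (Q * (32 * T ^ 2))) ^ d) ^ Q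

/-- the bound -/
def Bd (Q d a T : ℕ) : ℕ → ℕ
  | 0 => (2 * Q) ^ (Q * a)
  | m + 1 => (8 * Q) ^ (Q * (a + T)) * (KQ Q d T * (2 * Phi (T * a) d * Bd Q d a T m))

theorem Bd_pos (Q d a T : ℕ) (hQ : 1 ≤ Q) (hT : 1 ≤ T) : ∀ m, 1 ≤ Bd Q d a T m
  | 0 => Nat.one_le_pow _ _ (by omega)
  | m + 1 => by
    have h1 := Bd_pos Q d a T hQ hT m
    have h2 := Phi_pos (T * a) d
    have h3 : 1 ≤ (8 * Q) ^ (Q * (a + T)) := Nat.one_le_pow _ _ (by omega)
    have h4 : 1 ≤ KQ Q d T := by
      unfold KQ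
      apply Nat.one_le_pow
      apply Nat.pow_pos
      have : 1 ≤ T ^ 2 := Nat.one_le_pow _ _ hT
      have : 1 ≤ Q * (32 * T ^ 2) := Nat.mul_pos hQ (by omega)
      omega
    exact Nat.mul_pos h3 (Nat.mul_pos h4 (Nat.mul_pos (by omega) h1))

/-- Restriction of the colouring. -/
theorem vc_restrict {V κ : Type} (χ : V → V → κ) (hs : ∀ x y, χ x y = χ y x) (Z : Finset V)
    (b : κ) {d : ℕ} (hd : VCle (gr χ hs b) d) :
    VCle (gr (fun x y : {x // x ∈ Z} => χ x.1 y.1) (fun x y => hs x.1 y.1) b) d := by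
  intro S hS
  have h1 := hd (S.map (Function.Embedding.subtype (· ∈ Z))) (by
    classical
    intro T hT
    obtain ⟨v, hv⟩ := hS (S.filter (fun x => x.1 ∈ T)) (filter_subset _ _)
    refine ⟨v.1, ?_⟩
    intro x hx
    rw [mem_map] at hx
    obtain ⟨y, hy, rfl⟩ := hx
    have h2 := hv y hy
    rw [mem_filter] at h2
    simp only [hy, true_and] at h2
    rw [Function.Embedding.subtype_apply, ← h2]
    show (v.1 ≠ y.1 ∧ χ v.1 y.1 = b) ↔ (v ≠ y ∧ χ v.1 y.1 = b)
    rw [Ne, Ne, Subtype.ext_iff])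
  rwa [card_map] at h1

theorem clique_restrict {V κ : Type} (χ : V → V → κ) (hs : ∀ x y, χ x y = χ y x) (Z : Finset V)
    (b : κ) (S : Finset {x // x ∈ Z})
    (hS : (gr (fun x y : {x // x ∈ Z} => χ x.1 y.1) (fun x y => hs x.1 y.1) b).IsClique
      (S : Set {x // x ∈ Z})) :
    (gr χ hs b).IsClique ((S.map (Function.Embedding.subtype (· ∈ Z)) : Finset V) : Set V) := by
  intro x hx y hy hxy
  rw [mem_coe, mem_map] at hx hy
  obtain ⟨x', hx', rfl⟩ := hx
  obtain ⟨y', hy', rfl⟩ := hy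
  have h := hS (by exact_mod_cast hx') (by exact_mod_cast hy') (fun e => hxy (by rw [e]))
  exact ⟨hxy, h.2⟩

open scoped Classical in
/-- The finite bound. -/
theorem fin_q {κ : Type} [Fintype κ] (Q : ℕ) (hQ : Fintype.card κ = Q) (hQ1 : 1 ≤ Q)
    (d k a T : ℕ) (hd1 : 1 ≤ d) (ha : 1 ≤ a) (hT : 1 ≤ T) (hk : 2 * k ≤ T * a) :
    ∀ (m : ℕ) (J : Finset κ), Jᶜ.card = m → ∀ (V : Type) [Fintype V] (χ : V → V → κ)
      (hs : ∀ x y, χ x y = χ y x), (∀ b, VCle (gr χ hs b) d) →
      Bd Q d a T m ≤ Fintype.card V →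
      (∃ c ∈ J, ∃ S : Finset V, S.card = a ∧ (gr χ hs c).IsClique (S : Set V)) ∨
      (∃ c ∉ J, ∃ S : Finset V, S.card = k ∧ (gr χ hs c).IsClique (S : Set V)) := by
  intro m
  induction m with
  | zero =>
    intro J hJ V _ χ hs hd hV
    obtain ⟨c, S, -, hS, hS2⟩ := ram χ hs Q hQ hQ1 (Q * a) (fun _ => a)
      (by rw [sum_const, card_univ, hQ, smul_eq_mul]) univ (by rw [card_univ]; exact hV)
    rw [card_eq_zero, compl_eq_empty_iff] at hJ
    exact Or.inl ⟨c, by rw [hJ]; exact mem_univ _, S, hS, hS2⟩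
  | succ m ih =>
    intro J hJ V _ χ hs hd hV
    by_contra hcon
    rw [not_or] at hcon
    obtain ⟨hcon1, hcon2⟩ := hcon
    set q := 32 * T ^ 2 with hq
    have hT2 : 1 ≤ T ^ 2 := Nat.one_le_pow _ _ hT
    set M := 2 * Phi (T * a) d * Bd Q d a T m with hM
    have hM1 : 1 ≤ M := Nat.mul_pos (by have := Phi_pos (T * a) d; omega)
      (Bd_pos Q d a T hQ1 hT m)
    have hKdef : KQ Q d T = ((704 * (Q * q)) ^ d) ^ Q := rfl
    have hKpos : 704 * (Q * q) ≤ KQ Q d T := by
      rw [hKdef]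
      calc 704 * (Q * q) ≤ (704 * (Q * q)) ^ d := Nat.le_self_pow (by omega) _
        _ ≤ ((704 * (Q * q)) ^ d) ^ Q := Nat.le_self_pow (by omega) _
    have hQq : 1 ≤ Q * q := Nat.mul_pos hQ1 (by omega)
    set t : κ → ℕ := fun c => if c ∈ J then a else T with ht
    have htsum : ∑ c, t c ≤ Q * (a + T) := by
      calc ∑ c, t c ≤ (univ : Finset κ).card • (a + T) := by
            apply sum_le_card_nsmul
            intro c _
            simp only [ht]
            split_ifs <;> omega
        _ = Q * (a + T) := by rw [card_univ, hQ, smul_eq_mul]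
    have hm0 : 32 * (Q * q) ≤ KQ Q d T * M := by
      calc 32 * (Q * q) ≤ KQ Q d T := by omega
        _ ≤ KQ Q d T * M := Nat.le_mul_of_pos_right _ hM1
    have hA : (8 * Q) ^ (∑ c, t c) * (KQ Q d T * M) ≤ (univ : Finset V).card := by
      rw [card_univ]
      refine le_trans ?_ hV
      exact Nat.mul_le_mul_right _ (Nat.pow_le_pow_right (by omega) htsum)
    rcases seq_q χ hs hd1 hd q (by omega) Q hQ hQ1 (KQ Q d T * M) hm0 J _ t rfl univ hA with
      ⟨c, hc, S, -, hS, hS2⟩ | ⟨c, hc, U, hU, hU2⟩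
    · refine hcon1 ⟨c, hc, S, ?_, hS2⟩
      rw [hS, ht]
      simp [hc]
    · have htc : t c = T := by
        rw [ht]
        simp [hc]
      rw [htc] at hU hU2
      have hJc : (insert c J)ᶜ.card = m := by
        have h1 := Finset.card_compl_add_card (insert c J)
        have h2 := Finset.card_compl_add_card J
        rw [card_insert_of_notMem hc] at h1
        omega
      obtain ⟨J', hJ', hJ'c⟩ := Pool.Agent.TH458.VC.pick (gr χ hs c) (hd c) true T a
        (Bd Q d a T m) hT ha U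
        (by
          intro i hi
          have h1 := (hU i hi).2
          rw [← hKdef] at h1
          exact Nat.le_of_mul_le_mul_left h1 (by omega))
        (fun i j hij hj => (hU2 i j hij hj).1)
        (fun i j hij hj y hy => (hU2 i j hij hj).2 y hy)
        (by
          intro Z hZ
          rcases ih (insert c J) hJc {x // x ∈ Z} (fun x y => χ x.1 y.1)
            (fun x y => hs x.1 y.1) (fun b => vc_restrict χ hs Z b (hd b))
            (by rw [Fintype.card_coe]; exact hZ) with ⟨c', hc', S, hS, hS2⟩ | ⟨c', hc', S, hS, hS2⟩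
          · rw [mem_insert] at hc'
            have h1 := clique_restrict χ hs Z c' S hS2
            rcases hc' with rfl | hc'
            · refine ⟨S.map (Function.Embedding.subtype (· ∈ Z)), ?_, by rw [card_map, hS], ?_⟩
              · intro x hx
                rw [mem_map] at hx
                obtain ⟨y, _, rfl⟩ := hx
                exact y.2
              · intro x hx y hy hxy
                have h2 := h1 (by exact_mod_cast hx) (by exact_mod_cast hy) hxy
                unfold Wr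
                simp [h2]
            · exact absurd ⟨c', hc', S.map (Function.Embedding.subtype (· ∈ Z)),
                by rw [card_map, hS], h1⟩ hcon1
          · have h1 := clique_restrict χ hs Z c' S hS2
            exact absurd ⟨c', fun h => hc' (mem_insert_of_mem h),
              S.map (Function.Embedding.subtype (· ∈ Z)), by rw [card_map, hS], h1⟩ hcon2)
      obtain ⟨S, hS, hSk⟩ := Finset.exists_subset_card_eq (show k ≤ J'.card by omega)
      refine hcon2 ⟨c, hc, S, hSk, ?_⟩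
      intro x hx y hy hxy
      have h1 := hJ'c x (hS (by exact_mod_cast hx)) y (hS (by exact_mod_cast hy)) hxy
      unfold Wr at h1
      simpa using h1

/-- The finite bound for colourings without large cliques. -/
theorem fin_q' {κ : Type} [Fintype κ] (Q : ℕ) (hQ : Fintype.card κ = Q) (hQ1 : 1 ≤ Q)
    (d k a T : ℕ) (hd1 : 1 ≤ d) (ha : 1 ≤ a) (hT : 1 ≤ T) (hk : 2 * k ≤ T * a)
    (V : Type) [Fintype V] (χ : V → V → κ) (hs : ∀ x y, χ x y = χ y x)
    (hd : ∀ b, VCle (gr χ hs b) d) (hc : ∀ b, (gr χ hs b).CliqueFree k) :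
    Fintype.card V < Bd Q d a T Q := by
  classical
  by_contra hcon
  push Not at hcon
  rcases fin_q Q hQ hQ1 d k a T hd1 ha hT hk Q ∅ (by rw [compl_empty, card_univ, hQ]) V χ hs hd
    hcon with ⟨c, h, -⟩ | ⟨c, -, S, hS, hS2⟩
  · exact absurd h (notMem_empty c)
  · exact hc c S ⟨hS2, hS⟩

/-- The trivial bound. -/
theorem triv_q {κ : Type} [Fintype κ] (Q : ℕ) (hQ : Fintype.card κ = Q) (hQ1 : 1 ≤ Q) (k : ℕ)
    (V : Type) [Fintype V] (χ : V → V → κ) (hs : ∀ x y, χ x y = χ y x)
    (hc : ∀ b, (gr χ hs b).CliqueFree k) :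
    Fintype.card V < (2 * Q) ^ (Q * k) := by
  classical
  by_contra hcon
  push Not at hcon
  obtain ⟨c, S, -, hS, hS2⟩ := ram χ hs Q hQ hQ1 (Q * k) (fun _ => k)
    (by rw [sum_const, card_univ, hQ, smul_eq_mul]) univ (by rw [card_univ]; exact hcon)
  exact hc c S ⟨hS2, hS⟩

end Pool.Agent.Y424.LK
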