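import Pool.Agent.Y424.LK.QAsy
import Pool.Agent.TH458.VC.Cor

/-!
# Many colours: colourings of pairs without large cliques have large VC-dimension
-/

set_option autoImplicit false

namespace Pool.Agent.Y424.LK

open Finset
open Pool.Agent.TH458.VC (VCle Shat)

theorem large_q : ∃ c₀ : ℝ, 0 < c₀ ∧ ∀ (Q : ℕ) (θ : ℝ), 1 ≤ Q → 0 < θ → θ ≤ 1 →
    ∃ K : ℕ, ∀ k : ℕ, K ≤ k → ∀ (κ : Type) [Fintype κ], Fintype.card κ = Q →
      ∀ (V : Type) [Fintype V] (χ : V → V → κ) (hs : ∀ x y, χ x y = χ y x),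
      (∀ b, (gr χ hs b).CliqueFree k) → Real.exp (θ * k) ≤ Fintype.card V →
      ∃ (b : κ) (S : Finset V), Shat (gr χ hs b) S ∧
        c₀ * θ / ((Q : ℝ) ^ 3 * Real.log (2 * Q / θ)) * k ≤ S.card := by
  obtain ⟨C, hC, h⟩ := asy_q
  set s : ℝ := 1 / (24 * (C + 1)) with hs
  have hs0 : 0 < s := by positivity
  have hs1 : s ≤ 1 / 24 := by
    rw [hs]
    apply one_div_le_one_div_of_le (by norm_num)
    linarith
  have hCs : 24 * C * s < 1 := by
    rw [hs, mul_one_div, div_lt_one (by positivity)]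
    linarith
  refine ⟨s ^ 2, by positivity, fun Q θ hQ hθ hθ1 => ?_⟩
  have hQr : (1 : ℝ) ≤ Q := by exact_mod_cast hQ
  have hQ3 : (1 : ℝ) ≤ (Q : ℝ) ^ 3 := one_le_pow₀ hQr
  have hl2 : (1 : ℝ) / 2 ≤ Real.log 2 := by
    have := Real.log_two_gt_d9
    linarith
  set L := Real.log (2 * Q / θ) with hL
  have hLge : (1 : ℝ) / 2 ≤ L := by
    apply hl2.trans
    apply Real.log_le_log (by norm_num)
    rw [le_div_iff₀ hθ]; nlinarith
  have hL0 : 0 < L := by linarith
  set ε := s ^ 2 * θ / ((Q : ℝ) ^ 3 * L) with hε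
  have hε0 : 0 < ε := by positivity
  have hε1 : ε ≤ 1 := by
    rw [hε, div_le_one (by positivity)]
    have h1 : s ^ 2 * θ ≤ (1 / 24) ^ 2 * 1 := by
      apply mul_le_mul _ hθ1 hθ.le (by positivity)
      exact pow_le_pow_left₀ hs0.le hs1 2
    have h2 : 1 * (1 / 2) ≤ (Q : ℝ) ^ 3 * L := mul_le_mul hQ3 hLge (by norm_num) (by positivity)
    linarith
  have hlogε : Real.log (2 / ε) ≤ 4 * L + 2 / s := by
    have h1 : 2 / ε = (2 * (Q : ℝ) ^ 3 / θ) * L * (1 / s) ^ 2 := by
      rw [hε]; field_simp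
    have h0 : Real.log (2 * (Q : ℝ) ^ 3 / θ) ≤ 3 * L := by
      have h3 : (3 : ℝ) * L = Real.log ((2 * Q / θ) ^ 3) := by
        rw [Real.log_pow, ← hL]; norm_num
      rw [h3]
      apply Real.log_le_log (by positivity)
      rw [div_pow, div_le_div_iff₀ hθ (by positivity)]
      have h4 : θ ^ 3 ≤ θ * 1 := by
        have : θ ^ 3 = θ * (θ * θ) := by ring
        rw [this]
        apply mul_le_mul_of_nonneg_left _ hθ.le
        nlinarith
      calc 2 * (Q : ℝ) ^ 3 * θ ^ 3 ≤ 2 * (Q : ℝ) ^ 3 * (θ * 1) :=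
            mul_le_mul_of_nonneg_left h4 (by positivity)
        _ ≤ (2 * Q) ^ 3 * θ := by
            have : (0 : ℝ) ≤ (Q : ℝ) ^ 3 * θ := by positivity
            nlinarith
    have h2 : Real.log (2 / ε) = Real.log (2 * (Q : ℝ) ^ 3 / θ) + Real.log L +
        2 * Real.log (1 / s) := by
      rw [h1, Real.log_mul (by positivity) (by positivity),
        Real.log_mul (by positivity) (by positivity), Real.log_pow]
      push_cast
      ring
    have h3 : Real.log L ≤ L := (Real.log_le_sub_one_of_pos hL0).trans (by linarith)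
    have h4 : Real.log (1 / s) ≤ 1 / s :=
      (Real.log_le_sub_one_of_pos (by positivity)).trans (by linarith)
    have h5 : (2 : ℝ) / s = 2 * (1 / s) := by ring
    rw [h2, h5]
    linarith
  have hprod : C * (Q : ℝ) ^ 3 * (3 * (ε * Real.log (2 / ε))) < θ := by
    have h1 : (Q : ℝ) ^ 3 * (3 * (ε * Real.log (2 / ε))) ≤ 24 * s * θ := by
      calc (Q : ℝ) ^ 3 * (3 * (ε * Real.log (2 / ε)))
          ≤ (Q : ℝ) ^ 3 * (3 * (ε * (4 * L + 2 / s))) := by
            apply mul_le_mul_of_nonneg_left _ (by positivity)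
            apply mul_le_mul_of_nonneg_left _ (by norm_num)
            exact mul_le_mul_of_nonneg_left hlogε hε0.le
        _ = 3 * s * θ * (4 * s + 2 * (1 / L)) := by
            rw [hε]; field_simp
        _ ≤ 3 * s * θ * 8 := by
            apply mul_le_mul_of_nonneg_left _ (by positivity)
            have h6 : 1 / L ≤ 2 := by
              rw [div_le_iff₀ hL0]; linarith
            linarith
        _ = 24 * s * θ := by ring
    calc C * (Q : ℝ) ^ 3 * (3 * (ε * Real.log (2 / ε)))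
        = C * ((Q : ℝ) ^ 3 * (3 * (ε * Real.log (2 / ε)))) := by ring
      _ ≤ C * (24 * s * θ) := mul_le_mul_of_nonneg_left h1 hC.le
      _ = (24 * C * s) * θ := by ring
      _ < 1 * θ := mul_lt_mul_of_pos_right hCs hθ
      _ = θ := one_mul θ
  have hle : (1 : ℝ) / 2 ≤ Real.log (2 / ε) := by
    apply hl2.trans
    apply Real.log_le_log (by norm_num)
    rw [le_div_iff₀ hε0]; nlinarith
  obtain ⟨K1, hK1⟩ := Pool.Agent.TH458.VC.sqrt_small (ε * Real.log (2 / ε))
    (mul_pos hε0 (by linarith))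
  obtain ⟨K2, hK2⟩ := exists_nat_ge (2 / ε)
  refine ⟨max K1 (max K2 2), fun k hk κ _ hκ V _ χ hsy hcl hn => ?_⟩
  have hkK1 : K1 ≤ k := le_trans (le_max_left _ _) hk
  have hkK2 : K2 ≤ k := le_trans (le_trans (le_max_left _ _) (le_max_right _ _)) hk
  have hk2 : 2 ≤ k := le_trans (le_trans (le_max_right _ _) (le_max_right _ _)) hk
  have hk0 : (0 : ℝ) < k := by
    have : 0 < k := by omega
    exact_mod_cast this
  have hkε : 2 / ε ≤ k := hK2.trans (by exact_mod_cast hkK2)
  have hεk : 2 ≤ ε * k := by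
    rw [div_le_iff₀ hε0] at hkε
    linarith
  have hn0 : (0 : ℝ) < Fintype.card V := lt_of_lt_of_le (Real.exp_pos _) hn
  have hn1 : 1 ≤ Fintype.card V := by exact_mod_cast hn0
  by_contra hcon
  push Not at hcon
  set d := ⌊ε * (k : ℝ)⌋₊ with hd
  have hdle : (d : ℝ) ≤ ε * k := Nat.floor_le (by positivity)
  have hdge : ε * k < d + 1 := Nat.lt_floor_add_one _
  have hd1 : (1 : ℝ) < d := by linarith
  have hd1' : 1 ≤ d := by
    have : (0 : ℝ) < d := by linarith
    have : 0 < d := by exact_mod_cast this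
    omega
  have hd0 : (0 : ℝ) < d := by linarith
  have hvc : ∀ b, VCle (gr χ hsy b) d := by
    intro b S hS
    have h3 := hcon b S hS
    exact Nat.le_floor h3.le
  have hmain := h κ Q hκ hQ V χ hsy k d hk2 hd1' hn1 hvc hcl
  have hratio : 2 + (k : ℝ) / d ≤ (2 / ε) ^ 2 := by
    have h4 : (k : ℝ) / d ≤ 2 / ε := by
      rw [div_le_div_iff₀ hd0 hε0]
      nlinarith
    have h5 : 2 ≤ 2 / ε := by
      rw [le_div_iff₀ hε0]; nlinarith
    nlinarith
  have hlog : Real.log (2 + (k : ℝ) / d) ≤ 2 * Real.log (2 / ε) := by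
    calc Real.log (2 + (k : ℝ) / d) ≤ Real.log ((2 / ε) ^ 2) :=
          Real.log_le_log (by positivity) hratio
      _ = 2 * Real.log (2 / ε) := by rw [Real.log_pow]; norm_num
  have h6 : (d : ℝ) * Real.log (2 + (k : ℝ) / d) ≤ (ε * k) * (2 * Real.log (2 / ε)) := by
    apply mul_le_mul hdle hlog _ (by positivity)
    apply Real.log_nonneg
    have : 0 ≤ (k : ℝ) / d := by positivity
    linarith
  have h7 := hK1 k hkK1
  have h8 : θ * k ≤ Real.log (Fintype.card V) := (Real.le_log_iff_exp_le hn0).2 hn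
  have h9 : Real.log (Fintype.card V) ≤ C * (Q : ℝ) ^ 3 * (3 * (ε * Real.log (2 / ε))) * k := by
    calc Real.log (Fintype.card V)
        ≤ C * (Q : ℝ) ^ 3 * (d * Real.log (2 + (k : ℝ) / d) + Real.sqrt (k * Real.log k)) := hmain
      _ ≤ C * (Q : ℝ) ^ 3 *
          ((ε * k) * (2 * Real.log (2 / ε)) + ε * Real.log (2 / ε) * k) :=
          mul_le_mul_of_nonneg_left (add_le_add h6 h7) (by positivity)
      _ = C * (Q : ℝ) ^ 3 * (3 * (ε * Real.log (2 / ε))) * k := by ring
  have h10 := mul_lt_mul_of_pos_right hprod hk0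
  linarith

end Pool.Agent.Y424.LK
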