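import Pool.Agent.TH138.NF.End
import Pool.Agent.Y424.LK.QDefs
import Pool.Agent.TH138.NF.Asym

/-!
# Links of colourings of `r`-subsets which are colourings of pairs, any number of colours
-/

set_option autoImplicit false

namespace Pool.Agent.Y424.LK

open Finset Pool.Agent.TH138.NF

/-- the number of vertices which is needed -/
def NQ (Q M : ℕ) : ℕ → ℕ
  | 0 => M
  | s + 1 => (2 * Q ^ ((s + 1 + 1) * (NQ Q M s) ^ (s + 1))) ^ (NQ Q M s)

theorem linkQ (κ : Type) [Fintype κ] (M : ℕ) : ∀ (s : ℕ) (V : Finset ℕ),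
    NQ (Fintype.card κ) M s ≤ V.card → ∀ c : Finset ℕ → κ,
    ∃ U ⊆ V, ∃ S ⊆ V, U.card = M ∧ S.card = s ∧ (∀ u ∈ U, ∀ w ∈ S, u < w) ∧ LinkOn s c U S := by
  classical
  intro s
  induction s with
  | zero =>
    intro V hV c
    obtain ⟨U, hU, hUc⟩ := exists_subset_card_eq hV
    refine ⟨U, hU, ∅, empty_subset _, hUc, rfl, by simp, ?_⟩
    intro A hA hAc x hx y hy hxy hz
    congr 1
    symm
    apply eq_of_subset_of_card_le
    · intro z hz
      simp only [mem_insert, notMem_empty, or_false] at hz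
      rcases hz with rfl | rfl <;> assumption
    · rw [hAc, card_insert_of_notMem, card_insert_of_notMem]
      · simp
      · simp
      · simp only [mem_insert, notMem_empty, or_false]
        exact hxy.ne
  | succ s ih =>
    intro V hV c
    set k := NQ (Fintype.card κ) M s with hk
    obtain ⟨v, W, hWV, hWc, hvV, hvm, hvW, -, h2⟩ := end_hom (Λ := κ) (s := s + 1)
      (fun x => c (univ.image x)) V k (2 * Fintype.card κ ^ ((s + 1 + 1) * k ^ (s + 1))) rfl
      hV k le_rfl
    have hW : W.Nonempty := by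
      rw [← card_pos]
      refine lt_of_lt_of_le ?_ hWc
      rw [Nat.sub_self, pow_zero]
      exact Nat.one_pos
    obtain ⟨w₀, hw₀⟩ := hW
    obtain ⟨U', hU', S', hS', hUc, hSc, hlt, hL⟩ := ih (range k) (by rw [card_range])
      (fun A => c (insert w₀ (A.image v)))
    have hinj : ∀ H ⊆ range k, Set.InjOn v (H : Set ℕ) := by
      intro H hH i hi j hj hij
      have hi' : i < k := mem_range.1 (hH hi)
      have hj' : j < k := mem_range.1 (hH hj)
      rcases lt_trichotomy i j with h | h | h
      · exact absurd hij (hvm i j h hj').ne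
      · exact h
      · exact absurd hij (hvm j i h hi').ne'
    refine ⟨U'.image v, ?_, insert w₀ (S'.image v), ?_, ?_, ?_, ?_, ?_⟩
    · intro x hx
      obtain ⟨i, hi, rfl⟩ := mem_image.1 hx
      exact hvV i (mem_range.1 (hU' hi))
    · intro x hx
      rcases mem_insert.1 hx with rfl | hx
      · exact hWV hw₀
      · obtain ⟨i, hi, rfl⟩ := mem_image.1 hx
        exact hvV i (mem_range.1 (hS' hi))
    · rw [card_image_of_injOn (hinj U' hU'), hUc]
    · rw [card_insert_of_notMem, card_image_of_injOn (hinj S' hS'), hSc]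
      intro h
      obtain ⟨i, hi, e⟩ := mem_image.1 h
      exact absurd e (hvW i (mem_range.1 (hS' hi)) w₀ hw₀).ne
    · intro u hu w hw
      obtain ⟨i, hi, rfl⟩ := mem_image.1 hu
      rcases mem_insert.1 hw with rfl | hw
      · exact hvW i (mem_range.1 (hU' hi)) w hw₀
      · obtain ⟨j, hj, rfl⟩ := mem_image.1 hw
        exact hvm i j (hlt i hi j hj) (mem_range.1 (hS' hj))
    · intro A hA hAc x hx y hy hxy hz
      obtain ⟨A', hA', rfl⟩ := subset_image_iff.1 hA
      have hA'k : A' ⊆ range k := fun i hi => hU' (hA' hi)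
      have hA'c : A'.card = s + 3 := by
        rw [card_image_of_injOn (hinj A' hA'k)] at hAc
        exact hAc
      obtain ⟨x', hx', rfl⟩ := mem_image.1 hx
      obtain ⟨y', hy', rfl⟩ := mem_image.1 hy
      have hlt' : ∀ i ∈ A', ∀ j ∈ A', v i < v j → i < j := by
        intro i hi j hj h
        by_contra hcon
        push Not at hcon
        rcases hcon.lt_or_eq with h' | h'
        · exact absurd (hvm j i h' (mem_range.1 (hA'k hi))) (by omega)
        · rw [h'] at h
          exact lt_irrefl _ h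
      have hxy' : x' < y' := hlt' x' hx' y' hy' hxy
      have hz' : ∀ z ∈ A', z = x' ∨ y' ≤ z := by
        intro z hzA
        rcases hz (v z) (mem_image_of_mem v hzA) with h | h
        · left
          exact hinj A' hA'k hzA hx' h
        · right
          by_contra hcon
          push Not at hcon
          exact absurd (hvm z y' hcon (mem_range.1 (hA'k hy'))) (by omega)
      set e := A'.orderEmbOfFin hA'c with he
      have hem : StrictMono (e : Fin (s + 3) → ℕ) := e.strictMono
      have heA : ∀ i, e i ∈ A' := fun i => orderEmbOfFin_mem _ _ _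
      have himg : univ.image (e : Fin (s + 3) → ℕ) = A' := by
        apply eq_of_subset_of_card_le
        · intro x hx
          obtain ⟨i, -, rfl⟩ := mem_image.1 hx
          exact heA i
        · rw [card_image_of_injective _ hem.injective, card_univ, Fintype.card_fin, hA'c]
      set A'' := univ.image (fun i : Fin (s + 2) => e i.castSucc) with hA''
      have hsub : A'' ⊆ A' := by
        intro x hx
        obtain ⟨i, -, rfl⟩ := mem_image.1 hx
        exact heA _
      have hcard : A''.card = s + 2 := by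
        rw [hA'', card_image_of_injective _ (fun i j hij => by
          have := hem.injective hij
          exact Fin.castSucc_injective _ this), card_univ, Fintype.card_fin]
      have hmem : ∀ z ∈ A', z ∉ A'' → ∀ z' ∈ A', z' ≤ z := by
        intro z hz1 hz2 z' hz3
        rw [← himg] at hz1 hz3
        obtain ⟨i, -, rfl⟩ := mem_image.1 hz1
        obtain ⟨j, -, rfl⟩ := mem_image.1 hz3
        rcases Fin.eq_castSucc_or_eq_last i with ⟨i', rfl⟩ | rfl
        · exact absurd (mem_image.2 ⟨i', mem_univ _, rfl⟩) hz2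
        · exact hem.monotone (Fin.le_last _)
      have hxA : x' ∈ A'' := by
        by_contra hcon
        exact absurd (hmem x' hx' hcon y' hy') (by omega)
      have hyA : y' ∈ A'' := by
        by_contra hcon
        have h3 := hmem y' hy' hcon
        have h4 : A' ⊆ {x', y'} := by
          intro z hzA
          rw [mem_insert, mem_singleton]
          rcases hz' z hzA with h | h
          · exact Or.inl h
          · exact Or.inr (le_antisymm (h3 z hzA) h)
        have h5 := card_le_card h4
        have h6 := card_le_two (a := x') (b := y')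
        omega
      have h3 := h2 (fun i : Fin (s + 2) => e i.castSucc) (e (Fin.last _))
        (mem_range.1 (hA'k (heA _))) (fun a => hem (Fin.castSucc_lt_last a)) w₀ hw₀
      have e1 : (Fin.snoc (fun a : Fin (s + 2) => v (e a.castSucc)) (v (e (Fin.last (s + 2)))) :
          Fin (s + 3) → ℕ) = fun i => v (e i) := by
        funext i
        rcases Fin.eq_castSucc_or_eq_last i with ⟨j, rfl⟩ | rfl
        · simp
        · simp
      have e2 : univ.image (Fin.snoc (fun a : Fin (s + 2) => v (e a.castSucc)) w₀ :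
          Fin (s + 3) → ℕ) = insert w₀ (A''.image v) := by
        ext x
        simp only [hA'', mem_image, mem_univ, true_and, mem_insert]
        constructor
        · rintro ⟨i, rfl⟩
          rcases Fin.eq_castSucc_or_eq_last i with ⟨j, rfl⟩ | rfl
          · right
            exact ⟨_, ⟨j, rfl⟩, by simp⟩
          · left
            simp
        · rintro (rfl | ⟨a, ⟨j, rfl⟩, rfl⟩)
          · exact ⟨Fin.last _, by simp⟩
          · exact ⟨j.castSucc, by simp⟩
      have h4 : c (A'.image v) = c (insert w₀ (A''.image v)) := by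
        rw [← e2, ← h3, e1]
        congr 1
        rw [← himg, image_image]
        rfl
      rw [h4]
      have h5 := hL A'' (hsub.trans hA') hcard x' hxA y' hyA hxy'
        (fun z hzA => hz' z (hsub hzA))
      simp only at h5
      rw [h5]
      congr 1
      ext z
      simp only [mem_insert, mem_image]
      constructor
      · rintro (h | ⟨a, (rfl | rfl | ha), rfl⟩)
        · exact Or.inr (Or.inr (Or.inl h))
        · exact Or.inl rfl
        · exact Or.inr (Or.inl rfl)
        · exact Or.inr (Or.inr (Or.inr ⟨a, ha, rfl⟩))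
      · rintro (rfl | rfl | h | ⟨a, ha, rfl⟩)
        · exact Or.inr ⟨x', Or.inl rfl, rfl⟩
        · exact Or.inr ⟨y', Or.inr (Or.inl rfl), rfl⟩
        · exact Or.inl h
        · exact Or.inr ⟨a, Or.inr (Or.inr ha), rfl⟩

/-- Homogeneous sets of the link are homogeneous. -/
theorem homQ {s : ℕ} {κ : Type} {c : Finset ℕ → κ} {U S : Finset ℕ} (hL : LinkOn s c U S)
    {H : Finset ℕ} (hH : H ⊆ U) (b : κ) (hb : ∀ x ∈ H, ∀ y ∈ H, x < y → c (insert x (insert y S)) = b) :
    ∀ A ⊆ H, A.card = s + 2 → c A = b := by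
  classical
  intro A hA hAc
  set e := A.orderEmbOfFin hAc with he
  have hem : StrictMono (e : Fin (s + 2) → ℕ) := e.strictMono
  have heA : ∀ i, e i ∈ A := fun i => orderEmbOfFin_mem _ _ _
  have himg : univ.image (e : Fin (s + 2) → ℕ) = A := by
    apply eq_of_subset_of_card_le
    · intro x hx
      obtain ⟨i, -, rfl⟩ := mem_image.1 hx
      exact heA i
    · rw [card_image_of_injective _ hem.injective, card_univ, Fintype.card_fin, hAc]
  have h01 : e 0 < e 1 := hem (by rw [Fin.lt_def]; simp)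
  rw [hL A (hA.trans hH) hAc (e 0) (heA _) (e 1) (heA _) h01, hb _ (hA (heA _)) _ (hA (heA _)) h01]
  intro z hz
  rw [← himg] at hz
  obtain ⟨i, -, rfl⟩ := mem_image.1 hz
  rcases Nat.lt_or_ge (i : ℕ) 1 with h | h
  · left
    have h0 : i = 0 := Fin.ext (by rw [Fin.val_zero]; omega)
    rw [h0]
  · right
    apply hem.monotone
    rw [Fin.le_def]
    simpa using h


theorem twr_cast (k x : ℕ) : (twr k x : ℝ) = tow k x := by
  induction k with
  | zero => rfl
  | succ k ih =>
    simp only [twr, tow]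
    rw [← ih]
    push_cast
    rw [Real.rpow_natCast]

theorem twr_mono (k : ℕ) {x y : ℕ} (h : x ≤ y) : twr k x ≤ twr k y := by
  induction k with
  | zero => exact h
  | succ k ih => exact Nat.pow_le_pow_right (by norm_num) ih

theorem le_twr (k x : ℕ) : x ≤ twr k x := by
  induction k with
  | zero => exact le_rfl
  | succ k ih => exact ih.trans Nat.lt_two_pow_self.le

theorem add_twr (k a x : ℕ) : a + twr k x ≤ twr k (a + x) := by
  induction k with
  | zero => exact le_rfl
  | succ k ih =>
    have h1 : a + 2 ^ twr k x ≤ 2 ^ (a + twr k x) := by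
      rw [pow_add]
      have h2 : a + 1 ≤ 2 ^ a := Nat.lt_two_pow_self
      have h3 : 1 ≤ 2 ^ twr k x := Nat.one_le_two_pow
      nlinarith
    exact h1.trans (Nat.pow_le_pow_right (by norm_num) ih)

theorem mul_twr (k a x : ℕ) : a * twr (k + 1) x ≤ twr (k + 1) (a + x) := by
  simp only [twr]
  calc a * 2 ^ twr k x ≤ 2 ^ a * 2 ^ twr k x := Nat.mul_le_mul_right _ Nat.lt_two_pow_self.le
    _ = 2 ^ (a + twr k x) := by rw [pow_add]
    _ ≤ _ := Nat.pow_le_pow_right (by norm_num) (add_twr k a x)

theorem two_pow_NQ_le (Q L : ℕ) (hQ : Q ≤ 2 ^ L) (k s : ℕ) :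
    (2 * Q ^ ((s + 1 + 1) * k ^ (s + 1))) ^ k ≤ 2 ^ ((1 + L * ((s + 2) * k ^ (s + 1))) * k) := by
  calc (2 * Q ^ ((s + 1 + 1) * k ^ (s + 1))) ^ k
      ≤ (2 * (2 ^ L) ^ ((s + 1 + 1) * k ^ (s + 1))) ^ k := by
        apply Nat.pow_le_pow_left
        exact Nat.mul_le_mul_left _ (Nat.pow_le_pow_left hQ _)
    _ = _ := by
        rw [← pow_mul, ← pow_succ', ← pow_mul]
        congr 2
        ring

theorem NQ_le' (Q L : ℕ) (hL : 1 ≤ L) (hQ : Q ≤ 2 ^ L) (Y : ℕ) :
    ∀ s, NQ Q (2 ^ Y) (s + 1) ≤ twr (s + 2) (2 * Y + L * (s + 3) ^ 2)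
  | 0 => by
    refine (two_pow_NQ_le Q L hQ (2 ^ Y) 0).trans ?_
    show 2 ^ _ ≤ 2 ^ (2 ^ (2 * Y + L * (0 + 3) ^ 2))
    apply Nat.pow_le_pow_right (by norm_num)
    have h2 : 1 ≤ 2 ^ Y := Nat.one_le_two_pow
    have h3 : 2 ^ (2 * Y + L * (0 + 3) ^ 2) = 2 ^ (9 * L) * (2 ^ Y * 2 ^ Y) := by
      rw [pow_add, two_mul, pow_add, mul_comm L, mul_comm]
      norm_num
    rw [h3]
    have h5 : 9 * L < 2 ^ (9 * L) := Nat.lt_two_pow_self
    generalize 2 ^ Y = q at h2
    have h4 : (1 + L * ((0 + 2) * q ^ (0 + 1))) * q = q + 2 * L * (q * q) := by ring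
    rw [h4]
    have h6 : q ≤ q * q := Nat.le_mul_self q
    calc q + 2 * L * (q * q) ≤ q * q + 2 * L * (q * q) := by omega
      _ = (1 + 2 * L) * (q * q) := by ring
      _ ≤ 2 ^ (9 * L) * (q * q) := Nat.mul_le_mul_right _ (by omega)
  | s + 1 => by
    have ih := NQ_le' Q L hL hQ Y s
    set k := NQ Q (2 ^ Y) (s + 1) with hk
    refine (two_pow_NQ_le Q L hQ k (s + 1)).trans ?_
    set X := 2 * Y + L * (s + 3) ^ 2 with hX
    set t := twr (s + 1) X with ht
    have ht' : twr (s + 2) X = 2 ^ t := rfl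
    rw [ht'] at ih
    have h5 : (1 + L * ((s + 1 + 2) * k ^ (s + 1 + 1))) * k ≤ 2 ^ ((L + 1) * (s + 3) * t) := by
      have ht1 : 1 ≤ t := by
        have h6 := le_twr (s + 1) X
        have h7 : 1 ≤ L * (s + 3) ^ 2 := Nat.mul_pos hL (by positivity)
        omega
      have hT : 1 ≤ 2 ^ t := Nat.one_le_two_pow
      calc (1 + L * ((s + 1 + 2) * k ^ (s + 1 + 1))) * k
          ≤ (1 + L * ((s + 1 + 2) * (2 ^ t) ^ (s + 1 + 1))) * 2 ^ t := by
            apply Nat.mul_le_mul _ ih
            apply Nat.add_le_add_left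
            apply Nat.mul_le_mul_left
            exact Nat.mul_le_mul_left _ (Nat.pow_le_pow_left ih _)
        _ ≤ ((1 + L * (s + 3)) * (2 ^ t) ^ (s + 2)) * 2 ^ t := by
            apply Nat.mul_le_mul_right
            have : 1 ≤ (2 ^ t) ^ (s + 2) := Nat.one_le_pow _ _ hT
            calc 1 + L * ((s + 1 + 2) * (2 ^ t) ^ (s + 1 + 1))
                = 1 + L * (s + 3) * (2 ^ t) ^ (s + 2) := by ring
              _ ≤ (2 ^ t) ^ (s + 2) + L * (s + 3) * (2 ^ t) ^ (s + 2) := by omega
              _ = _ := by ring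
        _ = (1 + L * (s + 3)) * (2 ^ t) ^ (s + 3) := by ring
        _ ≤ 2 ^ (L * (s + 3)) * (2 ^ t) ^ (s + 3) := by
            apply Nat.mul_le_mul_right
            have : L * (s + 3) < 2 ^ (L * (s + 3)) := Nat.lt_two_pow_self
            omega
        _ = 2 ^ (L * (s + 3) + t * (s + 3)) := by rw [← pow_mul, ← pow_add]
        _ ≤ 2 ^ ((L + 1) * (s + 3) * t) := by
            apply Nat.pow_le_pow_right (by norm_num)
            have h8 : L * (s + 3) ≤ L * (s + 3) * t := Nat.le_mul_of_pos_right _ ht1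
            calc L * (s + 3) + t * (s + 3) ≤ L * (s + 3) * t + t * (s + 3) := by omega
              _ = (L + 1) * (s + 3) * t := by ring
    show 2 ^ _ ≤ 2 ^ (twr (s + 2) (2 * Y + L * (s + 1 + 3) ^ 2))
    apply Nat.pow_le_pow_right (by norm_num)
    refine h5.trans ?_
    show 2 ^ _ ≤ 2 ^ (twr (s + 1) (2 * Y + L * (s + 1 + 3) ^ 2))
    apply Nat.pow_le_pow_right (by norm_num)
    refine (mul_twr s ((L + 1) * (s + 3)) X).trans ?_
    apply twr_mono
    rw [hX]
    have h9 : (L + 1) * (s + 3) ≤ L * (2 * s + 7) := by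
      have : s + 3 ≤ L * (s + 3) := Nat.le_mul_of_pos_left _ hL
      nlinarith
    calc (L + 1) * (s + 3) + (2 * Y + L * (s + 3) ^ 2)
        ≤ L * (2 * s + 7) + (2 * Y + L * (s + 3) ^ 2) := Nat.add_le_add_right h9 _
      _ = 2 * Y + L * (s + 1 + 3) ^ 2 := by ring

theorem NQ_le (Q L : ℕ) (hL : 1 ≤ L) (hQ : Q ≤ 2 ^ L) (Y : ℕ) :
    ∀ s, NQ Q (2 ^ Y) s ≤ twr (s + 1) (2 * Y + L * (s + 2) ^ 2)
  | 0 => by
    show 2 ^ Y ≤ 2 ^ (2 * Y + L * (0 + 2) ^ 2)
    apply Nat.pow_le_pow_right (by norm_num)
    omega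
  | s + 1 => NQ_le' Q L hL hQ Y s

end Pool.Agent.Y424.LK
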