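import Pool.Agent.Y424.LK.QLink
import Pool.Agent.Y424.LK.QLarge
import Pool.Agent.Y424.LK.Main

/-!
# VC-dimension and links of colourings without homogeneous sets, any number of colours
-/

set_option autoImplicit false

namespace Pool.Agent.Y424.LK

open Finset Pool.Agent.TH138.NF
open Pool.Agent.TH458.VC (VCle Shat)

/-- The link as a colouring of pairs. -/
def lk {κ : Type} (c : Finset ℕ → κ) (U S : Finset ℕ) (x y : {x // x ∈ U}) : κ :=
  c (insert x.1 (insert y.1 S))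

theorem lk_comm {κ : Type} (c : Finset ℕ → κ) (U S : Finset ℕ) (x y : {x // x ∈ U}) :
    lk c U S x y = lk c U S y x := by
  unfold lk
  rw [Finset.insert_comm]

theorem gr_lk {κ : Type} (c : Finset ℕ → κ) (U S : Finset ℕ) (a : κ) :
    gr (lk c U S) (lk_comm c U S) a = colourLink c a U S := rfl

theorem shatteredBy_of_shat {κ : Type} {c : Finset ℕ → κ} {a : κ} {U S : Finset ℕ}
    (hUS : ∀ u ∈ U, ∀ w ∈ S, u < w) {Z : Finset {x // x ∈ U}}
    (hZ : Shat (colourLink c a U S) Z) :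
    ShatteredBy c a {A | ∃ v ∈ U, A = insert v S} (Z.image Subtype.val) := by
  classical
  intro T hT
  obtain ⟨T', hT', rfl⟩ := subset_image_iff.1 hT
  obtain ⟨v, hv⟩ := hZ T' (by exact_mod_cast hT')
  refine ⟨insert v.1 S, ⟨v.1, v.2, rfl⟩, ?_⟩
  intro x hx
  obtain ⟨x', hx', rfl⟩ := mem_image.1 hx
  have h1 := hv x' hx'
  have h2 : x'.1 ∈ T'.image Subtype.val ↔ x' ∈ T' := by
    rw [mem_image]
    constructor
    · rintro ⟨a, ha, e⟩
      rwa [Subtype.ext e] at ha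
    · intro h
      exact ⟨x', h, rfl⟩
  rw [h2, ← h1]
  show _ ↔ v ≠ x' ∧ c (insert v.1 (insert x'.1 S)) = a
  have h3 : x'.1 ∉ insert v.1 S ↔ v ≠ x' := by
    rw [mem_insert, not_or]
    constructor
    · rintro ⟨h, -⟩ e
      exact h (by rw [e])
    · intro h
      refine ⟨fun e => h (Subtype.ext e.symm), fun hs => ?_⟩
      exact lt_irrefl _ (hUS x'.1 x'.2 x'.1 hs)
  rw [h3, Finset.insert_comm]

/-- Links without large homogeneous sets. -/
theorem exists_linkQ (κ : Type) [Fintype κ] (L : ℕ) (hL : 1 ≤ L) (hκ : Fintype.card κ ≤ 2 ^ L)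
    (s Y n N : ℕ) (hN : twr (s + 1) (2 * Y + L * (s + 2) ^ 2) ≤ N)
    (c : Finset ℕ → κ) (hc : ∀ H ⊆ range N, H.card = n → ¬ Homogeneous (s + 2) c H) :
    ∃ U S : Finset ℕ, U ⊆ range N ∧ S ⊆ range N ∧ U.card = 2 ^ Y ∧ S.card = s ∧
      (∀ u ∈ U, ∀ w ∈ S, u < w) ∧ LinkOn s c U S ∧
      ∀ a : κ, (colourLink c a U S).CliqueFree n := by
  classical
  obtain ⟨U, hU, S, hS, hUc, hSc, hlt, hlk⟩ := linkQ κ (2 ^ Y) s (range N)
    (by rw [card_range]; exact (NQ_le _ L hL hκ Y s).trans hN) c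
  refine ⟨U, S, hU, hS, hUc, hSc, hlt, hlk, ?_⟩
  intro a Q hQ
  have hH : Q.image Subtype.val ⊆ U := by
    intro x hx
    obtain ⟨x', -, rfl⟩ := mem_image.1 hx
    exact x'.2
  refine hc (Q.image Subtype.val) (hH.trans hU) ?_ ?_
  · rw [card_image_of_injective _ Subtype.val_injective, hQ.card_eq]
  · have h1 := homQ hlk hH a ?_
    · intro A hA B hB hAc hBc
      rw [h1 A hA hAc, h1 B hB hBc]
    · intro x hx y hy hxy
      obtain ⟨x', hx', rfl⟩ := mem_image.1 hx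
      obtain ⟨y', hy', rfl⟩ := mem_image.1 hy
      have h2 := hQ.isClique (by exact_mod_cast hx') (by exact_mod_cast hy')
        (fun e => hxy.ne (by rw [e]))
      exact h2.2

theorem le_two_pow' (q : ℕ) : q ≤ 2 ^ q := Nat.lt_two_pow_self.le

theorem upperQ : ∃ C : ℝ, 0 < C ∧ ∀ (κ : Type) [Fintype κ] (q : ℕ), Fintype.card κ = q →
    ∀ s N n d : ℕ, 2 ≤ n → 1 ≤ d →
    tow (s + 1) (C * (q : ℝ) ^ 3 * (d * Real.log (2 + (n : ℝ) / d) + Real.sqrt (n * Real.log n)) +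
      q * ((s : ℝ) + 3) ^ 2) ≤ N →
    ∀ c : Finset ℕ → κ,
      (∀ (a : κ) (Z : Finset ℕ), Z ⊆ range N →
        ShatteredBy c a {A | A ⊆ range N ∧ A.card = s + 1} Z → Z.card ≤ d) →
      ∃ H ⊆ range N, H.card = n ∧ Homogeneous (s + 2) c H := by
  classical
  obtain ⟨C, hC, hUP⟩ := asy_q
  refine ⟨4 * C, by positivity, ?_⟩
  intro κ _ q hq s N n d hn hd hN c hvc
  have hq1 : 1 ≤ q := by
    have : 0 < Fintype.card κ := Fintype.card_pos_iff.2 ⟨c ∅⟩
    omega
  have hq1r : (1 : ℝ) ≤ q := by exact_mod_cast hq1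
  by_contra hcon
  push Not at hcon
  have hlog2 : (1 : ℝ) / 2 < Real.log 2 := by
    have := Real.log_two_gt_d9
    linarith
  set B : ℝ := C * (q : ℝ) ^ 3 *
    (d * Real.log (2 + (n : ℝ) / d) + Real.sqrt (n * Real.log n)) with hB
  have hB0 : 0 ≤ B := by
    have h2 : 0 ≤ (d : ℝ) * Real.log (2 + (n : ℝ) / d) := by
      apply mul_nonneg (Nat.cast_nonneg d)
      apply Real.log_nonneg
      have : 0 ≤ (n : ℝ) / d := by positivity
      linarith
    have h3 := Real.sqrt_nonneg (n * Real.log n)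
    rw [hB]
    positivity
  set Y := ⌊2 * B⌋₊ + 1 with hY
  have hY1 : 2 * B < Y := by
    rw [hY]
    push_cast
    exact Nat.lt_floor_add_one _
  have hY2 : (Y : ℝ) ≤ 2 * B + 1 := by
    rw [hY]
    push_cast
    have := Nat.floor_le (show 0 ≤ 2 * B by positivity)
    linarith
  have hN' : twr (s + 1) (2 * Y + q * (s + 2) ^ 2) ≤ N := by
    have h1 : ((twr (s + 1) (2 * Y + q * (s + 2) ^ 2) : ℕ) : ℝ) ≤ N := by
      rw [twr_cast]
      refine le_trans (tow_mono (s + 1) ?_) hN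
      push_cast
      have h4 : 4 * C * (q : ℝ) ^ 3 *
          (d * Real.log (2 + (n : ℝ) / d) + Real.sqrt (n * Real.log n)) = 4 * B := by
        rw [hB]; ring
      rw [h4]
      have h5 : (0 : ℝ) ≤ s := Nat.cast_nonneg s
      have h6 : (q : ℝ) * ((s : ℝ) + 2) ^ 2 + 2 ≤ q * ((s : ℝ) + 3) ^ 2 := by
        have : (q : ℝ) * ((s : ℝ) + 3) ^ 2 = q * ((s : ℝ) + 2) ^ 2 + q * (2 * s + 5) := by ring
        rw [this]
        nlinarith
      linarith
    exact_mod_cast h1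
  obtain ⟨U, S, hU, hS, hUc, hSc, hlt, hlk, g1⟩ := exists_linkQ κ q hq1
    (by rw [hq]; exact le_two_pow' q) s Y n N hN' c hcon
  have h1 := hUP κ q hq hq1 {x // x ∈ U} (lk c U S) (lk_comm c U S) n d hn hd
    (by rw [Fintype.card_coe, hUc]; exact Nat.one_le_two_pow)
    (by
      intro a Z hZ
      rw [gr_lk] at hZ
      have h5 := shatteredBy_of_shat hlt hZ
      rw [← card_image_of_injective Z Subtype.val_injective]
      apply hvc a
      · intro x hx
        obtain ⟨x', -, rfl⟩ := mem_image.1 hx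
        exact hU x'.2
      · intro T hT
        obtain ⟨A, ⟨v, hv, rfl⟩, h6⟩ := h5 T hT
        refine ⟨insert v S, ⟨?_, ?_⟩, h6⟩
        · exact insert_subset (hU hv) hS
        · rw [card_insert_of_notMem, hSc]
          intro h
          exact lt_irrefl _ (hlt v hv v h))
    (by intro a; rw [gr_lk]; exact g1 a)
  rw [← hB, Fintype.card_coe, hUc] at h1
  push_cast at h1
  rw [Real.log_pow] at h1
  have h2 : (Y : ℝ) * (1 / 2) ≤ Y * Real.log 2 :=
    mul_le_mul_of_nonneg_left hlog2.le (Nat.cast_nonneg _)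
  linarith

/-- Colourings without homogeneous sets on towers of full height have large VC-dimension. -/
theorem structQ : ∃ c₀ : ℝ, 0 < c₀ ∧ ∀ (q s : ℕ) (ε : ℝ), 0 < ε → ε ≤ 1 → ∃ n₀ : ℕ,
    ∀ (κ : Type) [Fintype κ], Fintype.card κ = q →
    ∀ n N : ℕ, n₀ ≤ n → tow (s + 1) (ε * n) ≤ N → ∀ c : Finset ℕ → κ,
      (∀ H ⊆ range N, H.card = n → ¬ Homogeneous (s + 2) c H) →
      ∃ U S : Finset ℕ, U ⊆ range N ∧ S ⊆ range N ∧ U.card = 2 ^ ⌊ε / 3 * n⌋₊ ∧ S.card = s ∧
        (∀ u ∈ U, ∀ w ∈ S, u < w) ∧ LinkOn s c U S ∧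
        (∀ a : κ, (colourLink c a U S).CliqueFree n) ∧
        ∃ (a : κ) (Z : Finset ℕ), Z ⊆ U ∧ ShatteredBy c a {A | ∃ v ∈ U, A = insert v S} Z ∧
          c₀ * ε / ((q : ℝ) ^ 3 * Real.log (2 * q / ε)) * n ≤ Z.card := by
  classical
  obtain ⟨c₁, hc₁, hvc⟩ := large_q
  have hl1 : (0.69 : ℝ) < Real.log 2 := by
    have := Real.log_two_gt_d9
    linarith
  refine ⟨c₁ / 24, by positivity, ?_⟩
  intro q s ε hε hε1
  rcases Nat.eq_zero_or_pos q with hq0 | hq1
  · refine ⟨0, ?_⟩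
    intro κ _ hκ n N _ _ c _
    have : 0 < Fintype.card κ := Fintype.card_pos_iff.2 ⟨c ∅⟩
    omega
  obtain ⟨K, hK⟩ := hvc q (ε / 6) hq1 (by positivity) (by linarith)
  obtain ⟨n₁, hn₁⟩ := exists_nat_gt (11 / ε)
  obtain ⟨n₂, hn₂⟩ := exists_nat_gt (3 * (q * ((s : ℝ) + 2) ^ 2) / ε)
  refine ⟨max (max K n₁) n₂, ?_⟩
  intro κ _ hκ n N hn hN c hc
  have hnK : K ≤ n := (le_max_left _ _).trans ((le_max_left _ _).trans hn)
  have hn1 : n₁ ≤ n := (le_max_right _ _).trans ((le_max_left _ _).trans hn)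
  have hn2 : n₂ ≤ n := (le_max_right _ _).trans hn
  have hn1' : (n₁ : ℝ) ≤ n := by exact_mod_cast hn1
  have hn2' : (n₂ : ℝ) ≤ n := by exact_mod_cast hn2
  have hε11 : 11 < ε * n := by
    have := hn₁.trans_le hn1'
    rw [div_lt_iff₀ hε] at this
    linarith
  have hnpos : (0 : ℝ) < n := by
    by_contra h
    push Not at h
    nlinarith
  set Y := ⌊ε / 3 * n⌋₊ with hY
  have hY1 : ε / 3 * n < Y + 1 := Nat.lt_floor_add_one _
  have hY2 : (Y : ℝ) ≤ ε / 3 * n := Nat.floor_le (by positivity)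
  have hN' : twr (s + 1) (2 * Y + q * (s + 2) ^ 2) ≤ N := by
    have h1 : ((twr (s + 1) (2 * Y + q * (s + 2) ^ 2) : ℕ) : ℝ) ≤ N := by
      rw [twr_cast]
      refine le_trans (tow_mono (s + 1) ?_) hN
      push_cast
      have h2 := hn₂.trans_le hn2'
      rw [div_lt_iff₀ hε] at h2
      linarith
    exact_mod_cast h1
  obtain ⟨U, S, hU, hS, hUc, hSc, hlt, hlk, g1⟩ := exists_linkQ κ q hq1
    (by rw [hκ]; exact le_two_pow' q) s Y n N hN' c hc
  refine ⟨U, S, hU, hS, hUc, hSc, hlt, hlk, g1, ?_⟩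
  have hexp : Real.exp (ε / 6 * n) ≤ (Fintype.card {x // x ∈ U} : ℝ) := by
    rw [Fintype.card_coe, hUc]
    push_cast
    rw [← Real.rpow_natCast, Real.rpow_def_of_pos (by norm_num)]
    apply Real.exp_le_exp.2
    nlinarith
  obtain ⟨a, Z, hZ, hZc⟩ := hK n hnK κ hκ {x // x ∈ U} (lk c U S) (lk_comm c U S)
    (by intro a; rw [gr_lk]; exact g1 a) hexp
  rw [gr_lk] at hZ
  refine ⟨a, Z.image Subtype.val, ?_, shatteredBy_of_shat hlt hZ, ?_⟩
  · intro x hx
    obtain ⟨x', -, rfl⟩ := mem_image.1 hx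
    exact x'.2
  · rw [card_image_of_injective _ Subtype.val_injective]
    refine le_trans ?_ hZc
    apply mul_le_mul_of_nonneg_right _ hnpos.le
    have hq1r : (1 : ℝ) ≤ q := by exact_mod_cast hq1
    have hL2 : Real.log 2 ≤ Real.log (2 * q / ε) := by
      apply Real.log_le_log (by norm_num)
      rw [le_div_iff₀ hε]
      nlinarith
    have hL12 : Real.log (2 * q / (ε / 6)) ≤ 4 * Real.log (2 * q / ε) := by
      have e : 2 * (q : ℝ) / (ε / 6) = (2 * q / ε) * 6 := by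
        field_simp
      rw [e, Real.log_mul (by positivity) (by norm_num)]
      have h6 : Real.log 6 ≤ 3 * Real.log 2 := by
        rw [show (3 : ℝ) * Real.log 2 = Real.log (2 ^ 3) by rw [Real.log_pow]; norm_num]
        exact Real.log_le_log (by norm_num) (by norm_num)
      linarith
    have hLpos' : 0 < Real.log (2 * q / ε) := by linarith
    have hLpos : 0 < Real.log (2 * q / (ε / 6)) := by
      apply Real.log_pos
      rw [lt_div_iff₀ (by positivity)]
      nlinarith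
    have hq3 : (0 : ℝ) < (q : ℝ) ^ 3 := by positivity
    rw [div_le_div_iff₀ (by positivity) (by positivity)]
    calc c₁ / 24 * ε * ((q : ℝ) ^ 3 * Real.log (2 * q / (ε / 6)))
        ≤ c₁ / 24 * ε * ((q : ℝ) ^ 3 * (4 * Real.log (2 * q / ε))) := by
          apply mul_le_mul_of_nonneg_left _ (by positivity)
          exact mul_le_mul_of_nonneg_left hL12 (by positivity)
      _ = c₁ * (ε / 6) * ((q : ℝ) ^ 3 * Real.log (2 * q / ε)) := by ring

end Pool.Agent.Y424.LK
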