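import Pool.Agent.Y424.LK.QCol

/-!
# Many colours: one step, and the sequence of clusters
-/

set_option autoImplicit false

namespace Pool.Agent.Y424.LK

open Finset
open Pool.Agent.TH458.VC (VCle Shat Phi diffOn Wr wr sum_wr markov Phi_mono Phi_pos)

open scoped Classical in
theorem step_q {V κ : Type} [Fintype κ] (χ : V → V → κ) (hs : ∀ x y, χ x y = χ y x) {d : ℕ}
    (hd1 : 1 ≤ d) (hd : ∀ a, VCle (gr χ hs a) d) (q : ℕ) (hq : 1 ≤ q) (Q : ℕ)
    (hQ : Fintype.card κ = Q) (hQ1 : 1 ≤ Q) (A : Finset V) (hA : 32 * (Q * q) ≤ A.card) :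
    ∃ c : κ, ∃ W ⊆ A, ∃ A' ⊆ A, Disjoint W A' ∧ W.Nonempty ∧ A.card ≤ 4 * Q * A'.card ∧
      A.card ≤ ((704 * (Q * q)) ^ d) ^ Q * W.card ∧
      ∀ y ∈ A', q * wr (gr χ hs c) true y W ≤ W.card := by
  set m := A.card with hm
  set P := Q * q with hP
  have hP1 : 1 ≤ P := Nat.mul_pos hQ1 hq
  have hQP : Q ≤ P := Nat.le_mul_of_pos_right _ hq
  set r := m / (16 * P) with hr
  have hr2 : 2 ≤ r := by
    rw [hr, Nat.le_div_iff_mul_le (by omega)]; omega
  have hrm : r * (16 * P) ≤ m := Nat.div_mul_le_self _ _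
  have hrm2 : m < (r + 1) * (16 * P) := by
    rw [hr]; exact Nat.lt_mul_of_div_lt (Nat.lt_succ_self _) (by omega)
  have hrA : r ≤ m := by nlinarith
  obtain ⟨W1, hW1A, hW1, hW1d⟩ := cluster_many (gr χ hs) hd A r (by omega) hrA univ A
  have hPR : (1 : ℝ) ≤ P := by exact_mod_cast hP1
  set K := ((704 * P) ^ d) ^ Q with hK
  have hW1' : m ≤ K * W1.card := by
    have h1 : (22 * (m : ℝ) / r) ≤ 704 * P := by
      have hr0 : (0 : ℝ) < r := by exact_mod_cast (by omega : 0 < r)
      rw [div_le_iff₀ hr0]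
      have h2 : (m : ℝ) < (r + 1) * (16 * P) := by exact_mod_cast hrm2
      have h3 : (2 : ℝ) ≤ r := by exact_mod_cast hr2
      nlinarith
    have h2 : (m : ℝ) ≤ ((704 * P) ^ d) ^ Q * W1.card := by
      refine hW1.trans ?_
      rw [card_univ, hQ]
      apply mul_le_mul_of_nonneg_right _ (Nat.cast_nonneg _)
      apply pow_le_pow_left₀ (by positivity)
      apply pow_le_pow_left₀ (by positivity) h1
    exact_mod_cast h2
  have hK704 : 704 * P ≤ K := by
    rw [hK]
    calc 704 * P ≤ (704 * P) ^ d := Nat.le_self_pow (by omega) _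
      _ ≤ ((704 * P) ^ d) ^ Q := Nat.le_self_pow (by omega) _
  set s := (m + K - 1) / K with hsd
  have hsK : m ≤ K * s := by
    have h := Nat.div_add_mod (m + K - 1) K
    have h2 := Nat.mod_lt (m + K - 1) (by omega : 0 < K)
    rw [← hsd] at h
    omega
  have hs8 : 8 * Q * s ≤ m := by
    have h1 : s * K ≤ m + K - 1 := Nat.div_mul_le_self _ _
    by_contra hcon
    push Not at hcon
    have h3 : m * K < 8 * Q * s * K := Nat.mul_lt_mul_of_pos_right hcon (by omega)
    have h4 : 8 * Q * s * K = 8 * Q * (s * K) := by ring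
    have h5 : 8 * Q * (s * K) ≤ 8 * Q * (m + K) := Nat.mul_le_mul_left _ (by omega)
    have h6 : 8 * Q * (m + K) = 8 * (Q * m) + 8 * (Q * K) := by ring
    have h7 : 32 * (Q * K) ≤ m * K := by
      calc 32 * (Q * K) = 32 * Q * K := by ring
        _ ≤ m * K := Nat.mul_le_mul_right _ (by omega)
    have h8 : 704 * (Q * m) ≤ m * K := by
      calc 704 * (Q * m) = m * (704 * Q) := by ring
        _ ≤ m * K := Nat.mul_le_mul_left _ (by omega)
    omega
  have hsW1 : s ≤ W1.card := by
    by_contra hcon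
    push Not at hcon
    have h1 : W1.card + 1 ≤ s := hcon
    have h2 : s * K ≤ m + K - 1 := Nat.div_mul_le_self _ _
    have h3 : (W1.card + 1) * K ≤ s * K := Nat.mul_le_mul_right _ h1
    have h4 : (W1.card + 1) * K = K * W1.card + K := by ring
    omega
  obtain ⟨W, hWW1, hWs⟩ := Finset.exists_subset_card_eq hsW1
  have hs0 : 0 < s := by
    rcases Nat.eq_zero_or_pos s with h | h
    · rw [h] at hsK; omega
    · exact h
  have hWne : W.Nonempty := by rw [← card_pos]; omega
  obtain ⟨v, hv⟩ := hWne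
  have hvA : v ∈ A := hW1A (hWW1 hv)
  -- the majority colour
  have hκ : Nonempty κ := Fintype.card_pos_iff.1 (by omega)
  obtain ⟨c, -, hc⟩ := exists_le_card_fiber_of_mul_le_card_of_maps_to (s := A.erase v)
    (t := (univ : Finset κ)) (f := fun x => χ v x) (n := (m - 1) / Q) (fun _ _ => mem_univ _)
    univ_nonempty (by
      rw [card_univ, hQ, card_erase_of_mem hvA, ← hm]
      exact Nat.mul_div_le (m - 1) Q)
  have hcA : (A.erase v).filter (fun x => χ v x = c) = A.filter (fun x => (gr χ hs c).Adj v x) := by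
    ext x
    simp only [mem_filter, mem_erase]
    constructor
    · rintro ⟨⟨h1, h2⟩, h3⟩
      exact ⟨h2, fun e => h1 e.symm, h3⟩
    · rintro ⟨h1, h2, h3⟩
      exact ⟨⟨fun e => h2 e.symm, h1⟩, h3⟩
  rw [hcA] at hc
  have hm1 : m ≤ ((m - 1) / Q + 1) * Q := by
    have := Nat.lt_mul_of_div_lt (Nat.lt_succ_self ((m - 1) / Q)) (by omega : 0 < Q)
    rw [Nat.succ_eq_add_one] at this
    omega
  have hA2c' : (m - 1) / Q ≤ ((A.filter (fun x => (gr χ hs c).Adj v x)) \ W).card + s := by
    have h1 : (A.filter (fun x => (gr χ hs c).Adj v x)).card ≤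
        ((A.filter (fun x => (gr χ hs c).Adj v x)) \ W).card + W.card :=
      Finset.card_le_card_sdiff_add_card
    rw [hWs] at h1
    exact hc.trans h1
  set A2 := (A.filter (fun x => (gr χ hs c).Adj v x)) \ W with hA2
  have hA2c : (m - 1) / Q ≤ A2.card + s := hA2c'
  -- few bad points
  have hsum : ∑ x ∈ A2, wr (gr χ hs c) true x W ≤ W.card * (2 * r) := by
    rw [sum_wr, ← smul_eq_mul]
    apply Finset.sum_le_card_nsmul
    intro w hw
    have h1 := (hW1d c (mem_univ c) v (hWW1 hv) w (hWW1 hw)).le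
    refine le_trans (card_le_card ?_) h1
    intro x hx
    rw [mem_filter] at hx
    have hxA2 := hx.1
    rw [hA2, mem_sdiff, mem_filter] at hxA2
    unfold diffOn
    rw [mem_filter]
    refine ⟨hxA2.1.1, ?_⟩
    have h2 := hxA2.1.2
    have h3 := hx.2
    unfold Wr at h3
    simp only [iff_true] at h3
    intro h4
    exact h3 (h4.1 h2)
  have hbad := markov (fun x => wr (gr χ hs c) true x W) A2 q W.card
  have hbad2 : (A2.filter (fun x => W.card < q * wr (gr χ hs c) true x W)).card ≤ q * (2 * r) := by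
    have h1 : (A2.filter (fun x => W.card < q * wr (gr χ hs c) true x W)).card * W.card ≤
        (q * (2 * r)) * W.card := by
      refine hbad.trans ?_
      calc q * ∑ x ∈ A2, wr (gr χ hs c) true x W ≤ q * (W.card * (2 * r)) :=
            Nat.mul_le_mul_left _ hsum
        _ = (q * (2 * r)) * W.card := by ring
    exact Nat.le_of_mul_le_mul_right h1 (by omega)
  refine ⟨c, W, hWW1.trans hW1A,
    A2 \ A2.filter (fun x => W.card < q * wr (gr χ hs c) true x W), ?_, ?_, ⟨v, hv⟩, ?_, ?_, ?_⟩
  · refine (sdiff_subset).trans ?_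
    rw [hA2]
    exact (sdiff_subset).trans (filter_subset _ _)
  · rw [Finset.disjoint_left]
    intro x hx hx2
    rw [mem_sdiff, hA2, mem_sdiff] at hx2
    exact hx2.1.2 hx
  · have h1 := Finset.le_card_sdiff (A2.filter (fun x => W.card < q * wr (gr χ hs c) true x W)) A2
    set A3 := (A2 \ A2.filter (fun x => W.card < q * wr (gr χ hs c) true x W)).card with hA3
    have h2 : (m - 1) / Q ≤ A3 + q * (2 * r) + s := by omega
    have h3 : 8 * Q * ((m - 1) / Q) ≤ 8 * Q * (A3 + q * (2 * r) + s) := Nat.mul_le_mul_left _ h2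
    have h4 : 8 * Q * (A3 + q * (2 * r) + s) = 8 * Q * A3 + r * (16 * P) + 8 * Q * s := by
      rw [hP]; ring
    have h5 : 8 * m ≤ 8 * Q * ((m - 1) / Q) + 8 * Q := by
      calc 8 * m ≤ 8 * (((m - 1) / Q + 1) * Q) := Nat.mul_le_mul_left _ hm1
        _ = _ := by ring
    have h6 : 8 * Q * A3 = 2 * (4 * Q * A3) := by ring
    omega
  · rw [hWs]; exact hsK
  · intro y hy
    rw [mem_sdiff, mem_filter] at hy
    by_contra hcon
    push Not at hcon
    exact hy.2 ⟨hy.1, hcon⟩

open scoped Classical in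
/-- The sequence of clusters. -/
theorem seq_q {V κ : Type} [Fintype κ] (χ : V → V → κ) (hs : ∀ x y, χ x y = χ y x) {d : ℕ}
    (hd1 : 1 ≤ d) (hd : ∀ a, VCle (gr χ hs a) d) (q : ℕ) (hq : 2 ≤ q) (Q : ℕ)
    (hQ : Fintype.card κ = Q) (hQ1 : 1 ≤ Q) (m0 : ℕ) (hm0 : 32 * (Q * q) ≤ m0) (J : Finset κ) :
    ∀ (n : ℕ) (t : κ → ℕ), ∑ a, t a = n → ∀ A : Finset V, (8 * Q) ^ n * m0 ≤ A.card →
      (∃ c ∈ J, ∃ S ⊆ A, S.card = t c ∧ (gr χ hs c).IsClique (S : Set V)) ∨
      (∃ c ∉ J, ∃ U : ℕ → Finset V,
        (∀ i < t c, U i ⊆ A ∧ m0 ≤ ((704 * (Q * q)) ^ d) ^ Q * (U i).card) ∧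
        ∀ i j, i < j → j < t c → Disjoint (U i) (U j) ∧
          ∀ y ∈ U j, q * wr (gr χ hs c) true y (U i) ≤ (U i).card) := by
  have hκ : Nonempty κ := Fintype.card_pos_iff.1 (by omega)
  have htriv : ∀ (t : κ → ℕ) (c : κ), t c = 0 → ∀ A : Finset V,
      (∃ c ∈ J, ∃ S ⊆ A, S.card = t c ∧ (gr χ hs c).IsClique (S : Set V)) ∨
      (∃ c ∉ J, ∃ U : ℕ → Finset V,
        (∀ i < t c, U i ⊆ A ∧ m0 ≤ ((704 * (Q * q)) ^ d) ^ Q * (U i).card) ∧
        ∀ i j, i < j → j < t c → Disjoint (U i) (U j) ∧
          ∀ y ∈ U j, q * wr (gr χ hs c) true y (U i) ≤ (U i).card) := by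
    intro t c hc A
    by_cases hJ : c ∈ J
    · exact Or.inl ⟨c, hJ, ∅, empty_subset _, by rw [hc]; rfl, by simp⟩
    · refine Or.inr ⟨c, hJ, fun _ => ∅, ?_, ?_⟩
      · intro i hi; omega
      · intro i j _ hj; omega
  intro n
  induction n with
  | zero =>
    intro t ht A _
    obtain ⟨c⟩ := hκ
    have h0 : t c = 0 := by
      have h1 : t c ≤ ∑ a, t a := Finset.single_le_sum (fun _ _ => Nat.zero_le _) (mem_univ c)
      omega
    exact htriv t c h0 A
  | succ n ih =>
    intro t ht A hA
    by_cases hall : ∃ c, t c = 0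
    · obtain ⟨c, hc⟩ := hall
      exact htriv t c hc A
    push Not at hall
    have h8 : 1 ≤ (8 * Q) ^ n := Nat.one_le_pow _ _ (by omega)
    have hA2 : (8 * Q) ^ (n + 1) * m0 = 8 * Q * ((8 * Q) ^ n * m0) := by ring
    have hm0n : m0 ≤ (8 * Q) ^ n * m0 := Nat.le_mul_of_pos_left _ h8
    have hm0A : m0 ≤ A.card := by
      have : (8 * Q) ^ n * m0 ≤ 8 * Q * ((8 * Q) ^ n * m0) := Nat.le_mul_of_pos_left _ (by omega)
      omega
    obtain ⟨c, W, hW, A', hA', hdis, hne, h1, h2, h3⟩ :=
      step_q χ hs hd1 hd q (by omega) Q hQ hQ1 A (hm0.trans hm0A)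
    have hA'c : 2 * ((8 * Q) ^ n * m0) ≤ A'.card := by
      have h4 : 4 * Q * (2 * ((8 * Q) ^ n * m0)) ≤ 4 * Q * A'.card := by
        calc 4 * Q * (2 * ((8 * Q) ^ n * m0)) = 8 * Q * ((8 * Q) ^ n * m0) := by ring
          _ = (8 * Q) ^ (n + 1) * m0 := hA2.symm
          _ ≤ A.card := hA
          _ ≤ 4 * Q * A'.card := h1
      exact Nat.le_of_mul_le_mul_left h4 (by omega)
    have htc : 1 ≤ t c := Nat.one_le_iff_ne_zero.2 (hall c)
    set t' := Function.update t c (t c - 1) with ht'
    have htsum : ∑ a, t' a = n := by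
      have e1 : ∑ a, t a = t c + ∑ a ∈ univ.erase c, t a := (add_sum_erase _ _ (mem_univ c)).symm
      have e2 : ∑ a, t' a = t' c + ∑ a ∈ univ.erase c, t' a :=
        (add_sum_erase _ _ (mem_univ c)).symm
      have e3 : ∑ a ∈ univ.erase c, t' a = ∑ a ∈ univ.erase c, t a := by
        apply sum_congr rfl
        intro a ha
        rw [ht', Function.update_of_ne (ne_of_mem_erase ha)]
      have e4 : t' c = t c - 1 := by rw [ht', Function.update_self]
      omega
    by_cases hJ : c ∈ J
    · -- a vertex of `W` with many neighbours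
      have hv : ∃ v ∈ W, A'.card ≤ 2 * (A'.filter (fun y => (gr χ hs c).Adj v y)).card := by
        by_contra hcon
        push Not at hcon
        have e1 : ∀ v ∈ W, A'.card < 2 * wr (gr χ hs c) true v A' := by
          intro v hv
          have e2 := hcon v hv
          have e3 : (A'.filter (fun y => (gr χ hs c).Adj v y)).card +
              (A'.filter (fun y => ¬ (gr χ hs c).Adj v y)).card = A'.card :=
            Finset.card_filter_add_card_filter_not _
          have e4 : wr (gr χ hs c) true v A' =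
              (A'.filter (fun y => ¬ (gr χ hs c).Adj v y)).card := by
            unfold wr
            congr 1
            apply filter_congr
            intro y _
            simp [Wr]
          omega
        have e5 : W.card * A'.card < 2 * ∑ v ∈ W, wr (gr χ hs c) true v A' := by
          rw [mul_sum, ← smul_eq_mul, ← sum_const]
          exact sum_lt_sum_of_nonempty hne e1
        rw [sum_wr] at e5
        have e6 : q * ∑ y ∈ A', wr (gr χ hs c) true y W ≤ A'.card * W.card := by
          rw [mul_sum, ← smul_eq_mul]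
          exact sum_le_card_nsmul _ _ _ h3
        have e7 : 2 * ∑ y ∈ A', wr (gr χ hs c) true y W ≤
            q * ∑ y ∈ A', wr (gr χ hs c) true y W := Nat.mul_le_mul_right _ hq
        have e8 : W.card * A'.card = A'.card * W.card := mul_comm _ _
        omega
      obtain ⟨v, hv, hvc⟩ := hv
      rcases ih t' htsum (A'.filter (fun y => (gr χ hs c).Adj v y)) (by omega) with
        ⟨c1, hc1, S, hS, hSc, hScl⟩ | ⟨c1, hc1, U, hU, hU2⟩
      · left
        by_cases hcc : c1 = c
        · subst hcc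
          have hvS : v ∉ S := by
            intro h
            have := (mem_filter.1 (hS h)).2
            exact this.ne rfl
          refine ⟨c1, hc1, insert v S, ?_, ?_, ?_⟩
          · apply insert_subset (hW hv)
            exact (hS.trans (filter_subset _ _)).trans hA'
          · rw [card_insert_of_notMem hvS, hSc, ht', Function.update_self]
            omega
          · rw [coe_insert, SimpleGraph.isClique_insert]
            refine ⟨hScl, fun y hy _ => ?_⟩
            exact (mem_filter.1 (hS hy)).2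
        · refine ⟨c1, hc1, S, (hS.trans (filter_subset _ _)).trans hA', ?_, hScl⟩
          rw [hSc, ht', Function.update_of_ne hcc]
      · right
        have hcc : c1 ≠ c := fun e => hc1 (by rw [e]; exact hJ)
        rw [ht', Function.update_of_ne hcc] at hU hU2
        exact ⟨c1, hc1, U, fun i hi =>
          ⟨((hU i hi).1.trans (filter_subset _ _)).trans hA', (hU i hi).2⟩, hU2⟩
    · rcases ih t' htsum A' (by omega) with ⟨c1, hc1, S, hS, hSc, hScl⟩ | ⟨c1, hc1, U, hU, hU2⟩
      · left
        have hcc : c1 ≠ c := fun e => hJ (by rw [← e]; exact hc1)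
        refine ⟨c1, hc1, S, hS.trans hA', ?_, hScl⟩
        rw [hSc, ht', Function.update_of_ne hcc]
      · right
        by_cases hcc : c1 = c
        · subst hcc
          rw [ht', Function.update_self] at hU hU2
          refine ⟨c1, hc1, fun i => Nat.casesOn i W U, ?_, ?_⟩
          · intro i hi
            cases i with
            | zero => exact ⟨hW, hm0A.trans h2⟩
            | succ i => exact ⟨(hU i (by omega)).1.trans hA', (hU i (by omega)).2⟩
          · intro i j hij hj
            cases j with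
            | zero => omega
            | succ j =>
              have hsub := (hU j (by omega)).1
              cases i with
              | zero =>
                exact ⟨Finset.disjoint_of_subset_right hsub hdis, fun y hy => h3 y (hsub hy)⟩
              | succ i => exact hU2 i j (by omega) (by omega)
        · rw [ht', Function.update_of_ne hcc] at hU hU2
          exact ⟨c1, hc1, U, fun i hi => ⟨(hU i hi).1.trans hA', (hU i hi).2⟩, hU2⟩

end Pool.Agent.Y424.LK
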