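import Pool.Agent.Y424.LK.Trace

/-!
# Stepping up and traces of neighbourhoods: the main step
-/

set_option autoImplicit false

namespace Pool.Agent.Y424.LK

open Finset Pool.Agent.TH138.NF

/-- index type of the values attached to a tuple -/
abbrev Idx (R : ℕ) := (Fin (R + 1) × Fin (R + 1)) ⊕ Fin (R + 1)

/-- the distances within the tuple, and the distances to the nearest points -/
def vals {R : ℕ} (g : ℕ → ℕ) (a : Fin (R + 1) → ℕ) : Idx R → ℕ :=
  Sum.elim (fun p => hh (a p.1) (a p.2)) (fun i => hh (g (a i)) (a i))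

theorem max_cmp {T : Type} {V V' : T → ℕ} (h : ∀ p q, V p < V q ↔ V' p < V' q) (p q r s : T) :
    max (V p) (V q) < max (V r) (V s) ↔ max (V' p) (V' q) < max (V' r) (V' s) := by
  simp only [max_lt_iff, lt_max_iff, h]

theorem same_trace {κ κ' : Type} {c : Finset ℕ → κ} {c' : Finset ℕ → κ'} {R N : ℕ}
    (hS : Steps c c' R N) {Z : Finset ℕ} (hZ : Z ⊆ range (2 ^ N)) {g : ℕ → ℕ}
    (hg : ∀ p, g p ∈ Z) (hgm : ∀ p x, x ∈ Z → hh x p = max (hh (g p) p) (hh x (g p)))
    {A A' : Finset ℕ} (hA : A ⊆ range (2 ^ N)) (hA' : A' ⊆ range (2 ^ N))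
    (hc : A.card = R + 1) (hc' : A'.card = R + 1) {a a' : Fin (R + 1) → ℕ}
    (ha : a = srt (R + 1) A) (ha' : a' = srt (R + 1) A')
    (e1 : ∀ i, g (a i) = g (a' i))
    (e2 : ∀ i, (Z.filter (fun y => y < a i)).card = (Z.filter (fun y => y < a' i)).card)
    (e3 : ∀ i, (Z.filter (fun y => y ≤ a i)).card = (Z.filter (fun y => y ≤ a' i)).card)
    (e4 : ∀ w, ((HZ Z).filter (fun y => y < vals g a w)).card =
      ((HZ Z).filter (fun y => y < vals g a' w)).card)
    (e5 : ∀ w, ((HZ Z).filter (fun y => y ≤ vals g a w)).card =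
      ((HZ Z).filter (fun y => y ≤ vals g a' w)).card)
    (e6 : ∀ w w', vals g a w < vals g a w' ↔ vals g a' w < vals g a' w')
    (e7 : ∀ i, c (insert (vals g a (Sum.inr i)) (univ.image (D a))) =
      c (insert (vals g a' (Sum.inr i)) (univ.image (D a'))))
    (e8 : ∀ h ∈ HZ Z, univ.image (D a) ⊆ range N → univ.image (D a') ⊆ range N →
      (univ.image (D a)).card = R → (univ.image (D a')).card = R → h ∉ univ.image (D a) →
      c (insert h (univ.image (D a))) = c (insert h (univ.image (D a'))))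
    {x : ℕ} (hx : x ∈ Z) :
    (x ∈ A ↔ x ∈ A') ∧ (x ∉ A → c' (insert x A) = c' (insert x A')) := by
  have hmem : ∀ i, (x < a i ↔ x < a' i) ∧ (x ≤ a i ↔ x ≤ a' i) :=
    fun i => ⟨filter_lt_iff (e2 i) hx, filter_le_iff (e3 i) hx⟩
  have himA : univ.image a = A := by rw [ha]; exact srt_image hc
  have himA' : univ.image a' = A' := by rw [ha']; exact srt_image hc'
  have hiff : x ∈ A ↔ x ∈ A' := by
    rw [← himA, ← himA']
    simp only [mem_image, mem_univ, true_and]
    apply exists_congr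
    intro i
    have := hmem i
    omega
  refine ⟨hiff, fun hxA => ?_⟩
  have hxA' : x ∉ A' := fun h => hxA (hiff.2 h)
  obtain ⟨i, X, hX, hXim, hXi, hXa, hXlt⟩ := insert_point hc hxA
  obtain ⟨i', X', hX', hXim', hXi', hXa', hXlt'⟩ := insert_point hc' hxA'
  rw [← ha] at hXa hXlt
  rw [← ha'] at hXa' hXlt'
  have hii : i' = i := by
    apply Fin.ext
    have key : ∀ k : Fin (R + 1), (k : ℕ) < i ↔ (k : ℕ) < i' := by
      intro k
      rw [← hXlt k, ← hXlt' k]
      have := hmem k
      omega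
    rcases lt_trichotomy (i : ℕ) i' with h | h | h
    · have h1 := key ⟨i, by omega⟩
      simp only at h1
      omega
    · exact h.symm
    · have h1 := key ⟨i', by omega⟩
      simp only at h1
      omega
  subst hii
  have hXb : ∀ k, X k < 2 ^ N := by
    intro k
    have h1 : X k ∈ insert x A := by rw [← hXim]; exact mem_image_of_mem _ (mem_univ _)
    rcases mem_insert.1 h1 with h | h
    · rw [h]; exact mem_range.1 (hZ hx)
    · exact mem_range.1 (hA h)
  have hXb' : ∀ k, X' k < 2 ^ N := by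
    intro k
    have h1 : X' k ∈ insert x A' := by rw [← hXim']; exact mem_image_of_mem _ (mem_univ _)
    rcases mem_insert.1 h1 with h | h
    · rw [h]; exact mem_range.1 (hZ hx)
    · exact mem_range.1 (hA' h)
  -- values
  set V : Idx R ⊕ {h // h ∈ HZ Z} → ℕ := Sum.elim (vals g a) Subtype.val with hV
  set V' : Idx R ⊕ {h // h ∈ HZ Z} → ℕ := Sum.elim (vals g a') Subtype.val with hV'
  have hcmp : ∀ p q, V p < V q ↔ V' p < V' q := by
    rintro (p | ⟨p, hp⟩) (q | ⟨q, hq⟩)
    · exact e6 p q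
    · have := filter_le_iff (e5 p) hq
      simp only [hV, hV', Sum.elim_inl, Sum.elim_inr]
      omega
    · exact filter_lt_iff (e4 q) hp
    · exact Iff.rfl
  have hXs : ∀ k, X (i'.succAbove k) = a k := fun k => by
    rw [← hXa, Fin.removeNth_apply]
  have hXs' : ∀ k, X' (i'.succAbove k) = a' k := fun k => by
    rw [← hXa', Fin.removeNth_apply]
  have hval : ∀ u v, ∃ p q, hh (X u) (X v) = max (V p) (V q) ∧
      hh (X' u) (X' v) = max (V' p) (V' q) := by
    intro u v
    rcases Fin.eq_self_or_eq_succAbove i' u with hu | ⟨k, hu⟩ <;>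
      rcases Fin.eq_self_or_eq_succAbove i' v with hv | ⟨l, hv⟩
    · refine ⟨Sum.inr ⟨hh x x, hh_mem_HZ hx hx⟩, Sum.inr ⟨hh x x, hh_mem_HZ hx hx⟩, ?_, ?_⟩
      · rw [hu, hv, hXi, max_self]
        rfl
      · rw [hu, hv, hXi', max_self]
        rfl
    · refine ⟨Sum.inl (Sum.inr l), Sum.inr ⟨hh x (g (a l)), hh_mem_HZ hx (hg _)⟩, ?_, ?_⟩
      · rw [hu, hv, hXi, hXs]
        exact hgm (a l) x hx
      · rw [hu, hv, hXi', hXs', hgm (a' l) x hx]
        simp only [hV', Sum.elim_inl, Sum.elim_inr, vals]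
        rw [e1 l]
    · refine ⟨Sum.inl (Sum.inr k), Sum.inr ⟨hh x (g (a k)), hh_mem_HZ hx (hg _)⟩, ?_, ?_⟩
      · rw [hu, hv, hXi, hXs, hh_comm]
        exact hgm (a k) x hx
      · rw [hu, hv, hXi', hXs', hh_comm, hgm (a' k) x hx]
        simp only [hV', Sum.elim_inl, Sum.elim_inr, vals]
        rw [e1 k]
    · refine ⟨Sum.inl (Sum.inl (k, l)), Sum.inl (Sum.inl (k, l)), ?_, ?_⟩
      · rw [hu, hv, hXs, hXs, max_self]
        rfl
      · rw [hu, hv, hXs', hXs', max_self]
        rfl
  have hDX : ∀ k, D X k = hh (X k.castSucc) (X k.succ) := fun k => by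
    rw [hh_lt (hX (Fin.castSucc_lt_succ))]
    rfl
  have hDX' : ∀ k, D X' k = hh (X' k.castSucc) (X' k.succ) := fun k => by
    rw [hh_lt (hX' (Fin.castSucc_lt_succ))]
    rfl
  have hpat : Pat (D X) (D X') := by
    intro k l
    obtain ⟨p, q, h1, h2⟩ := hval k.castSucc k.succ
    obtain ⟨p', q', h3, h4⟩ := hval l.castSucc l.succ
    rw [hDX, hDX, hDX', hDX', h1, h2, h3, h4]
    exact max_cmp hcmp p q p' q'
  rw [← hXim, ← hXim']
  refine hS X X' hX hX' hXb hXb' hpat ?_
  intro hmon
  -- the monotone case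
  have hpq : ∃ p q : Fin (R + 1), (D a = p.removeNth (D X) ∧ D X p = hh x (a q)) ∧
      (D a' = p.removeNth (D X') ∧ D X' p = hh x (a' q)) := by
    rcases hmon with hm | hm
    · obtain ⟨p, q, h⟩ := rem_mono i'
      refine ⟨p, q, ?_, ?_⟩
      · have := h X hX hm
        rw [hXa, hXi] at this
        exact this
      · have := h X' hX' (hpat.mono hm)
        rw [hXa', hXi'] at this
        exact this
    · obtain ⟨p, q, h⟩ := rem_anti i'
      refine ⟨p, q, ?_, ?_⟩
      · have := h X hX hm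
        rw [hXa, hXi] at this
        exact this
      · have := h X' hX' (hpat.anti hm)
        rw [hXa', hXi'] at this
        exact this
  obtain ⟨p, q, ⟨h1, h2⟩, ⟨h3, h4⟩⟩ := hpq
  have hinj : Function.Injective (D X) := by
    rcases hmon with hm | hm
    · exact hm.injective
    · exact hm.injective
  have hinj' : Function.Injective (D X') := by
    rcases hmon with hm | hm
    · exact (hpat.mono hm).injective
    · exact (hpat.anti hm).injective
  rw [image_removeNth (D X) p, image_removeNth (D X') p, ← h1, ← h3, h2, h4]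
  have hcard : ∀ (d : Fin (R + 1) → ℕ), Function.Injective d →
      (univ.image (p.removeNth d)).card = R := by
    intro d hd
    rw [card_image_of_injective, card_univ, Fintype.card_fin]
    intro k l hkl
    rw [Fin.removeNth_apply, Fin.removeNth_apply] at hkl
    exact Fin.succAbove_right_injective (hd hkl)
  have hsub : ∀ (b : Fin (R + 1) → ℕ), StrictMono b → (∀ k, b k < 2 ^ N) →
      univ.image (D b) ⊆ range N := by
    intro b hb hbN w hw
    obtain ⟨k, -, rfl⟩ := mem_image.1 hw
    rw [mem_range]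
    exact hd_lt (hb (Fin.castSucc_lt_succ)) (hbN _)
  have hsa : univ.image (D a) ⊆ range N := by
    rcases R with _ | R
    · intro w hw
      obtain ⟨k, -, -⟩ := mem_image.1 hw
      exact k.elim0
    · exact hsub a (by rw [ha]; exact srt_mono hc) (fun k => by
        have h5 : a k ∈ A := by rw [← himA]; exact mem_image_of_mem _ (mem_univ _)
        exact mem_range.1 (hA h5))
  have hsa' : univ.image (D a') ⊆ range N := by
    rcases R with _ | R
    · intro w hw
      obtain ⟨k, -, -⟩ := mem_image.1 hw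
      exact k.elim0
    · exact hsub a' (by rw [ha']; exact srt_mono hc') (fun k => by
        have h5 : a' k ∈ A' := by rw [← himA']; exact mem_image_of_mem _ (mem_univ _)
        exact mem_range.1 (hA' h5))
  have hy := hgm (a q) x hx
  have hy' := hgm (a' q) x hx
  rw [← e1 q] at hy'
  have hH : hh x (g (a q)) ∈ HZ Z := hh_mem_HZ hx (hg _)
  have hq := hcmp (Sum.inr ⟨hh x (g (a q)), hH⟩) (Sum.inl (Sum.inr q))
  have hq1 : V (Sum.inl (Sum.inr q)) = hh (g (a q)) (a q) := rfl
  have hq2 : V' (Sum.inl (Sum.inr q)) = hh (g (a q)) (a' q) := by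
    simp only [hV', Sum.elim_inl, Sum.elim_inr, vals]
    rw [e1 q]
  have hq3 : V (Sum.inr ⟨hh x (g (a q)), hH⟩) = hh x (g (a q)) := rfl
  have hq4 : V' (Sum.inr ⟨hh x (g (a q)), hH⟩) = hh x (g (a q)) := rfl
  rw [hq1, hq2, hq3, hq4] at hq
  by_cases hlt : hh x (g (a q)) < hh (g (a q)) (a q)
  · rw [max_eq_left hlt.le] at hy
    rw [max_eq_left (hq.1 hlt).le] at hy'
    rw [hy, hy']
    have h5 := e7 q
    simp only [vals, Sum.elim_inr] at h5
    rw [← e1 q] at h5
    exact h5
  · have hlt' := fun h => hlt (hq.2 h)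
    rw [max_eq_right (not_lt.1 hlt)] at hy
    rw [max_eq_right (not_lt.1 hlt')] at hy'
    rw [hy, hy']
    refine e8 _ hH hsa hsa' ?_ ?_ ?_
    · rw [h1]
      exact hcard _ hinj
    · rw [h3]
      exact hcard _ hinj'
    · intro hmem2
      rw [h1] at hmem2
      obtain ⟨k, -, hk⟩ := mem_image.1 hmem2
      rw [Fin.removeNth_apply, ← hy, ← h2] at hk
      exact Fin.succAbove_ne p k (hinj hk)

end Pool.Agent.Y424.LK
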