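import Pool.Agent.Y424.LK.Four

/-!
# Stepping up and traces of neighbourhoods
-/

set_option autoImplicit false

namespace Pool.Agent.Y424.LK

open Finset Pool.Agent.TH138.NF

/-- The traces on `W` of the neighbourhoods of the `R`-sets are described by a code with at most
`B |W|` values. -/
def TB {κ : Type} (c : Finset ℕ → κ) (R N : ℕ) (B : ℕ → ℕ) : Prop :=
  ∀ W ⊆ range N, ∃ (α : Type) (_ : Fintype α) (code : Finset ℕ → α), Fintype.card α ≤ B W.card ∧
    ∀ A A' : Finset ℕ, A ⊆ range N → A' ⊆ range N → A.card = R → A'.card = R →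
      code A = code A' → ∀ x ∈ W, (x ∈ A ↔ x ∈ A') ∧
        (x ∉ A → c (insert x A) = c (insert x A'))

/-- the same order pattern -/
def Pat {n : ℕ} (d d' : Fin n → ℕ) : Prop := ∀ k l, d k < d l ↔ d' k < d' l

theorem Pat.mono {n : ℕ} {d d' : Fin n → ℕ} (h : Pat d d') (hd : StrictMono d) : StrictMono d' :=
  fun _ _ hab => (h _ _).1 (hd hab)

theorem Pat.anti {n : ℕ} {d d' : Fin n → ℕ} (h : Pat d d') (hd : StrictAnti d) : StrictAnti d' :=
  fun _ _ hab => (h _ _).1 (hd hab)

theorem Pat.symm {n : ℕ} {d d' : Fin n → ℕ} (h : Pat d d') : Pat d' d := fun k l => (h k l).symm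

/-- `c'` is obtained from `c` by stepping up. -/
def Steps {κ κ' : Type} (c : Finset ℕ → κ) (c' : Finset ℕ → κ') (R N : ℕ) : Prop :=
  ∀ X X' : Fin (R + 2) → ℕ, StrictMono X → StrictMono X' → (∀ i, X i < 2 ^ N) →
    (∀ i, X' i < 2 ^ N) → Pat (D X) (D X') →
    ((StrictMono (D X) ∨ StrictAnti (D X)) → c (univ.image (D X)) = c (univ.image (D X'))) →
    c' (univ.image X) = c' (univ.image X')

/-! ### distances in a set -/

/-- the next element -/
noncomputable def nxt (Z : Finset ℕ) (z : ℕ) : ℕ :=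
  if h : (Z.filter (fun y => z < y)).Nonempty then (Z.filter (fun y => z < y)).min' h else z

/-- the distances between neighbours -/
noncomputable def HZ (Z : Finset ℕ) : Finset ℕ := Z.image (fun z => hh z (nxt Z z))

theorem HZ_card (Z : Finset ℕ) : (HZ Z).card ≤ Z.card := card_image_le

theorem nxt_spec {Z : Finset ℕ} {x y : ℕ} (hy : y ∈ Z) (hxy : x < y) :
    nxt Z x ∈ Z ∧ x < nxt Z x ∧ nxt Z x ≤ y := by
  have h : (Z.filter (fun y => x < y)).Nonempty := ⟨y, mem_filter.2 ⟨hy, hxy⟩⟩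
  have h1 : nxt Z x = (Z.filter (fun y => x < y)).min' h := dif_pos h
  have h2 := min'_mem _ h
  rw [← h1, mem_filter] at h2
  refine ⟨h2.1, h2.2, ?_⟩
  rw [h1]
  exact min'_le _ _ (mem_filter.2 ⟨hy, hxy⟩)

theorem mem_HZ {Z : Finset ℕ} : ∀ (n x y : ℕ), x ∈ Z → y ∈ Z → x < y → y - x ≤ n →
    hh x y ∈ HZ Z := by
  intro n
  induction n with
  | zero =>
    intro x y _ _ hxy h
    omega
  | succ n ih =>
    intro x y hx hy hxy h
    obtain ⟨h1, h2, h3⟩ := nxt_spec hy hxy
    rcases h3.lt_or_eq with h4 | h4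
    · have h5 : hh x y = max (hh x (nxt Z x)) (hh (nxt Z x) y) := by
        rw [hh_lt hxy, hh_lt h2, hh_lt h4, hd_max h2 h4]
      have h6 := ih (nxt Z x) y h1 hy h4 (by omega)
      rw [h5]
      rcases max_choice (hh x (nxt Z x)) (hh (nxt Z x) y) with e | e
      · rw [e]
        exact mem_image_of_mem _ hx
      · rw [e]
        exact h6
    · rw [← h4]
      exact mem_image_of_mem _ hx

theorem hh_mem_HZ {Z : Finset ℕ} {x y : ℕ} (hx : x ∈ Z) (hy : y ∈ Z) : hh x y ∈ HZ Z := by
  rcases lt_trichotomy x y with h | h | h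
  · exact mem_HZ _ x y hx hy h le_rfl
  · rw [← h, hh_self]
    have hne : Z.Nonempty := ⟨x, hx⟩
    have h1 := Z.max'_mem hne
    have h2 : nxt Z (Z.max' hne) = Z.max' hne := by
      apply dif_neg
      rintro ⟨y, hy⟩
      rw [mem_filter] at hy
      exact absurd (Z.le_max' y hy.1) (not_le.2 hy.2)
    have h3 : hh (Z.max' hne) (nxt Z (Z.max' hne)) ∈ HZ Z := mem_image_of_mem _ h1
    rwa [h2, hh_self] at h3
  · rw [hh_comm]
    exact mem_HZ _ y x hy hx h le_rfl

theorem HZ_sub {Z : Finset ℕ} {N : ℕ} (hN : 1 ≤ N) (hZ : Z ⊆ range (2 ^ N)) :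
    HZ Z ⊆ range N := by
  intro w hw
  obtain ⟨z, hz, rfl⟩ := mem_image.1 hw
  rw [mem_range]
  apply hh_bound hN (mem_range.1 (hZ hz))
  unfold nxt
  split_ifs with h
  · exact mem_range.1 (hZ (mem_filter.1 (min'_mem _ h)).1)
  · exact mem_range.1 (hZ hz)

/-! ### sorted tuples -/

/-- the increasing enumeration -/
noncomputable def srt (n : ℕ) (A : Finset ℕ) : Fin n → ℕ :=
  if h : A.card = n then fun i => A.orderEmbOfFin h i else fun _ => 0

theorem srt_mono {n : ℕ} {A : Finset ℕ} (h : A.card = n) : StrictMono (srt n A) := by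
  have : srt n A = fun i => A.orderEmbOfFin h i := dif_pos h
  rw [this]
  exact (A.orderEmbOfFin h).strictMono

theorem srt_image {n : ℕ} {A : Finset ℕ} (h : A.card = n) : univ.image (srt n A) = A := by
  have e : srt n A = fun i => A.orderEmbOfFin h i := dif_pos h
  apply eq_of_subset_of_card_le
  · intro x hx
    obtain ⟨i, -, rfl⟩ := mem_image.1 hx
    rw [e]
    exact orderEmbOfFin_mem _ _ _
  · rw [card_image_of_injective _ (srt_mono h).injective, card_univ, Fintype.card_fin, h]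

theorem srt_unique {n : ℕ} {A : Finset ℕ} {X : Fin n → ℕ} (hX : StrictMono X)
    (h : univ.image X = A) : X = srt n A := by
  have hc : A.card = n := by
    rw [← h, card_image_of_injective _ hX.injective, card_univ, Fintype.card_fin]
  have e : srt n A = fun i => A.orderEmbOfFin hc i := dif_pos hc
  rw [e]
  exact orderEmbOfFin_unique hc (fun i => by rw [← h]; exact mem_image_of_mem _ (mem_univ _)) hX

theorem image_removeNth {n : ℕ} (X : Fin (n + 1) → ℕ) (p : Fin (n + 1)) :
    univ.image X = insert (X p) (univ.image (p.removeNth X)) := by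
  ext y
  simp only [mem_image, mem_univ, true_and, mem_insert]
  constructor
  · rintro ⟨i, rfl⟩
    rcases Fin.eq_self_or_eq_succAbove p i with h | ⟨k, h⟩
    · left
      rw [h]
    · right
      exact ⟨k, by rw [Fin.removeNth_apply, ← h]⟩
  · rintro (rfl | ⟨k, rfl⟩)
    · exact ⟨p, rfl⟩
    · exact ⟨p.succAbove k, by rw [Fin.removeNth_apply]⟩

/-- inserting a point -/
theorem insert_point {R : ℕ} {A : Finset ℕ} (hA : A.card = R + 1) {x : ℕ} (hx : x ∉ A) :
    ∃ (i : Fin (R + 2)) (X : Fin (R + 2) → ℕ), StrictMono X ∧ univ.image X = insert x A ∧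
      X i = x ∧ i.removeNth X = srt (R + 1) A ∧
      ∀ k : Fin (R + 1), srt (R + 1) A k < x ↔ (k : ℕ) < i := by
  have hc : (insert x A).card = R + 2 := by rw [card_insert_of_notMem hx, hA]
  have h1 := srt_mono hc
  have h2 := srt_image hc
  set X := srt (R + 2) (insert x A) with hX
  have h3 : x ∈ univ.image X := by rw [h2]; exact mem_insert_self _ _
  obtain ⟨i, -, hi⟩ := mem_image.1 h3
  have h4 : StrictMono (i.removeNth X) := by
    intro k l hkl
    rw [Fin.removeNth_apply, Fin.removeNth_apply]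
    exact h1 (Fin.strictMono_succAbove i hkl)
  have h5 : univ.image (i.removeNth X) = A := by
    have h6 := image_removeNth X i
    rw [h2, hi] at h6
    have h7 : x ∉ univ.image (i.removeNth X) := by
      intro h
      obtain ⟨k, -, hk⟩ := mem_image.1 h
      rw [Fin.removeNth_apply, ← hi] at hk
      exact Fin.succAbove_ne i k (h1.injective hk)
    have h8 := congrArg (fun S => S.erase x) h6
    simp only [erase_insert hx, erase_insert h7] at h8
    exact h8.symm
  have h6 := srt_unique h4 h5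
  refine ⟨i, X, h1, h2, hi, h6, ?_⟩
  intro k
  rw [← h6, Fin.removeNth_apply]
  conv_lhs => rw [← hi]
  rw [h1.lt_iff_lt, Fin.succAbove_lt_iff_castSucc_lt]
  exact Iff.rfl

/-! ### removing a vertex -/

theorem rem_mono {R : ℕ} (i : Fin (R + 2)) : ∃ p q : Fin (R + 1), ∀ X : Fin (R + 2) → ℕ,
    StrictMono X → StrictMono (D X) →
      D (i.removeNth X) = p.removeNth (D X) ∧ D X p = hh (X i) (i.removeNth X q) := by
  rcases Fin.eq_zero_or_eq_succ i with rfl | ⟨j, rfl⟩
  · refine ⟨0, 0, fun X hX hD => ⟨?_, ?_⟩⟩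
    · funext k
      rw [D_tail, Fin.removeNth_apply, Fin.zero_succAbove]
    · rw [Fin.removeNth_apply, Fin.zero_succAbove, hh_lt (hX (Fin.succ_pos 0))]
      rfl
  · refine ⟨j, j, fun X hX hD => ⟨D_succ X hX hD j, ?_⟩⟩
    rw [Fin.removeNth_apply, Fin.succAbove_of_castSucc_lt _ _ (Fin.castSucc_lt_succ),
      hh_gt (hX (Fin.castSucc_lt_succ))]
    rfl

theorem rem_anti {R : ℕ} (i : Fin (R + 2)) : ∃ p q : Fin (R + 1), ∀ X : Fin (R + 2) → ℕ,
    StrictMono X → StrictAnti (D X) →
      D (i.removeNth X) = p.removeNth (D X) ∧ D X p = hh (X i) (i.removeNth X q) := by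
  rcases Fin.eq_castSucc_or_eq_last i with ⟨j, rfl⟩ | rfl
  · refine ⟨j, j, fun X hX hD => ⟨D_castSucc X hX hD j, ?_⟩⟩
    rw [Fin.removeNth_apply, Fin.succAbove_castSucc_self, hh_lt (hX (Fin.castSucc_lt_succ))]
    rfl
  · refine ⟨Fin.last R, Fin.last R, fun X hX hD => ⟨?_, ?_⟩⟩
    · funext k
      rw [D_init, Fin.removeNth_apply, Fin.succAbove_last]
    · rw [Fin.removeNth_apply, Fin.succAbove_last, hh_gt (hX (Fin.castSucc_lt_last _))]
      rfl

end Pool.Agent.Y424.LK
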